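import Mathlib

/-!
# A separation lemma in the plane

Let `K₁, K₂` be disjoint closed sets and `G` a bounded open set such that `K₁ ∪ K₂ ∪ G` is closed and
`G` has no holes in the sense that every bounded open set with boundary inside `G` is inside `G`.
Then `K₁ ∪ K₂ ∪ G` is the union of two disjoint closed sets containing `K₁` and `K₂`.
-/

set_option autoImplicit false
open Set Filter Topology Metric
open scoped Manifold ContDiff

namespace Pool.Agent.R283.Hull

lemma isPreconnected_far (R : ℝ) (hR : 0 < R) : IsPreconnected {z : ℂ | R < ‖z‖} := by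
  have h1 : IsPreconnected {w : ℂ | Real.log R < w.re} :=
    (convex_halfSpace_re_gt (Real.log R)).isPreconnected
  have h2 : {z : ℂ | R < ‖z‖} = Complex.exp '' {w : ℂ | Real.log R < w.re} := by
    ext z
    constructor
    · intro hz
      have hz' : R < ‖z‖ := hz
      have hz0 : z ≠ 0 := by
        rintro rfl
        rw [norm_zero] at hz'
        linarith
      refine ⟨Complex.log z, ?_, Complex.exp_log hz0⟩
      show Real.log R < (Complex.log z).re
      rw [Complex.log_re]
      exact Real.log_lt_log hR hz'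
    · rintro ⟨w, hw, rfl⟩
      show R < ‖Complex.exp w‖
      rw [Complex.norm_exp]
      have : Real.log R < w.re := hw
      rwa [Real.log_lt_iff_lt_exp hR] at this
  rw [h2]
  exact h1.image _ Complex.continuous_exp.continuousOn

/-- A continuous real function on a preconnected set with integer values is constant. -/
lemma const_of_int {S : Set ℂ} (hS : IsPreconnected S) {θ : ℂ → ℝ} (hθ : ContinuousOn θ S)
    (hint : ∀ z ∈ S, ∃ n : ℤ, θ z = n) {a b : ℂ} (ha : a ∈ S) (hb : b ∈ S) : θ a = θ b := by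
  by_contra hne
  wlog hlt : θ a < θ b generalizing a b
  · exact this hb ha (Ne.symm hne) (lt_of_le_of_ne (not_lt.1 hlt) (Ne.symm hne))
  obtain ⟨m, hm⟩ := hint a ha
  obtain ⟨n, hn⟩ := hint b hb
  have hmn : m < n := by
    rw [hm, hn] at hlt
    exact_mod_cast hlt
  have hmem : (m : ℝ) + 1 / 2 ∈ Icc (θ a) (θ b) := by
    rw [hm, hn]
    constructor
    · linarith
    · have : (m : ℝ) + 1 ≤ n := by exact_mod_cast hmn
      linarith
  obtain ⟨z, hz, hz'⟩ := hS.intermediate_value ha hb hθ hmem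
  obtain ⟨k, hk⟩ := hint z hz
  rw [hk] at hz'
  have h2 : (2 : ℝ) * k = 2 * m + 1 := by linarith
  have h3 : (2 : ℤ) * k = 2 * m + 1 := by exact_mod_cast h2
  omega

theorem separate {K₁ K₂ G : Set ℂ} (h1 : IsClosed K₁) (h2 : IsClosed K₂) (h12 : Disjoint K₁ K₂)
    (hG : IsOpen G) (hG1 : Disjoint G K₁) (hG2 : Disjoint G K₂) (hcl : IsClosed (K₁ ∪ K₂ ∪ G))
    (hbd : Bornology.IsBounded (K₁ ∪ K₂ ∪ G))
    (hole : ∀ U : Set ℂ, IsOpen U → Bornology.IsBounded U → frontier U ⊆ G → U ⊆ G) :
    ∃ A B : Set ℂ, IsClosed A ∧ IsClosed B ∧ Disjoint A B ∧ K₁ ⊆ A ∧ K₂ ⊆ B ∧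
      A ∪ B = K₁ ∪ K₂ ∪ G := by
  classical
  obtain ⟨φ, hφ2, hφ1, _⟩ := exists_contMDiffMap_zero_one_nhds_of_isClosed (n := 0) 𝓘(ℝ, ℂ)
    h2 h1 h12.symm
  have hφc : Continuous (φ : ℂ → ℝ) := φ.contMDiff.continuous
  set g : ℂ → ℂ := fun z => if z ∈ G then Complex.exp (2 * Real.pi * Complex.I * (φ z : ℝ)) else 1
    with hg
  have hgG : ∀ z ∈ G, g z = Complex.exp (2 * Real.pi * Complex.I * (φ z : ℝ)) := by
    intro z hz
    simp only [hg, if_pos hz]
  have hgn : ∀ z, z ∉ G → g z = 1 := by
    intro z hz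
    simp only [hg, if_neg hz]
  have hgc : Continuous g := by
    rw [continuous_iff_continuousAt]
    intro z
    by_cases hzG : z ∈ G
    · have h3 : ContinuousAt (fun z => Complex.exp (2 * Real.pi * Complex.I * (φ z : ℝ))) z := by
        have : Continuous fun z => Complex.exp (2 * Real.pi * Complex.I * (φ z : ℝ)) := by
          fun_prop
        exact this.continuousAt
      refine h3.congr ?_
      filter_upwards [hG.mem_nhds hzG] with w hw
      exact (hgG w hw).symm
    · have hone : g =ᶠ[𝓝 z] fun _ => 1 := by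
        by_cases hz1 : z ∈ K₁
        · have := hφ1.filter_mono (nhds_le_nhdsSet hz1)
          filter_upwards [this] with w hw
          by_cases hwG : w ∈ G
          · rw [hgG w hwG, hw]
            simp [Complex.exp_two_pi_mul_I]
          · exact hgn w hwG
        · by_cases hz2 : z ∈ K₂
          · have := hφ2.filter_mono (nhds_le_nhdsSet hz2)
            filter_upwards [this] with w hw
            by_cases hwG : w ∈ G
            · rw [hgG w hwG, hw]
              simp
            · exact hgn w hwG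
          · have hz3 : z ∉ K₁ ∪ K₂ ∪ G := by
              rintro ((h | h) | h)
              · exact hz1 h
              · exact hz2 h
              · exact hzG h
            filter_upwards [hcl.isOpen_compl.mem_nhds hz3] with w hw
            exact hgn w fun h => hw (Or.inr h)
      exact (continuousAt_const (y := (1 : ℂ))).congr hone.symm
  have hnorm : ∀ z, ‖g z‖ = 1 := by
    intro z
    by_cases hz : z ∈ G
    · rw [hgG z hz, Complex.norm_exp]
      have : (2 * Real.pi * Complex.I * (φ z : ℝ)).re = 0 := by simp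
      rw [this, Real.exp_zero]
    · rw [hgn z hz, norm_one]
  have hg0 : ∀ z, g z ∈ ({0}ᶜ : Set ℂ) := by
    intro z hz
    have h3 := hnorm z
    rw [mem_singleton_iff.1 hz, norm_zero] at h3
    exact zero_ne_one h3
  have hg00 : g 0 ≠ 0 := fun h => hg0 0 h
  obtain ⟨f', ⟨_, hff⟩, _⟩ := Complex.isCoveringMapOn_exp.existsUnique_continuousMap_lifts
    (⟨g, hgc⟩ : C(ℂ, ℂ)) (a₀ := 0) (e₀ := Complex.log (g 0)) (Complex.exp_log hg00) hg0
  set f : ℂ → ℂ := fun z => f' z with hfdef
  have hfc : Continuous f := f'.continuous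
  have hexp : ∀ z, Complex.exp (f z) = g z := fun z => congrFun hff z
  have hre : ∀ z, (f z).re = 0 := by
    intro z
    have h3 := hnorm z
    rw [← hexp z, Complex.norm_exp] at h3
    exact Real.exp_eq_one_iff _ |>.1 h3
  set θ : ℂ → ℝ := fun z => (f z).im / (2 * Real.pi) with hθ
  have hθc : Continuous θ := (Complex.continuous_im.comp hfc).div_const _
  have hfθ : ∀ z, f z = 2 * Real.pi * Complex.I * (θ z : ℝ) := by
    intro z
    have hpi : (2 * Real.pi) ≠ 0 := by positivity
    apply Complex.ext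
    · rw [hre z]; simp
    · have e1 : (2 * Real.pi * Complex.I * ((θ z : ℝ) : ℂ)).im = 2 * Real.pi * θ z := by
        simp
      rw [e1, hθ]
      field_simp
  have hint : ∀ z, g z = 1 → ∃ n : ℤ, θ z = n := by
    intro z hz
    have h3 : Complex.exp (f z) = 1 := by rw [hexp, hz]
    obtain ⟨n, hn⟩ := Complex.exp_eq_one_iff.1 h3
    refine ⟨n, ?_⟩
    rw [hfθ z] at hn
    have hpi : (2 * Real.pi * Complex.I : ℂ) ≠ 0 := Complex.two_pi_I_ne_zero
    have h4 : (2 * Real.pi * Complex.I : ℂ) * (θ z : ℝ) = 2 * Real.pi * Complex.I * (n : ℝ) := by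
      rw [hn]; push_cast; ring
    exact_mod_cast mul_left_cancel₀ hpi h4
  have hint' : ∀ z, (∃ n : ℤ, θ z = n) → g z = 1 := by
    rintro z ⟨n, hn⟩
    rw [← hexp z, hfθ z, hn, Complex.exp_eq_one_iff]
    exact ⟨n, by push_cast; ring⟩
  -- constancy at infinity
  obtain ⟨R, hRpos, hR⟩ : ∃ R : ℝ, 0 < R ∧ K₁ ∪ K₂ ∪ G ⊆ closedBall 0 R := by
    obtain ⟨R, hR⟩ := hbd.subset_closedBall 0
    exact ⟨max R 1, lt_max_of_lt_right one_pos, hR.trans (closedBall_subset_closedBall (le_max_left _ _))⟩
  have hfar : ∀ z, R < ‖z‖ → z ∉ G := by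
    intro z hz h
    have := hR (Or.inr h)
    rw [mem_closedBall, dist_zero_right] at this
    linarith
  set p₀ : ℂ := ((R + 1 : ℝ) : ℂ) with hp₀
  have hp₀R : R < ‖p₀‖ := by
    rw [hp₀, Complex.norm_real, Real.norm_of_nonneg (by linarith)]
    linarith
  have hconst : ∀ z, R < ‖z‖ → θ z = θ p₀ := by
    intro z hz
    refine const_of_int (isPreconnected_far R hRpos) hθc.continuousOn ?_ hz hp₀R
    intro w hw
    exact hint w (hgn w (hfar w hw))
  -- `θ` is constant outside `G`
  have hout : ∀ p, p ∉ G → θ p = θ p₀ := by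
    intro p hp
    by_contra hne
    obtain ⟨m, hm⟩ := hint p (hgn p hp)
    obtain ⟨n, hn⟩ := hint p₀ (hgn p₀ (hfar p₀ hp₀R))
    have hmn : m ≠ n := by
      rintro rfl
      exact hne (hm.trans hn.symm)
    set U : Set ℂ := {z | |θ z - θ p| < 1 / 2} with hU
    have hUo : IsOpen U := isOpen_lt (hθc.sub continuous_const).abs continuous_const
    have hUb : Bornology.IsBounded U := by
      refine (isBounded_closedBall (x := (0 : ℂ)) (r := R)).subset ?_
      intro z hz
      rw [mem_closedBall, dist_zero_right]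
      by_contra hlt
      have h3 := hconst z (not_le.1 hlt)
      have h4 : |θ z - θ p| < 1 / 2 := hz
      rw [h3, hm, hn, abs_lt] at h4
      have h5 : ((n - m : ℤ) : ℝ) < 1 := by push_cast; linarith [h4.2]
      have h6 : (-1 : ℝ) < ((n - m : ℤ) : ℝ) := by push_cast; linarith [h4.1]
      have h7 : n - m < 1 := by exact_mod_cast h5
      have h8 : -1 < n - m := by exact_mod_cast h6
      exact hmn (by omega)
    have hUf : frontier U ⊆ G := by
      intro z hz
      have h3 : |θ z - θ p| = 1 / 2 :=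
        (frontier_lt_subset_eq (hθc.sub continuous_const).abs continuous_const) hz
      by_contra hzG
      obtain ⟨k, hk⟩ := hint z (hgn z hzG)
      rw [hk, hm] at h3
      rcases abs_eq (by norm_num : (0 : ℝ) ≤ 1 / 2) |>.1 h3 with h4 | h4
      · have h5 : (2 : ℝ) * k = 2 * m + 1 := by linarith
        have h6 : (2 : ℤ) * k = 2 * m + 1 := by exact_mod_cast h5
        omega
      · have h5 : (2 : ℝ) * k + 1 = 2 * m := by linarith
        have h6 : (2 : ℤ) * k + 1 = 2 * m := by exact_mod_cast h5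
        omega
    have hpU : p ∈ U := by
      show |θ p - θ p| < 1 / 2
      simp
    exact hp (hole U hUo hUb hUf hpU)
  -- the separation
  set w : ℂ → ℝ := fun z => φ z - θ z + θ p₀ with hw
  have hwc : Continuous w := (hφc.sub hθc).add continuous_const
  have hw1 : ∀ z ∈ K₁, w z = 1 := by
    intro z hz
    have h3 : φ z = 1 := hφ1.self_of_nhdsSet z hz
    simp only [hw]
    rw [h3, hout z fun h => Set.disjoint_left.1 hG1 h hz]
    ring
  have hw2 : ∀ z ∈ K₂, w z = 0 := by
    intro z hz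
    have h3 : φ z = 0 := hφ2.self_of_nhdsSet z hz
    simp only [hw]
    rw [h3, hout z fun h => Set.disjoint_left.1 hG2 h hz]
    ring
  have hw3 : ∀ z ∈ K₁ ∪ K₂ ∪ G, w z ≠ 1 / 2 := by
    rintro z ((hz | hz) | hz)
    · rw [hw1 z hz]; norm_num
    · rw [hw2 z hz]; norm_num
    · intro h3
      obtain ⟨n, hn⟩ := hint p₀ (hgn p₀ (hfar p₀ hp₀R))
      have h4 : Complex.exp (2 * Real.pi * Complex.I * (φ z : ℝ)) =
          Complex.exp (2 * Real.pi * Complex.I * (θ z : ℝ)) := by
        rw [← hfθ z, hexp z, hgG z hz]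
      obtain ⟨k, hk⟩ := Complex.exp_eq_exp_iff_exists_int.1 h4
      have hpi : (2 * Real.pi * Complex.I : ℂ) ≠ 0 := Complex.two_pi_I_ne_zero
      have h5 : (2 * Real.pi * Complex.I : ℂ) * (φ z : ℝ) =
          2 * Real.pi * Complex.I * ((θ z + k : ℝ) : ℂ) := by
        rw [hk]; push_cast; ring
      have h6 : φ z = θ z + k := by exact_mod_cast mul_left_cancel₀ hpi h5
      simp only [hw] at h3
      rw [h6, hn] at h3
      have h7 : (2 : ℝ) * (k + n) = 1 := by linarith
      have h8 : (2 : ℤ) * (k + n) = 1 := by exact_mod_cast h7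
      omega
  refine ⟨(K₁ ∪ K₂ ∪ G) ∩ {z | 1 / 2 ≤ w z}, (K₁ ∪ K₂ ∪ G) ∩ {z | w z ≤ 1 / 2},
    hcl.inter (isClosed_le continuous_const hwc), hcl.inter (isClosed_le hwc continuous_const),
    ?_, ?_, ?_, ?_⟩
  · rw [Set.disjoint_left]
    rintro z ⟨hz, hz1⟩ ⟨_, hz2⟩
    exact hw3 z hz (le_antisymm hz2 hz1)
  · intro z hz
    refine ⟨Or.inl (Or.inl hz), ?_⟩
    show 1 / 2 ≤ w z
    rw [hw1 z hz]; norm_num
  · intro z hz
    refine ⟨Or.inl (Or.inr hz), ?_⟩
    show w z ≤ 1 / 2
    rw [hw2 z hz]; norm_num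
  · ext z
    constructor
    · rintro (⟨h, _⟩ | ⟨h, _⟩) <;> exact h
    · intro h
      rcases le_total (1 / 2) (w z) with h3 | h3
      · exact Or.inl ⟨h, h3⟩
      · exact Or.inr ⟨h, h3⟩

end Pool.Agent.R283.Hull
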