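import Mathlib

/-!
# A Riesz decomposition by area integrals

If the spectrum of an element `a` of a complex Banach algebra is the disjoint union of two nonempty
closed sets, there are nonzero elements `e₁, e₂` commuting with `a` with `e₁ * e₂ = 0`.
The elements are `∫ (∂̄χ)(z) • (z - a)⁻¹` for smooth cut-off functions `χ`.
-/

set_option autoImplicit false
open MeasureTheory Set Filter Topology Metric
open scoped Manifold ContDiff

namespace Pool.Agent.R283.Riesz

/-- Twice the `∂̄`-derivative. -/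
noncomputable def dbar (h : ℂ → ℂ) (z : ℂ) : ℂ :=
  fderiv ℝ h z 1 + Complex.I * fderiv ℝ h z Complex.I

section basic

variable {X : Type*} [NormedAddCommGroup X] [NormedSpace ℂ X]

omit [NormedSpace ℂ X] in
lemma integrable_of_compact {K : Set ℂ} (hK : IsCompact K) {f : ℂ → X}
    (hf : ContinuousOn f K) (hs : ∀ z, z ∉ K → f z = 0) : Integrable f := by
  have h1 : IntegrableOn f K := hf.integrableOn_compact hK
  refine (integrableOn_iff_integrable_of_support_subset ?_).1 h1
  intro z hz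
  by_contra hzK
  exact hz (hs z hzK)

lemma continuous_dbar {χ : ℂ → ℂ} (hχ : ContDiff ℝ 1 χ) : Continuous (dbar χ) := by
  have h : Continuous (fderiv ℝ χ) := hχ.continuous_fderiv (by norm_num)
  have h1 : Continuous fun z => fderiv ℝ χ z 1 := h.clm_apply continuous_const
  have h2 : Continuous fun z => fderiv ℝ χ z Complex.I := h.clm_apply continuous_const
  exact h1.add (continuous_const.mul h2)

lemma dbar_eq_zero_of_notMem {χ : ℂ → ℂ} {z : ℂ} (hz : z ∉ tsupport χ) : dbar χ z = 0 := by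
  have h : fderiv ℝ χ z = 0 := by
    have := notMem_tsupport_iff_eventuallyEq.1 hz
    rw [this.fderiv_eq]
    simp
  simp [dbar, h]

lemma dbar_eq_zero_of_eventually_const {χ : ℂ → ℂ} {z c : ℂ} (hz : χ =ᶠ[𝓝 z] fun _ => c) :
    dbar χ z = 0 := by
  simp [dbar, hz.fderiv_eq]

variable [CompleteSpace X]

/-- Integration by parts: `∫ (∂̄χ) F = 0` if `F` is holomorphic near the support of `χ`. -/
theorem integral_dbar_smul_eq_zero {χ : ℂ → ℂ} (hχ : ContDiff ℝ 1 χ) (hc : HasCompactSupport χ)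
    {U : Set ℂ} (hU : IsOpen U) (hsub : tsupport χ ⊆ U) {F : ℂ → X}
    (hF : DifferentiableOn ℂ F U) : ∫ z, dbar χ z • F z = 0 := by
  have hK : IsCompact (tsupport χ) := hc
  have hFd : ∀ z ∈ U, HasFDerivAt (𝕜 := ℝ) F
      ((ContinuousLinearMap.toSpanSingleton ℂ (deriv F z)).restrictScalars ℝ) z := by
    intro z hz
    have h1 : HasDerivAt F (deriv F z) z := ((hF z hz).differentiableAt (hU.mem_nhds hz)).hasDerivAt
    have h2 : HasFDerivAt F (ContinuousLinearMap.toSpanSingleton ℂ (deriv F z)) z := by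
      simpa using h1.hasFDerivAt
    exact h2.restrictScalars ℝ
  have hFv : ∀ z ∈ U, ∀ v : ℂ, fderiv ℝ F z v = v • deriv F z := by
    intro z hz v
    rw [(hFd z hz).fderiv]
    simp
  have hFc : ContinuousOn F (tsupport χ) := hF.continuousOn.mono hsub
  have hF'c : ContinuousOn (deriv F) (tsupport χ) := ((hF.deriv hU).continuousOn).mono hsub
  have hχ' : Continuous (fderiv ℝ χ) := hχ.continuous_fderiv (by norm_num)
  have hd0 : ∀ z, z ∉ tsupport χ → fderiv ℝ χ z = 0 := by
    intro z hz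
    have := notMem_tsupport_iff_eventuallyEq.1 hz
    rw [this.fderiv_eq]
    simp
  have hi1 : ∀ v : ℂ, Integrable fun z => fderiv ℝ χ z v • F z := by
    intro v
    refine integrable_of_compact hK ?_ ?_
    · exact (hχ'.clm_apply continuous_const).continuousOn.smul hFc
    · intro z hz
      simp [hd0 z hz]
  have hi2 : ∀ v : ℂ, Integrable fun z => χ z • fderiv ℝ F z v := by
    intro v
    refine integrable_of_compact hK ?_ ?_
    · have h1 : ContinuousOn (fun z => χ z • (v • deriv F z)) (tsupport χ) :=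
        hχ.continuous.continuousOn.smul (hF'c.const_smul v)
      refine h1.congr fun z hz => ?_
      show χ z • fderiv ℝ F z v = _
      rw [hFv z (hsub hz) v]
    · intro z hz
      rw [image_eq_zero_of_notMem_tsupport hz, zero_smul]
  have hi3 : Integrable fun z => χ z • F z := by
    refine integrable_of_compact hK (hχ.continuous.continuousOn.smul hFc) ?_
    intro z hz
    rw [image_eq_zero_of_notMem_tsupport hz, zero_smul]
  have key : ∀ v : ℂ, ∫ z, χ z • fderiv ℝ F z v = - ∫ z, fderiv ℝ χ z v • F z := by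
    intro v
    refine integral_smul_fderiv_eq_neg_fderiv_smul_of_integrable (hi1 v) (hi2 v) hi3 ?_ ?_
    · intro z _
      exact (hχ.differentiable (by norm_num)) z
    · intro z hz
      exact (hFd z (hsub hz)).differentiableAt
  have e1 : ∫ z, dbar χ z • F z =
      (∫ z, fderiv ℝ χ z 1 • F z) + Complex.I • ∫ z, fderiv ℝ χ z Complex.I • F z := by
    have hi1' : Integrable fun z => Complex.I • fderiv ℝ χ z Complex.I • F z :=
      (hi1 Complex.I).smul Complex.I
    rw [← integral_smul, ← integral_add (hi1 1) hi1']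
    refine integral_congr_ae (Eventually.of_forall fun z => ?_)
    simp only [dbar, add_smul, mul_smul]
  have e2 : ∀ v : ℂ, ∫ z, χ z • fderiv ℝ F z v = v • ∫ z, χ z • deriv F z := by
    intro v
    rw [← integral_smul]
    refine integral_congr_ae (Eventually.of_forall fun z => ?_)
    show χ z • fderiv ℝ F z v = v • χ z • deriv F z
    by_cases hz : z ∈ tsupport χ
    · rw [hFv z (hsub hz) v, smul_comm]
    · rw [image_eq_zero_of_notMem_tsupport hz, zero_smul, zero_smul, smul_zero]
  have e3 : ∀ v : ℂ, ∫ z, fderiv ℝ χ z v • F z = - (v • ∫ z, χ z • deriv F z) := by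
    intro v
    rw [← e2 v, key v, neg_neg]
  rw [e1, e3 1, e3 Complex.I, one_smul, smul_neg, smul_smul, Complex.I_mul_I, neg_one_smul, neg_neg,
    neg_add_cancel]

end basic

section normalisation

/-- `ψ(s) = 1` for `s ≤ 1`, `ψ(s) = 0` for `s ≥ 2`, `ψ` smooth and nonincreasing. -/
noncomputable def psi (s : ℝ) : ℝ := Real.smoothTransition (2 - s)

lemma contDiff_psi : ContDiff ℝ ∞ psi :=
  Real.smoothTransition.contDiff.comp (contDiff_const.sub contDiff_id)

lemma psi_one {s : ℝ} (h : s ≤ 1) : psi s = 1 :=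
  Real.smoothTransition.one_of_one_le (by linarith)

lemma psi_zero {s : ℝ} (h : 2 ≤ s) : psi s = 0 :=
  Real.smoothTransition.zero_of_nonpos (by linarith)

lemma antitone_psi : Antitone psi := fun _ _ h => Real.smoothTransition.monotone (by linarith)

/-- The radial cut-off function at `μ`. -/
noncomputable def rad (μ z : ℂ) : ℂ := ((psi (Complex.normSq (z - μ)) : ℝ) : ℂ)

lemma hasFDerivAt_normSq (w : ℂ) : HasFDerivAt (fun z : ℂ => Complex.normSq z)
    ((2 * w.re) • Complex.reCLM + (2 * w.im) • Complex.imCLM) w := by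
  have h1 : HasFDerivAt (fun z : ℂ => z.re) Complex.reCLM w := Complex.reCLM.hasFDerivAt
  have h2 : HasFDerivAt (fun z : ℂ => z.im) Complex.imCLM w := Complex.imCLM.hasFDerivAt
  have h3 := (h1.mul h1).add (h2.mul h2)
  have h4 : (fun z : ℂ => Complex.normSq z) = fun z => z.re * z.re + z.im * z.im := by
    ext z; exact Complex.normSq_apply z
  rw [h4]
  refine h3.congr_fderiv ?_
  ext v
  simp
  ring

lemma contDiff_rad (μ : ℂ) : ContDiff ℝ ∞ (rad μ) := by
  have h1 : ContDiff ℝ ∞ fun z : ℂ => Complex.normSq (z - μ) := by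
    have h4 : (fun z : ℂ => Complex.normSq (z - μ)) =
        fun z => Complex.reCLM (z - μ) * Complex.reCLM (z - μ) +
          Complex.imCLM (z - μ) * Complex.imCLM (z - μ) := by
      ext z; exact Complex.normSq_apply _
    rw [h4]
    have h5 : ContDiff ℝ ∞ fun z : ℂ => z - μ := contDiff_id.sub contDiff_const
    exact ((Complex.reCLM.contDiff.comp h5).mul (Complex.reCLM.contDiff.comp h5)).add
      ((Complex.imCLM.contDiff.comp h5).mul (Complex.imCLM.contDiff.comp h5))
  exact Complex.ofRealCLM.contDiff.comp (contDiff_psi.comp h1)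

lemma dbar_rad (μ z : ℂ) :
    dbar (rad μ) z = ((2 * deriv psi (Complex.normSq (z - μ)) : ℝ) : ℂ) * (z - μ) := by
  have hp : HasDerivAt psi (deriv psi (Complex.normSq (z - μ))) (Complex.normSq (z - μ)) :=
    ((contDiff_psi.differentiable (by simp)) _).hasDerivAt
  have h1 : HasFDerivAt (fun z : ℂ => Complex.normSq (z - μ))
      ((2 * (z - μ).re) • Complex.reCLM + (2 * (z - μ).im) • Complex.imCLM) z := by
    have h5 : HasFDerivAt (fun z : ℂ => z - μ) (ContinuousLinearMap.id ℝ ℂ) z :=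
      (hasFDerivAt_id z).sub_const μ
    have h6 := (hasFDerivAt_normSq (z - μ)).comp z h5
    exact h6.congr_fderiv (by ext; simp)
  have h2 := hp.comp_hasFDerivAt z h1
  have h3 : HasFDerivAt (rad μ) (Complex.ofRealCLM.comp
      (deriv psi (Complex.normSq (z - μ)) •
        ((2 * (z - μ).re) • Complex.reCLM + (2 * (z - μ).im) • Complex.imCLM))) z :=
    Complex.ofRealCLM.hasFDerivAt.comp z h2
  rw [dbar, h3.fderiv]
  apply Complex.ext
  · simp
    ring
  · simp
    ring

lemma hasCompactSupport_rad (μ : ℂ) : HasCompactSupport (rad μ) := by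
  refine HasCompactSupport.intro (isCompact_closedBall μ 2) ?_
  intro z hz
  have h1 : 2 < ‖z - μ‖ := by
    simpa [dist_eq_norm] using hz
  have h2 : 2 ≤ Complex.normSq (z - μ) := by
    rw [Complex.normSq_eq_norm_sq]
    nlinarith
  simp [rad, psi_zero h2]

lemma rad_eventually (μ : ℂ) : rad μ =ᶠ[𝓝 μ] fun _ => 1 := by
  have : Metric.ball μ 1 ∈ 𝓝 μ := Metric.ball_mem_nhds μ one_pos
  filter_upwards [this] with z hz
  have h1 : ‖z - μ‖ < 1 := by simpa [dist_eq_norm] using hz
  have h2 : Complex.normSq (z - μ) ≤ 1 := by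
    rw [Complex.normSq_eq_norm_sq]
    have := norm_nonneg (z - μ)
    nlinarith
  simp [rad, psi_one h2]

lemma integral_rad_ne_zero (μ : ℂ) : ∫ z, dbar (rad μ) z * (z - μ)⁻¹ ≠ 0 := by
  have hcont : Continuous (deriv psi) := contDiff_psi.continuous_deriv (by simp)
  have hns : Continuous fun z : ℂ => Complex.normSq (z - μ) :=
    Complex.continuous_normSq.comp (continuous_id.sub continuous_const)
  have hder0 : ∀ s, s < 1 → deriv psi s = 0 := by
    intro s hs
    have : psi =ᶠ[𝓝 s] fun _ => 1 := by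
      filter_upwards [Iio_mem_nhds hs] with t ht
      exact psi_one (le_of_lt ht)
    rw [this.deriv_eq]
    simp
  have hder2 : ∀ s, 2 < s → deriv psi s = 0 := by
    intro s hs
    have : psi =ᶠ[𝓝 s] fun _ => 0 := by
      filter_upwards [Ioi_mem_nhds hs] with t ht
      exact psi_zero (le_of_lt ht)
    rw [this.deriv_eq]
    simp
  have e1 : ∀ z, dbar (rad μ) z * (z - μ)⁻¹ =
      ((2 * deriv psi (Complex.normSq (z - μ)) : ℝ) : ℂ) := by
    intro z
    rw [dbar_rad]
    by_cases h : z - μ = 0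
    · rw [h]
      simp [hder0 0 (by norm_num)]
    · rw [mul_assoc, mul_inv_cancel₀ h, mul_one]
  have e2 : ∫ z, dbar (rad μ) z * (z - μ)⁻¹ =
      ((∫ z, 2 * deriv psi (Complex.normSq (z - μ)) : ℝ) : ℂ) := by
    rw [← integral_complex_ofReal]
    exact integral_congr_ae (Eventually.of_forall e1)
  rw [e2, Ne, Complex.ofReal_eq_zero]
  have hpos : 0 < ∫ z : ℂ, -(2 * deriv psi (Complex.normSq (z - μ))) := by
    obtain ⟨s, hs, hs'⟩ : ∃ s ∈ Ioo (1 : ℝ) 2, deriv psi s = (psi 2 - psi 1) / (2 - 1) :=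
      exists_deriv_eq_slope psi (by norm_num) contDiff_psi.continuous.continuousOn
        (contDiff_psi.differentiable (by simp)).differentiableOn
    rw [psi_zero le_rfl, psi_one le_rfl] at hs'
    have hs0 : (0 : ℝ) ≤ s := by linarith [hs.1]
    refine Continuous.integral_pos_of_hasCompactSupport_nonneg_nonzero
      (x := μ + (Real.sqrt s : ℝ)) ?_ ?_ ?_ ?_
    · exact (continuous_const.mul (hcont.comp hns)).neg
    · refine HasCompactSupport.intro (isCompact_closedBall μ 2) ?_
      intro z hz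
      have h1 : 2 < ‖z - μ‖ := by
        simpa [dist_eq_norm] using hz
      have h2 : 2 < Complex.normSq (z - μ) := by
        rw [Complex.normSq_eq_norm_sq]
        nlinarith
      rw [hder2 _ h2]
      simp
    · intro z
      have : deriv psi (Complex.normSq (z - μ)) ≤ 0 := antitone_psi.deriv_nonpos
      simp only [Pi.zero_apply]
      linarith
    · have h1 : Complex.normSq (μ + (Real.sqrt s : ℝ) - μ) = s := by
        rw [add_sub_cancel_left, Complex.normSq_ofReal, Real.mul_self_sqrt hs0]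
      rw [h1, hs']
      norm_num
  rw [integral_neg] at hpos
  linarith

lemma integrable_dbar_smul {X : Type*} [NormedAddCommGroup X] [NormedSpace ℂ X] {χ : ℂ → ℂ}
    (hχ : ContDiff ℝ 1 χ) (hc : HasCompactSupport χ) {F : ℂ → X}
    (hF : ContinuousOn F (tsupport (dbar χ))) : Integrable fun z => dbar χ z • F z := by
  have hsub : tsupport (dbar χ) ⊆ tsupport χ := by
    refine closure_minimal ?_ (isClosed_tsupport χ)
    intro z hz
    by_contra h
    exact hz (dbar_eq_zero_of_notMem h)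
  have hK : IsCompact (tsupport (dbar χ)) := hc.isCompact.of_isClosed_subset (isClosed_tsupport _) hsub
  refine integrable_of_compact hK ((continuous_dbar hχ).continuousOn.smul hF) ?_
  intro z hz
  rw [image_eq_zero_of_notMem_tsupport hz, zero_smul]

lemma notMem_tsupport_dbar {χ : ℂ → ℂ} {μ c : ℂ} (h : χ =ᶠ[𝓝 μ] fun _ => c) :
    μ ∉ tsupport (dbar χ) := by
  rw [notMem_tsupport_iff_eventuallyEq]
  filter_upwards [h.eventuallyEq_nhds] with z hz
  exact dbar_eq_zero_of_eventually_const hz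

/-- The normalisation: the integral below is `-2π χ(μ)`, in particular it is not `0`. -/
theorem integral_dbar_div_ne_zero {χ : ℂ → ℂ} (hχ : ContDiff ℝ 1 χ) (hc : HasCompactSupport χ)
    {μ : ℂ} (h1 : χ =ᶠ[𝓝 μ] fun _ => 1) : ∫ z, dbar χ z * (z - μ)⁻¹ ≠ 0 := by
  have hr : ContDiff ℝ 1 (rad μ) := (contDiff_rad μ).of_le (by simp)
  have hd : ∀ z, dbar (fun z => χ z - rad μ z) z = dbar χ z - dbar (rad μ) z := by
    intro z
    have e1 : HasFDerivAt χ (fderiv ℝ χ z) z := ((hχ.differentiable (by norm_num)) z).hasFDerivAt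
    have e2 : HasFDerivAt (rad μ) (fderiv ℝ (rad μ) z) z :=
      ((hr.differentiable (by norm_num)) z).hasFDerivAt
    have e3 := (e1.sub e2).fderiv
    have e4 : (fun z => χ z - rad μ z) = χ - rad μ := rfl
    rw [dbar, e4, e3]
    simp only [dbar, sub_apply]
    ring
  have hinv : ContinuousOn (fun z : ℂ => (z - μ)⁻¹) {μ}ᶜ := by
    refine ContinuousOn.inv₀ (by fun_prop) ?_
    intro z hz
    exact sub_ne_zero.2 hz
  have hdiff : DifferentiableOn ℂ (fun z : ℂ => (z - μ)⁻¹) {μ}ᶜ := by
    intro z hz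
    have h5 : DifferentiableAt ℂ (fun w : ℂ => w - μ) z := differentiableAt_id.sub_const μ
    exact (h5.inv (sub_ne_zero.2 hz)).differentiableWithinAt
  have i1 : Integrable fun z => dbar χ z • (z - μ)⁻¹ := by
    refine integrable_dbar_smul hχ hc (hinv.mono ?_)
    intro z hz h
    rw [mem_singleton_iff] at h
    exact notMem_tsupport_dbar h1 (h ▸ hz)
  have i2 : Integrable fun z => dbar (rad μ) z • (z - μ)⁻¹ := by
    refine integrable_dbar_smul hr (hasCompactSupport_rad μ) (hinv.mono ?_)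
    intro z hz h
    rw [mem_singleton_iff] at h
    exact notMem_tsupport_dbar (rad_eventually μ) (h ▸ hz)
  have h0 : ∫ z, dbar (fun z => χ z - rad μ z) z • (z - μ)⁻¹ = 0 := by
    refine integral_dbar_smul_eq_zero (U := {μ}ᶜ) (hχ.sub hr) (hc.sub (hasCompactSupport_rad μ))
      isOpen_compl_singleton ?_ hdiff
    intro z hz h
    rw [mem_singleton_iff] at h
    subst h
    refine absurd hz ?_
    rw [notMem_tsupport_iff_eventuallyEq]
    filter_upwards [h1, rad_eventually z] with w hw hw'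
    simp [hw, hw']
  simp only [hd, sub_smul] at h0
  rw [integral_sub i1 i2, sub_eq_zero] at h0
  simp only [smul_eq_mul] at h0
  rw [h0]
  exact integral_rad_ne_zero μ

end normalisation

section algebra

variable {𝔸 : Type*} [NormedRing 𝔸] [NormedAlgebra ℂ 𝔸] [CompleteSpace 𝔸]

lemma resolvent_mul {a : 𝔸} {z : ℂ} (hz : z ∈ resolventSet ℂ a) :
    (algebraMap ℂ 𝔸 z - a) * resolvent a z = 1 ∧ resolvent a z * (algebraMap ℂ 𝔸 z - a) = 1 := by
  have h : IsUnit (algebraMap ℂ 𝔸 z - a) := hz
  exact ⟨Ring.mul_inverse_cancel _ h, Ring.inverse_mul_cancel _ h⟩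

lemma commute_resolvent (a : 𝔸) (z : ℂ) : Commute a (resolvent a z) := by
  by_cases hz : z ∈ resolventSet ℂ a
  · obtain ⟨h1, h2⟩ := resolvent_mul hz
    have h3 : Commute a (algebraMap ℂ 𝔸 z - a) :=
      ((Algebra.commute_algebraMap_right z a)).sub_right (Commute.refl a)
    have h4 : a * resolvent a z = resolvent a z * a := by
      calc a * resolvent a z = (resolvent a z * (algebraMap ℂ 𝔸 z - a)) * a * resolvent a z := by
            rw [h2, one_mul]
        _ = resolvent a z * (a * (algebraMap ℂ 𝔸 z - a)) * resolvent a z := by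
            rw [h3.eq]; noncomm_ring
        _ = resolvent a z * a * ((algebraMap ℂ 𝔸 z - a) * resolvent a z) := by noncomm_ring
        _ = resolvent a z * a := by rw [h1, mul_one]
    exact h4
  · have : resolvent a z = 0 := spectrum.resolvent_zero_of_mem_spectrum hz
    rw [this]
    exact Commute.zero_right a

lemma resolvent_identity {a : 𝔸} {z w : ℂ} (hz : z ∈ resolventSet ℂ a) (hw : w ∈ resolventSet ℂ a) :
    resolvent a z - resolvent a w = (w - z) • (resolvent a z * resolvent a w) := by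
  obtain ⟨_, h2⟩ := resolvent_mul hz
  obtain ⟨h3, _⟩ := resolvent_mul hw
  have h5 : algebraMap ℂ 𝔸 w - algebraMap ℂ 𝔸 z = (w - z) • (1 : 𝔸) := by
    rw [← map_sub, Algebra.algebraMap_eq_smul_one]
  calc resolvent a z - resolvent a w
      = resolvent a z * ((algebraMap ℂ 𝔸 w - a) * resolvent a w) -
        (resolvent a z * (algebraMap ℂ 𝔸 z - a)) * resolvent a w := by
          rw [h2, h3, mul_one, one_mul]
    _ = resolvent a z * (algebraMap ℂ 𝔸 w - algebraMap ℂ 𝔸 z) * resolvent a w := by noncomm_ring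
    _ = (w - z) • (resolvent a z * resolvent a w) := by
          rw [h5, mul_smul_comm, mul_one, smul_mul_assoc]

lemma continuousOn_resolvent (a : 𝔸) : ContinuousOn (resolvent a) (resolventSet ℂ a) := by
  intro z hz
  exact (spectrum.hasDerivAt_resolvent_const_left hz).continuousAt.continuousWithinAt

/-- A pair of cut-off functions. -/
theorem exists_cutoffs {A B : Set ℂ} (hA : IsCompact A) (hB : IsCompact B) (hAB : Disjoint A B) :
    ∃ χ₁ χ₂ : ℂ → ℂ, ContDiff ℝ 1 χ₁ ∧ ContDiff ℝ 1 χ₂ ∧ HasCompactSupport χ₁ ∧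
      HasCompactSupport χ₂ ∧ Disjoint (tsupport χ₁) (tsupport χ₂) ∧
      (∀ z ∈ A, χ₁ =ᶠ[𝓝 z] fun _ => 1) ∧ (∀ z ∈ B, χ₂ =ᶠ[𝓝 z] fun _ => 1) := by
  have one : ∀ A' U : Set ℂ, IsClosed A' → IsOpen U → A' ⊆ U → Bornology.IsBounded U →
      ∃ χ : ℂ → ℂ, ContDiff ℝ 1 χ ∧ HasCompactSupport χ ∧ tsupport χ ⊆ U ∧
        ∀ z ∈ A', χ =ᶠ[𝓝 z] fun _ => 1 := by
    intro A' U hA' hU hAU hbd
    obtain ⟨φ, h0, h1, _⟩ := exists_contMDiffMap_zero_one_nhds_of_isClosed (n := 1) 𝓘(ℝ, ℂ)
      hU.isClosed_compl hA' (by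
        rw [Set.disjoint_left]
        intro z hz hz'
        exact hz (hAU hz'))
    have hsupp : tsupport (fun z => ((φ z : ℝ) : ℂ)) ⊆ U := by
      intro z hz
      by_contra hzU
      refine absurd hz ?_
      rw [notMem_tsupport_iff_eventuallyEq]
      have := h0.filter_mono (nhds_le_nhdsSet (show z ∈ Uᶜ from hzU))
      filter_upwards [this] with w hw
      simp [hw]
    refine ⟨fun z => ((φ z : ℝ) : ℂ), ?_, ?_, hsupp, ?_⟩
    · exact Complex.ofRealCLM.contDiff.comp φ.contMDiff.contDiff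
    · exact Metric.isCompact_of_isClosed_isBounded (isClosed_tsupport _) (hbd.subset hsupp)
    · intro z hz
      have := h1.filter_mono (nhds_le_nhdsSet hz)
      filter_upwards [this] with w hw
      simp [hw]
  obtain ⟨U₀, V₀, hU₀, hV₀, hAU, hBV, hUV⟩ := SeparatedNhds.of_isCompact_isCompact hA hB hAB
  obtain ⟨R, hR⟩ := (hA.union hB).isBounded.subset_ball 0
  have hbU : Bornology.IsBounded (U₀ ∩ ball (0 : ℂ) R) := isBounded_ball.subset inter_subset_right
  have hbV : Bornology.IsBounded (V₀ ∩ ball (0 : ℂ) R) := isBounded_ball.subset inter_subset_right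
  obtain ⟨χ₁, c1, k1, s1, o1⟩ := one A (U₀ ∩ ball (0 : ℂ) R) hA.isClosed (hU₀.inter isOpen_ball)
    (subset_inter hAU (subset_union_left.trans hR)) hbU
  obtain ⟨χ₂, c2, k2, s2, o2⟩ := one B (V₀ ∩ ball (0 : ℂ) R) hB.isClosed (hV₀.inter isOpen_ball)
    (subset_inter hBV (subset_union_right.trans hR)) hbV
  exact ⟨χ₁, χ₂, c1, c2, k1, k2,
    hUV.mono (s1.trans inter_subset_left) (s2.trans inter_subset_left), o1, o2⟩

/-- The element `∫ (∂̄χ)(z) • (z - a)⁻¹`. -/
noncomputable def elt (a : 𝔸) (χ : ℂ → ℂ) : 𝔸 := ∫ z, dbar χ z • resolvent a z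

lemma tsupport_dbar_subset {χ : ℂ → ℂ} : tsupport (dbar χ) ⊆ tsupport χ := by
  refine closure_minimal ?_ (isClosed_tsupport χ)
  intro z hz
  by_contra h
  exact hz (dbar_eq_zero_of_notMem h)

lemma integrable_elt {a : 𝔸} {χ : ℂ → ℂ} (hχ : ContDiff ℝ 1 χ) (hc : HasCompactSupport χ)
    (h : tsupport (dbar χ) ⊆ resolventSet ℂ a) : Integrable fun z => dbar χ z • resolvent a z :=
  integrable_dbar_smul hχ hc ((continuousOn_resolvent a).mono h)

lemma commute_elt {a : 𝔸} {χ : ℂ → ℂ} (hχ : ContDiff ℝ 1 χ) (hc : HasCompactSupport χ)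
    (h : tsupport (dbar χ) ⊆ resolventSet ℂ a) : Commute (elt a χ) a := by
  have hi := integrable_elt hχ hc h
  have e1 : a * elt a χ = ∫ z, a * (dbar χ z • resolvent a z) :=
    ((ContinuousLinearMap.mul ℂ 𝔸 a).integral_comp_comm hi).symm
  have e2 : elt a χ * a = ∫ z, (dbar χ z • resolvent a z) * a :=
    (((ContinuousLinearMap.mul ℂ 𝔸).flip a).integral_comp_comm hi).symm
  have : a * elt a χ = elt a χ * a := by
    rw [e1, e2]
    refine integral_congr_ae (Eventually.of_forall fun z => ?_)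
    show a * (dbar χ z • resolvent a z) = (dbar χ z • resolvent a z) * a
    rw [mul_smul_comm, smul_mul_assoc, (commute_resolvent a z).eq]
  exact this.symm

lemma elt_ne_zero {a : 𝔸} {χ : ℂ → ℂ} (hχ : ContDiff ℝ 1 χ) (hc : HasCompactSupport χ)
    (h : tsupport (dbar χ) ⊆ resolventSet ℂ a) {μ : ℂ} (hμ : μ ∈ spectrum ℂ a)
    (h1 : χ =ᶠ[𝓝 μ] fun _ => 1) : elt a χ ≠ 0 := by
  intro h0
  set c : ℂ := ∫ z, dbar χ z * (z - μ)⁻¹ with hcdef
  have hc0 : c ≠ 0 := integral_dbar_div_ne_zero hχ hc h1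
  have hμn : μ ∉ tsupport (dbar χ) := notMem_tsupport_dbar h1
  have hinv : ContinuousOn (fun z : ℂ => (z - μ)⁻¹) (tsupport (dbar χ)) := by
    refine ContinuousOn.inv₀ (by fun_prop) ?_
    intro z hz h2
    rw [sub_eq_zero] at h2
    exact hμn (h2 ▸ hz)
  have hint1 : Integrable fun z => dbar χ z • ((z - μ)⁻¹ • resolvent a z) :=
    integrable_dbar_smul hχ hc (hinv.smul ((continuousOn_resolvent a).mono h))
  have hint2 : Integrable fun z => dbar χ z • ((z - μ)⁻¹ • (1 : 𝔸)) :=
    integrable_dbar_smul hχ hc (hinv.smul continuousOn_const)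
  have hint3 := integrable_elt hχ hc h
  have key1 : ∀ z, (algebraMap ℂ 𝔸 μ - a) * (dbar χ z • ((z - μ)⁻¹ • resolvent a z)) =
      dbar χ z • ((z - μ)⁻¹ • (1 : 𝔸)) - dbar χ z • resolvent a z := by
    intro z
    by_cases hz : z ∈ tsupport (dbar χ)
    · have hzr := resolvent_mul (h hz)
      have hne : z - μ ≠ 0 := by
        intro h2
        rw [sub_eq_zero] at h2
        exact hμn (h2 ▸ hz)
      have e1 : (algebraMap ℂ 𝔸 μ - a) * resolvent a z = 1 - (z - μ) • resolvent a z := by
        have e2 : algebraMap ℂ 𝔸 μ - a = (algebraMap ℂ 𝔸 z - a) - (z - μ) • (1 : 𝔸) := by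
          rw [← Algebra.algebraMap_eq_smul_one, map_sub]; abel
        rw [e2, sub_mul, hzr.1, smul_mul_assoc, one_mul]
      rw [mul_smul_comm, mul_smul_comm, e1, smul_sub, smul_smul, inv_mul_cancel₀ hne, one_smul,
        smul_sub]
    · rw [image_eq_zero_of_notMem_tsupport hz]
      simp
  have key2 : ∀ z, (dbar χ z • ((z - μ)⁻¹ • resolvent a z)) * (algebraMap ℂ 𝔸 μ - a) =
      dbar χ z • ((z - μ)⁻¹ • (1 : 𝔸)) - dbar χ z • resolvent a z := by
    intro z
    rw [← key1 z]
    have h3 : Commute (resolvent a z) (algebraMap ℂ 𝔸 μ - a) :=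
      (Algebra.commute_algebraMap_right μ (resolvent a z)).sub_right (commute_resolvent a z).symm
    rw [smul_mul_assoc, smul_mul_assoc, h3.eq, mul_smul_comm, mul_smul_comm]
  set s : 𝔸 := ∫ z, dbar χ z • ((z - μ)⁻¹ • resolvent a z) with hs
  have hval : ∫ z, (dbar χ z • ((z - μ)⁻¹ • (1 : 𝔸)) - dbar χ z • resolvent a z) = c • (1 : 𝔸) := by
    rw [integral_sub hint2 hint3]
    have : (∫ z, dbar χ z • resolvent a z) = 0 := h0
    rw [this, sub_zero, hcdef]
    rw [← integral_smul_const]
    refine integral_congr_ae (Eventually.of_forall fun z => ?_)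
    show dbar χ z • ((z - μ)⁻¹ • (1 : 𝔸)) = (dbar χ z * (z - μ)⁻¹) • (1 : 𝔸)
    rw [mul_smul]
  have e1 : (algebraMap ℂ 𝔸 μ - a) * s = c • (1 : 𝔸) := by
    rw [← hval]
    rw [← (integral_congr_ae (Eventually.of_forall key1))]
    exact ((ContinuousLinearMap.mul ℂ 𝔸 (algebraMap ℂ 𝔸 μ - a)).integral_comp_comm hint1).symm
  have e2 : s * (algebraMap ℂ 𝔸 μ - a) = c • (1 : 𝔸) := by
    rw [← hval]
    rw [← (integral_congr_ae (Eventually.of_forall key2))]
    exact (((ContinuousLinearMap.mul ℂ 𝔸).flip (algebraMap ℂ 𝔸 μ - a)).integral_comp_comm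
      hint1).symm
  refine hμ ?_
  refine spectrum.mem_resolventSet_of_left_right_inverse (b := c⁻¹ • s) (c := c⁻¹ • s) ?_ ?_
  · rw [mul_smul_comm, e1, smul_smul, inv_mul_cancel₀ hc0, one_smul]
  · rw [smul_mul_assoc, e2, smul_smul, inv_mul_cancel₀ hc0, one_smul]

lemma elt_mul_elt {a : 𝔸} {χ₁ χ₂ : ℂ → ℂ} (h1 : ContDiff ℝ 1 χ₁) (h2 : ContDiff ℝ 1 χ₂)
    (c1 : HasCompactSupport χ₁) (c2 : HasCompactSupport χ₂)
    (s1 : tsupport (dbar χ₁) ⊆ resolventSet ℂ a) (s2 : tsupport (dbar χ₂) ⊆ resolventSet ℂ a)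
    (hd : Disjoint (tsupport χ₁) (tsupport χ₂)) : elt a χ₁ * elt a χ₂ = 0 := by
  have i1 := integrable_elt h1 c1 s1
  have i2 := integrable_elt h2 c2 s2
  set S₁ := tsupport (dbar χ₁) with hS₁
  set S₂ := tsupport (dbar χ₂) with hS₂
  have k1 : IsCompact S₁ := c1.isCompact.of_isClosed_subset (isClosed_tsupport _) tsupport_dbar_subset
  have k2 : IsCompact S₂ := c2.isCompact.of_isClosed_subset (isClosed_tsupport _) tsupport_dbar_subset
  have hne : ∀ z ∈ tsupport χ₁, ∀ w ∈ tsupport χ₂, w - z ≠ 0 := by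
    intro z hz w hw h
    rw [sub_eq_zero] at h
    exact Set.disjoint_left.1 hd hz (h ▸ hw)
  have inv_diff : ∀ z : ℂ, DifferentiableOn ℂ (fun w : ℂ => (w - z)⁻¹) {z}ᶜ := by
    intro z w hw
    have h5 : DifferentiableAt ℂ (fun w : ℂ => w - z) w := differentiableAt_id.sub_const z
    exact (h5.inv (sub_ne_zero.2 hw)).differentiableWithinAt
  have inv_diff' : ∀ w : ℂ, DifferentiableOn ℂ (fun z : ℂ => (w - z)⁻¹) {w}ᶜ := by
    intro w z hz
    have h5 : DifferentiableAt ℂ (fun z : ℂ => w - z) z := (differentiableAt_const w).sub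
      differentiableAt_id
    exact (h5.inv (sub_ne_zero.2 (Ne.symm hz))).differentiableWithinAt
  have z1 : ∀ z ∈ tsupport χ₁, ∫ w, dbar χ₂ w • (w - z)⁻¹ = 0 := by
    intro z hz
    refine integral_dbar_smul_eq_zero h2 c2 isOpen_compl_singleton ?_ (inv_diff z)
    intro w hw h
    rw [mem_singleton_iff] at h
    exact Set.disjoint_left.1 hd hz (h ▸ hw)
  have z2 : ∀ w ∈ tsupport χ₂, ∫ z, dbar χ₁ z • (w - z)⁻¹ = 0 := by
    intro w hw
    refine integral_dbar_smul_eq_zero h1 c1 isOpen_compl_singleton ?_ (inv_diff' w)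
    intro z hz h
    rw [mem_singleton_iff] at h
    exact Set.disjoint_left.1 hd hz (h ▸ hw)
  have hR := continuousOn_resolvent a
  have hd1 := continuous_dbar h1
  have hd2 := continuous_dbar h2
  -- integrability on the product
  have hprod : Integrable (Function.uncurry fun z w : ℂ =>
      (dbar χ₁ z * dbar χ₂ w * (w - z)⁻¹) • resolvent a w) (volume.prod volume) := by
    have hK : IsCompact (S₁ ×ˢ S₂) := k1.prod k2
    have hcont : ContinuousOn (Function.uncurry fun z w : ℂ =>
        (dbar χ₁ z * dbar χ₂ w * (w - z)⁻¹) • resolvent a w) (S₁ ×ˢ S₂) := by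
      have a1 : ContinuousOn (fun p : ℂ × ℂ => dbar χ₁ p.1) (S₁ ×ˢ S₂) :=
        (hd1.comp continuous_fst).continuousOn
      have a2 : ContinuousOn (fun p : ℂ × ℂ => dbar χ₂ p.2) (S₁ ×ˢ S₂) :=
        (hd2.comp continuous_snd).continuousOn
      have a3 : ContinuousOn (fun p : ℂ × ℂ => (p.2 - p.1)⁻¹) (S₁ ×ˢ S₂) := by
        refine ContinuousOn.inv₀ (by fun_prop) ?_
        rintro ⟨z, w⟩ ⟨hz, hw⟩
        exact hne z (tsupport_dbar_subset hz) w (tsupport_dbar_subset hw)
      have a4 : ContinuousOn (fun p : ℂ × ℂ => resolvent a p.2) (S₁ ×ˢ S₂) :=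
        (hR.mono s2).comp continuous_snd.continuousOn (fun p hp => hp.2)
      exact ((a1.mul a2).mul a3).smul a4
    have hint : IntegrableOn (Function.uncurry fun z w : ℂ =>
        (dbar χ₁ z * dbar χ₂ w * (w - z)⁻¹) • resolvent a w) (S₁ ×ˢ S₂) (volume.prod volume) :=
      hcont.integrableOn_compact hK
    refine (integrableOn_iff_integrable_of_support_subset ?_).1 hint
    rintro ⟨z, w⟩ hzw
    by_contra hn
    refine hzw ?_
    show (dbar χ₁ z * dbar χ₂ w * (w - z)⁻¹) • resolvent a w = 0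
    by_cases hz : z ∈ S₁
    · have hw : w ∉ S₂ := fun hw => hn ⟨hz, hw⟩
      rw [image_eq_zero_of_notMem_tsupport (f := dbar χ₂) hw]
      simp
    · rw [image_eq_zero_of_notMem_tsupport (f := dbar χ₁) hz]
      simp
  have swap := integral_integral_swap hprod
  have rhs0 : ∫ w, ∫ z, (dbar χ₁ z * dbar χ₂ w * (w - z)⁻¹) • resolvent a w = 0 := by
    rw [← integral_zero ℂ 𝔸 (μ := (volume : Measure ℂ))]
    refine integral_congr_ae (Eventually.of_forall fun w => ?_)
    show ∫ z, (dbar χ₁ z * dbar χ₂ w * (w - z)⁻¹) • resolvent a w = 0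
    by_cases hw : w ∈ S₂
    · have e : ∀ z, (dbar χ₁ z * dbar χ₂ w * (w - z)⁻¹) • resolvent a w =
          (dbar χ₁ z • (w - z)⁻¹) • (dbar χ₂ w • resolvent a w) := by
        intro z
        rw [smul_smul, smul_eq_mul]
        congr 1
        ring
      simp only [e]
      rw [integral_smul_const, z2 w (tsupport_dbar_subset hw), zero_smul]
    · rw [image_eq_zero_of_notMem_tsupport (f := dbar χ₂) hw]
      simp
  rw [rhs0] at swap
  -- the product of the two elements
  have e1 : elt a χ₁ * elt a χ₂ = ∫ z, (dbar χ₁ z • resolvent a z) * elt a χ₂ :=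
    (((ContinuousLinearMap.mul ℂ 𝔸).flip (elt a χ₂)).integral_comp_comm i1).symm
  have e2 : ∀ z, (dbar χ₁ z • resolvent a z) * elt a χ₂ =
      - ∫ w, (dbar χ₁ z * dbar χ₂ w * (w - z)⁻¹) • resolvent a w := by
    intro z
    by_cases hz : z ∈ S₁
    · have f1 : (dbar χ₁ z • resolvent a z) * elt a χ₂ =
          ∫ w, (dbar χ₁ z • resolvent a z) * (dbar χ₂ w • resolvent a w) :=
        ((ContinuousLinearMap.mul ℂ 𝔸 (dbar χ₁ z • resolvent a z)).integral_comp_comm i2).symm
      have f2 : ∀ w, (dbar χ₁ z • resolvent a z) * (dbar χ₂ w • resolvent a w) =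
          (dbar χ₂ w • (w - z)⁻¹) • (dbar χ₁ z • resolvent a z) -
            (dbar χ₁ z * dbar χ₂ w * (w - z)⁻¹) • resolvent a w := by
        intro w
        by_cases hw : w ∈ S₂
        · have hn := hne z (tsupport_dbar_subset hz) w (tsupport_dbar_subset hw)
          have hri := resolvent_identity (s1 hz) (s2 hw)
          have hmul : resolvent a z * resolvent a w =
              (w - z)⁻¹ • (resolvent a z - resolvent a w) := by
            rw [hri, smul_smul, inv_mul_cancel₀ hn, one_smul]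
          rw [smul_mul_smul_comm, hmul, smul_sub, smul_sub, smul_smul, smul_smul, smul_smul,
            smul_eq_mul]
          congr 2
          ring
        · rw [image_eq_zero_of_notMem_tsupport (f := dbar χ₂) hw]
          simp
      have g1 : Integrable fun w => (dbar χ₂ w • (w - z)⁻¹) • (dbar χ₁ z • resolvent a z) := by
        have : Integrable fun w => dbar χ₂ w • (w - z)⁻¹ := by
          refine integrable_dbar_smul h2 c2 ?_
          refine ContinuousOn.inv₀ (by fun_prop) ?_
          intro w hw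
          exact hne z (tsupport_dbar_subset hz) w (tsupport_dbar_subset hw)
        exact this.smul_const _
      have g2 : Integrable fun w => (dbar χ₁ z * dbar χ₂ w * (w - z)⁻¹) • resolvent a w := by
        have : Integrable fun w => dbar χ₂ w • ((dbar χ₁ z * (w - z)⁻¹) • resolvent a w) := by
          refine integrable_dbar_smul h2 c2 ?_
          refine ContinuousOn.smul (continuousOn_const.mul (ContinuousOn.inv₀ (by fun_prop) ?_))
            (hR.mono s2)
          intro w hw
          exact hne z (tsupport_dbar_subset hz) w (tsupport_dbar_subset hw)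
        refine this.congr (Eventually.of_forall fun w => ?_)
        show dbar χ₂ w • ((dbar χ₁ z * (w - z)⁻¹) • resolvent a w) = _
        rw [smul_smul]
        congr 1
        ring
      rw [f1]
      simp only [f2]
      rw [integral_sub g1 g2, integral_smul_const, z1 z (tsupport_dbar_subset hz), zero_smul,
        zero_sub]
    · rw [image_eq_zero_of_notMem_tsupport (f := dbar χ₁) hz]
      simp
  rw [e1]
  simp only [e2]
  rw [integral_neg, swap, neg_zero]

/-- If the spectrum of `a` is the disjoint union of two nonempty closed sets, there are nonzero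
elements `e₁, e₂` commuting with `a` with `e₁ * e₂ = 0`. -/
theorem exists_split (a : 𝔸) {A B : Set ℂ} (hA : IsClosed A) (hB : IsClosed B)
    (hAB : Disjoint A B) (hσ : spectrum ℂ a = A ∪ B) (hAne : A.Nonempty) (hBne : B.Nonempty) :
    ∃ e₁ e₂ : 𝔸, e₁ ≠ 0 ∧ e₂ ≠ 0 ∧ e₁ * e₂ = 0 ∧ Commute e₁ a ∧ Commute e₂ a := by
  have hcomp : IsCompact (spectrum ℂ a) := spectrum.isCompact a
  have hAc : IsCompact A := hcomp.of_isClosed_subset hA (hσ ▸ subset_union_left)
  have hBc : IsCompact B := hcomp.of_isClosed_subset hB (hσ ▸ subset_union_right)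
  obtain ⟨χ₁, χ₂, c1, c2, k1, k2, hd, o1, o2⟩ := exists_cutoffs hAc hBc hAB
  have s1 : tsupport (dbar χ₁) ⊆ resolventSet ℂ a := by
    intro z hz
    by_contra hn
    have hz' : z ∈ spectrum ℂ a := hn
    rw [hσ] at hz'
    rcases hz' with hz' | hz'
    · exact notMem_tsupport_dbar (o1 z hz') hz
    · refine Set.disjoint_left.1 hd (tsupport_dbar_subset hz) ?_
      refine subset_tsupport _ ?_
      rw [Function.mem_support, (o2 z hz').eq_of_nhds]
      exact one_ne_zero
  have s2 : tsupport (dbar χ₂) ⊆ resolventSet ℂ a := by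
    intro z hz
    by_contra hn
    have hz' : z ∈ spectrum ℂ a := hn
    rw [hσ] at hz'
    rcases hz' with hz' | hz'
    · refine Set.disjoint_left.1 hd ?_ (tsupport_dbar_subset hz)
      refine subset_tsupport _ ?_
      rw [Function.mem_support, (o1 z hz').eq_of_nhds]
      exact one_ne_zero
    · exact notMem_tsupport_dbar (o2 z hz') hz
  obtain ⟨μ₁, hμ₁⟩ := hAne
  obtain ⟨μ₂, hμ₂⟩ := hBne
  exact ⟨elt a χ₁, elt a χ₂,
    elt_ne_zero c1 k1 s1 (hσ ▸ Or.inl hμ₁) (o1 μ₁ hμ₁),
    elt_ne_zero c2 k2 s2 (hσ ▸ Or.inr hμ₂) (o2 μ₂ hμ₂),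
    elt_mul_elt c1 c2 k1 k2 s1 s2 hd, commute_elt c1 k1 s1, commute_elt c2 k2 s2⟩

end algebra

end Pool.Agent.R283.Riesz
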