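import Mathlib
import Pool.Agent.R283.Riesz
import Pool.Agent.R283.Hull

/-!
# The approximate point spectrum of a cyclic operator

For a bounded operator `T` on a complex Banach space with cyclic vector `x`, the set of `z` such
that `T - z` is bounded below and not onto has no holes (maximum principle).  If moreover every
nontrivial closed invariant subspace has finite codimension, the approximate point spectrum of `T`
is connected.
-/

set_option autoImplicit false
open Set Filter Topology Metric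

namespace Pool.Agent.R283.CycSpec

variable {E : Type*} [NormedAddCommGroup E] [NormedSpace ℂ E]

/-- `T - z` is bounded below. -/
def BB (T : E →L[ℂ] E) (z : ℂ) : Prop := ∃ c : ℝ, 0 < c ∧ ∀ y, c * ‖y‖ ≤ ‖T y - z • y‖

/-- The map `(a, y) ↦ a x + (T - z) y` is bounded below. -/
def GG (T : E →L[ℂ] E) (x : E) (z : ℂ) : Prop :=
  ∃ c : ℝ, 0 < c ∧ ∀ (a : ℂ) (y : E), c * (‖a‖ + ‖y‖) ≤ ‖a • x + (T y - z • y)‖

/-- Every nontrivial closed invariant subspace of `T` has finite codimension. -/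
def FinCodim (T : E →L[ℂ] E) : Prop :=
  ∀ M : Submodule ℂ E, IsClosed (M : Set E) → M ≠ ⊥ → M ≠ ⊤ → (∀ y ∈ M, T y ∈ M) →
    FiniteDimensional ℂ (E ⧸ M)

lemma GG.bb {T : E →L[ℂ] E} {x : E} {z : ℂ} (h : GG T x z) : BB T z := by
  obtain ⟨c, hc, h⟩ := h
  refine ⟨c, hc, fun y => ?_⟩
  have := h 0 y
  simpa using this

lemma GG.perturb {T : E →L[ℂ] E} {x : E} {z w : ℂ} {c : ℝ}
    (h : ∀ (a : ℂ) (y : E), c * (‖a‖ + ‖y‖) ≤ ‖a • x + (T y - z • y)‖) (a : ℂ) (y : E) :
    (c - ‖w - z‖) * (‖a‖ + ‖y‖) ≤ ‖a • x + (T y - w • y)‖ := by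
  have e : a • x + (T y - z • y) = (a • x + (T y - w • y)) + (w - z) • y := by
    rw [sub_smul]; abel
  have h1 := h a y
  have h2 : ‖a • x + (T y - z • y)‖ ≤ ‖a • x + (T y - w • y)‖ + ‖w - z‖ * ‖y‖ := by
    rw [e]
    refine (norm_add_le _ _).trans ?_
    rw [norm_smul]
  have h3 : 0 ≤ ‖w - z‖ * ‖a‖ := by positivity
  nlinarith

lemma isOpen_GG (T : E →L[ℂ] E) (x : E) : IsOpen {z | GG T x z} := by
  rw [Metric.isOpen_iff]
  rintro z ⟨c, hc, h⟩
  refine ⟨c / 2, by positivity, fun w hw => ⟨c / 2, by positivity, fun a y => ?_⟩⟩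
  rw [mem_ball, dist_eq_norm] at hw
  refine le_trans ?_ (GG.perturb h a y)
  exact mul_le_mul_of_nonneg_right (by linarith) (by positivity)

lemma isOpen_BB (T : E →L[ℂ] E) : IsOpen {z | BB T z} := by
  rw [Metric.isOpen_iff]
  rintro z ⟨c, hc, h⟩
  refine ⟨c / 2, by positivity, fun w hw => ⟨c / 2, by positivity, fun y => ?_⟩⟩
  rw [mem_ball, dist_eq_norm] at hw
  have e : T y - z • y = (T y - w • y) + (w - z) • y := by
    rw [sub_smul]; abel
  have h1 := h y
  have h2 : ‖T y - z • y‖ ≤ ‖T y - w • y‖ + ‖w - z‖ * ‖y‖ := by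
    rw [e]
    refine (norm_add_le _ _).trans ?_
    rw [norm_smul]
  nlinarith [norm_nonneg y]

lemma uniform_GG {T : E →L[ℂ] E} {x : E} {L : Set ℂ} (hL : IsCompact L)
    (h : ∀ z ∈ L, GG T x z) : ∃ c : ℝ, 0 < c ∧ ∀ z ∈ L, ∀ (a : ℂ) (y : E),
      c * (‖a‖ + ‖y‖) ≤ ‖a • x + (T y - z • y)‖ := by
  refine hL.induction_on (p := fun S => ∃ c : ℝ, 0 < c ∧ ∀ z ∈ S, ∀ (a : ℂ) (y : E),
      c * (‖a‖ + ‖y‖) ≤ ‖a • x + (T y - z • y)‖) ⟨1, one_pos, by simp⟩ ?_ ?_ ?_
  · rintro S S' hSS' ⟨c, hc, h'⟩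
    exact ⟨c, hc, fun z hz => h' z (hSS' hz)⟩
  · rintro S S' ⟨c, hc, h1⟩ ⟨c', hc', h2⟩
    refine ⟨min c c', lt_min hc hc', ?_⟩
    rintro z (hz | hz) a y
    · exact (mul_le_mul_of_nonneg_right (min_le_left _ _) (by positivity)).trans (h1 z hz a y)
    · exact (mul_le_mul_of_nonneg_right (min_le_right _ _) (by positivity)).trans (h2 z hz a y)
  · intro z hz
    obtain ⟨c, hc, h1⟩ := h z hz
    refine ⟨L ∩ ball z (c / 2), inter_mem self_mem_nhdsWithin
      (mem_nhdsWithin_of_mem_nhds (ball_mem_nhds z (by positivity))), c / 2, by positivity, ?_⟩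
    rintro w ⟨_, hw⟩ a y
    rw [mem_ball, dist_eq_norm] at hw
    refine le_trans ?_ (GG.perturb h1 a y)
    exact mul_le_mul_of_nonneg_right (by linarith) (by positivity)

/-- The vectors `y` with `y = P(z) x + (T - z) Q(z)` for all `z`, where `P`, `Q` are entire. -/
def rep (T : E →L[ℂ] E) (x : E) : Submodule ℂ E where
  carrier := {y | ∃ (P : ℂ → ℂ) (Q : ℂ → E), Differentiable ℂ P ∧ Differentiable ℂ Q ∧
    ∀ z, y = P z • x + (T (Q z) - z • Q z)}
  add_mem' := by
    rintro y y' ⟨P, Q, hP, hQ, h⟩ ⟨P', Q', hP', hQ', h'⟩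
    refine ⟨fun z => P z + P' z, fun z => Q z + Q' z, hP.add hP', hQ.add hQ', fun z => ?_⟩
    have e1 := h z
    have e2 := h' z
    calc y + y' = (P z • x + (T (Q z) - z • Q z)) + (P' z • x + (T (Q' z) - z • Q' z)) := by
          rw [← e1, ← e2]
      _ = _ := by rw [map_add, add_smul, smul_add]; abel
  zero_mem' := ⟨fun _ => 0, fun _ => 0, differentiable_const _, differentiable_const _,
    fun z => by simp⟩
  smul_mem' := by
    rintro a y ⟨P, Q, hP, hQ, h⟩
    refine ⟨fun z => a * P z, fun z => a • Q z, hP.const_mul a, hQ.const_smul a, fun z => ?_⟩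
    calc a • y = a • (P z • x + (T (Q z) - z • Q z)) := by rw [← h z]
      _ = _ := by rw [smul_add, smul_sub, map_smul, smul_smul, smul_comm a z]

lemma self_mem_rep (T : E →L[ℂ] E) (x : E) : x ∈ rep T x :=
  ⟨fun _ => 1, fun _ => 0, differentiable_const _, differentiable_const _, fun z => by simp⟩

lemma map_mem_rep {T : E →L[ℂ] E} {x y : E} (hy : y ∈ rep T x) : T y ∈ rep T x := by
  obtain ⟨P, Q, hP, hQ, h⟩ := hy
  refine ⟨fun z => z * P z, fun z => P z • x + T (Q z), differentiable_id.mul hP,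
    (hP.smul_const x).add (T.differentiable.comp hQ), fun z => ?_⟩
  calc T y = T (P z • x + (T (Q z) - z • Q z)) := by rw [← h z]
    _ = _ := by
      rw [map_add, map_sub, map_smul, map_smul, map_add, map_smul, smul_add, smul_smul]
      abel

/-- The set `{z | GG T x z}` has no holes. -/
theorem hole {T : E →L[ℂ] E} {x : E} (hd : Dense (rep T x : Set E)) {U : Set ℂ}
    (hUb : Bornology.IsBounded U) (hf : frontier U ⊆ {z | GG T x z}) :
    U ⊆ {z | GG T x z} := by
  intro μ hμ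
  have hK : IsCompact (frontier U) :=
    Metric.isCompact_of_isClosed_isBounded isClosed_frontier
      (hUb.closure.subset frontier_subset_closure)
  obtain ⟨c, hc, hcb⟩ := uniform_GG hK hf
  have hμ' : μ ∈ closure U := subset_closure hμ
  -- bounds for representations
  have bd : ∀ (v : E) (P : ℂ → ℂ) (Q : ℂ → E), Differentiable ℂ P → Differentiable ℂ Q →
      (∀ z, v = P z • x + (T (Q z) - z • Q z)) → ‖P μ‖ ≤ ‖v‖ / c ∧ ‖Q μ‖ ≤ ‖v‖ / c := by
    intro v P Q hP hQ h
    have hfr : ∀ z ∈ frontier U, ‖P z‖ ≤ ‖v‖ / c ∧ ‖Q z‖ ≤ ‖v‖ / c := by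
      intro z hz
      have h1 := hcb z hz (P z) (Q z)
      rw [← h z] at h1
      have h2 : ‖P z‖ + ‖Q z‖ ≤ ‖v‖ / c := by
        rw [le_div_iff₀ hc]; linarith
      exact ⟨by linarith [norm_nonneg (Q z)], by linarith [norm_nonneg (P z)]⟩
    exact ⟨Complex.norm_le_of_forall_mem_frontier_norm_le hUb hP.diffContOnCl
        (fun z hz => (hfr z hz).1) hμ',
      Complex.norm_le_of_forall_mem_frontier_norm_le hUb hQ.diffContOnCl
        (fun z hz => (hfr z hz).2) hμ'⟩
  have key : ∀ (a : ℂ) (y : E), y ∈ rep T x →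
      c / 2 * (‖a‖ + ‖y‖) ≤ ‖a • x + (T y - μ • y)‖ := by
    rintro a y ⟨P, Q, hP, hQ, h⟩
    have h1 := bd (a • x + (T y - μ • y)) (fun z => a + (z - μ) * P z)
      (fun z => y + (z - μ) • Q z)
      ((differentiable_const a).add ((differentiable_id.sub (differentiable_const μ)).mul hP))
      ((differentiable_const y).add ((differentiable_id.sub (differentiable_const μ)).smul hQ))
      (fun z => by
        have e2 : (z - μ) • y = (z - μ) • (P z • x + (T (Q z) - z • Q z)) := by rw [← h z]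
        have e3 : a • x + (T y - μ • y) = a • x + (T y - z • y) + (z - μ) • y := by
          rw [sub_smul]; abel
        rw [e3, e2, smul_add, smul_sub, add_smul, mul_smul, map_add, map_smul, smul_add,
          smul_comm (z - μ) z]
        abel)
    simp only [sub_self, zero_mul, add_zero, zero_smul] at h1
    obtain ⟨h2, h3⟩ := h1
    rw [le_div_iff₀ hc] at h2 h3
    nlinarith
  refine ⟨c / 2, by positivity, fun a y => ?_⟩
  have hcl : IsClosed {y : E | c / 2 * (‖a‖ + ‖y‖) ≤ ‖a • x + (T y - μ • y)‖} := by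
    refine isClosed_le ?_ ?_
    · fun_prop
    · fun_prop
  have hall : closure (rep T x : Set E) ⊆ {y : E | c / 2 * (‖a‖ + ‖y‖) ≤ ‖a • x + (T y - μ • y)‖} :=
    closure_minimal (fun y hy => key a y hy) hcl
  exact hall (hd y)

lemma sub_apply_eq (T : E →L[ℂ] E) (z : ℂ) (y : E) :
    (algebraMap ℂ (E →L[ℂ] E) z - T) y = -(T y - z • y) := by
  rw [sub_apply, Algebra.algebraMap_eq_smul_one, smul_apply, one_apply_eq_self]
  abel

lemma bb_of_isUnit {T : E →L[ℂ] E} {z : ℂ} (h : IsUnit (algebraMap ℂ (E →L[ℂ] E) z - T)) :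
    BB T z := by
  obtain ⟨u, hu⟩ := h
  set S : E →L[ℂ] E := (↑u⁻¹ : E →L[ℂ] E) with hS
  have h1 : ∀ y, S ((algebraMap ℂ (E →L[ℂ] E) z - T) y) = y := by
    intro y
    have : S * (algebraMap ℂ (E →L[ℂ] E) z - T) = 1 := by rw [← hu, hS, Units.inv_mul]
    exact congrArg (fun R : E →L[ℂ] E => R y) this
  refine ⟨(‖S‖ + 1)⁻¹, by positivity, fun y => ?_⟩
  have h2 : ‖y‖ ≤ ‖S‖ * ‖T y - z • y‖ := by
    calc ‖y‖ = ‖S ((algebraMap ℂ (E →L[ℂ] E) z - T) y)‖ := by rw [h1]
      _ ≤ ‖S‖ * ‖(algebraMap ℂ (E →L[ℂ] E) z - T) y‖ := S.le_opNorm _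
      _ = ‖S‖ * ‖T y - z • y‖ := by rw [sub_apply_eq, norm_neg]
  rw [inv_mul_le_iff₀ (by positivity)]
  nlinarith [norm_nonneg (T y - z • y)]

lemma not_isUnit_of_gg {T : E →L[ℂ] E} {x : E} {z : ℂ} (h : GG T x z) :
    ¬ IsUnit (algebraMap ℂ (E →L[ℂ] E) z - T) := by
  rintro ⟨u, hu⟩
  obtain ⟨c, hc, h⟩ := h
  set S : E →L[ℂ] E := (↑u⁻¹ : E →L[ℂ] E) with hS
  have h1 : (algebraMap ℂ (E →L[ℂ] E) z - T) (S x) = x := by
    have : (algebraMap ℂ (E →L[ℂ] E) z - T) * S = 1 := by rw [← hu, hS, Units.mul_inv]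
    exact congrArg (fun R : E →L[ℂ] E => R x) this
  rw [sub_apply_eq] at h1
  have h2 := h 1 (S x)
  rw [one_smul] at h2
  have h3 : x + (T (S x) - z • S x) = 0 := by
    nth_rewrite 1 [← h1]
    abel
  rw [h3, norm_zero, norm_one] at h2
  have : 0 < c * (1 + ‖S x‖) := by positivity
  linarith

variable [CompleteSpace E]

lemma BB.closed_range {T : E →L[ℂ] E} {z : ℂ} (h : BB T z) :
    IsClosed (Set.range fun y => T y - z • y) := by
  obtain ⟨c, hc, h⟩ := h
  set R : E →L[ℂ] E := T - z • (1 : E →L[ℂ] E) with hR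
  have hRa : ∀ y, R y = T y - z • y := fun y => by
    simp [hR]
  have hanti : AntilipschitzWith (Real.toNNReal c⁻¹) R := by
    refine AddMonoidHomClass.antilipschitz_of_bound R fun y => ?_
    rw [Real.coe_toNNReal _ (by positivity), hRa]
    rw [inv_mul_eq_div, le_div_iff₀ hc]
    linarith [h y]
  have := ContinuousLinearMap.closed_range_of_antilipschitz hanti
  have e : Set.range (fun y => T y - z • y) = Set.range R := by
    ext w
    simp [hRa]
  rw [e]
  exact hanti.isClosed_range R.uniformContinuous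

/-- For a cyclic operator, a spectral point outside the approximate point spectrum is in `GG`. -/
lemma gg_of_bb {T : E →L[ℂ] E} {x : E} (hd : Dense (rep T x : Set E)) {z : ℂ} (h : BB T z)
    (hu : ¬ IsUnit (algebraMap ℂ (E →L[ℂ] E) z - T)) : GG T x z := by
  have hclosed := h.closed_range
  have hx : x ∉ Set.range fun y => T y - z • y := by
    rintro ⟨e, he⟩
    apply hu
    -- the range contains `rep`
    have hsub : (rep T x : Set E) ⊆ Set.range fun y => T y - z • y := by
      rintro y ⟨P, Q, -, -, hy⟩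
      refine ⟨P z • e + Q z, ?_⟩
      have he' : T e - z • e = x := he
      show T (P z • e + Q z) - z • (P z • e + Q z) = y
      rw [hy z, ← he', map_add, map_smul, smul_add, smul_sub, smul_comm z (P z)]
      abel
    have hsurj : ∀ y, ∃ w, T w - z • w = y := by
      intro y
      have : y ∈ closure (rep T x : Set E) := hd y
      exact (closure_minimal hsub hclosed) this
    rw [ContinuousLinearMap.isUnit_iff_bijective]
    constructor
    · intro y y' hyy
      rw [sub_apply_eq, sub_apply_eq, neg_inj] at hyy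
      obtain ⟨c, hc, hb⟩ := h
      have h1 := hb (y - y')
      have h2 : T (y - y') - z • (y - y') = 0 := by
        rw [map_sub, smul_sub]
        have : T y - T y' - (z • y - z • y') = (T y - z • y) - (T y' - z • y') := by abel
        rw [this, hyy, sub_self]
      rw [h2, norm_zero] at h1
      have h3 : ‖y - y'‖ ≤ 0 := by
        by_contra hlt
        push Not at hlt
        have := mul_pos hc hlt
        linarith
      exact sub_eq_zero.1 (norm_le_zero_iff.1 h3)
    · intro y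
      obtain ⟨w, hw⟩ := hsurj (-y)
      exact ⟨w, by rw [sub_apply_eq, hw, neg_neg]⟩
  obtain ⟨c, hc, hb⟩ := h
  set δ : ℝ := infDist x (Set.range fun y => T y - z • y) with hδ
  have hne : (Set.range fun y => T y - z • y).Nonempty := ⟨_, ⟨0, rfl⟩⟩
  have hδpos : 0 < δ := (hclosed.notMem_iff_infDist_pos hne).1 hx
  have h1 : ∀ (a : ℂ) (y : E), δ * ‖a‖ ≤ ‖a • x + (T y - z • y)‖ := by
    intro a y
    by_cases ha : a = 0
    · subst ha; simp
    · have hmem : T (-(a⁻¹ • y)) - z • (-(a⁻¹ • y)) ∈ Set.range fun y => T y - z • y := ⟨_, rfl⟩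
      have h2 : δ ≤ dist x (T (-(a⁻¹ • y)) - z • (-(a⁻¹ • y))) := infDist_le_dist_of_mem hmem
      rw [dist_eq_norm] at h2
      have e : a • x + (T y - z • y) = a • (x - (T (-(a⁻¹ • y)) - z • (-(a⁻¹ • y)))) := by
        rw [map_neg, map_smul, smul_neg, smul_sub, smul_sub, smul_neg, smul_neg, smul_smul,
          mul_inv_cancel₀ ha, one_smul, smul_comm z a⁻¹ y, smul_smul, mul_inv_cancel₀ ha, one_smul]
        abel
      rw [e, norm_smul, mul_comm]
      exact mul_le_mul_of_nonneg_left h2 (norm_nonneg _)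
  -- combine
  set D : ℝ := 1 / δ + (1 + ‖x‖ / δ) / c with hD
  have hDpos : 0 < D := by positivity
  refine ⟨D⁻¹, by positivity, fun a y => ?_⟩
  rw [inv_mul_le_iff₀ hDpos]
  have h2 := h1 a y
  have h3 := hb y
  set N : ℝ := ‖a • x + (T y - z • y)‖ with hN
  have h4 : ‖T y - z • y‖ ≤ N + ‖a‖ * ‖x‖ := by
    have e : T y - z • y = (a • x + (T y - z • y)) - a • x := by abel
    calc ‖T y - z • y‖ = ‖(a • x + (T y - z • y)) - a • x‖ := by rw [← e]
      _ ≤ N + ‖a • x‖ := norm_sub_le _ _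
      _ = N + ‖a‖ * ‖x‖ := by rw [norm_smul]
  have h5 : ‖a‖ ≤ N / δ := by rw [le_div_iff₀ hδpos]; linarith
  have h6 : ‖a‖ * ‖x‖ ≤ N / δ * ‖x‖ := mul_le_mul_of_nonneg_right h5 (norm_nonneg _)
  have h7 : ‖y‖ ≤ (N + N / δ * ‖x‖) / c := by rw [le_div_iff₀ hc]; linarith
  calc ‖a‖ + ‖y‖ ≤ N / δ + (N + N / δ * ‖x‖) / c := add_le_add h5 h7
    _ = D * N := by rw [hD]; ring

lemma spectrum_eq {T : E →L[ℂ] E} {x : E} (hd : Dense (rep T x : Set E)) :
    spectrum ℂ T = {z | ¬ BB T z} ∪ {z | GG T x z} := by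
  ext z
  constructor
  · intro hz
    by_cases h : BB T z
    · exact Or.inr (gg_of_bb hd h hz)
    · exact Or.inl h
  · rintro (hz | hz)
    · intro h
      exact hz (bb_of_isUnit h)
    · exact not_isUnit_of_gg hz

omit [CompleteSpace E] in
/-- The final contradiction. -/
lemma no_split {T : E →L[ℂ] E} (hinf : ¬ FiniteDimensional ℂ E) (hQ : FinCodim T)
    {e₁ e₂ : E →L[ℂ] E} (h1 : e₁ ≠ 0) (h2 : e₂ ≠ 0) (h12 : e₁ * e₂ = 0) (c1 : Commute e₁ T) :
    False := by
  have hT1 : ∀ y, e₁ (T y) = T (e₁ y) := fun y => congrArg (fun R : E →L[ℂ] E => R y) c1.eq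
  have h12' : ∀ y, e₁ (e₂ y) = 0 := fun y => congrArg (fun R : E →L[ℂ] E => R y) h12
  have hker : FiniteDimensional ℂ (E ⧸ (e₁ : E →ₗ[ℂ] E).ker) := by
    refine hQ _ (ContinuousLinearMap.isClosed_ker e₁) ?_ ?_ ?_
    · intro hbot
      apply h2
      ext y
      have : e₂ y ∈ (e₁ : E →ₗ[ℂ] E).ker := h12' y
      rw [hbot] at this
      exact (Submodule.mem_bot ℂ).1 this
    · intro htop
      apply h1
      ext y
      have : y ∈ (e₁ : E →ₗ[ℂ] E).ker := by rw [htop]; trivial
      exact this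
    · intro y hy
      show e₁ (T y) = 0
      rw [hT1]
      have : e₁ y = 0 := hy
      rw [this, map_zero]
  have hran : FiniteDimensional ℂ (e₁ : E →ₗ[ℂ] E).range :=
    LinearEquiv.finiteDimensional (LinearMap.quotKerEquivRange (e₁ : E →ₗ[ℂ] E))
  have hranc : FiniteDimensional ℂ (E ⧸ (e₁ : E →ₗ[ℂ] E).range) := by
    refine hQ _ (Submodule.closed_of_finiteDimensional _) ?_ ?_ ?_
    · intro hbot
      apply h1
      ext y
      have : e₁ y ∈ (e₁ : E →ₗ[ℂ] E).range := ⟨y, rfl⟩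
      rw [hbot] at this
      exact (Submodule.mem_bot ℂ).1 this
    · intro htop
      apply hinf
      rw [htop] at hran
      exact LinearEquiv.finiteDimensional (Submodule.topEquiv (R := ℂ) (M := E))
    · rintro _ ⟨w, rfl⟩
      exact ⟨T w, hT1 w⟩
  exact hinf (Module.Finite.of_submodule_quotient (e₁ : E →ₗ[ℂ] E).range)

/-- **Main theorem for cyclic operators.** -/
theorem isConnected_cyc {T : E →L[ℂ] E} {x : E} (hinf : ¬ FiniteDimensional ℂ E)
    (hd : Dense (rep T x : Set E)) (hQ : FinCodim T) : IsConnected {z | ¬ BB T z} := by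
  have hnt : Nontrivial E := by
    by_contra h
    rw [not_nontrivial_iff_subsingleton] at h
    exact hinf inferInstance
  have hKc : IsClosed {z | ¬ BB T z} := (isOpen_BB T).isClosed_compl
  have hσ := spectrum_eq hd
  have hσc : IsCompact (spectrum ℂ T) := spectrum.isCompact T
  have hdisj : Disjoint {z | GG T x z} {z | ¬ BB T z} := by
    rw [Set.disjoint_left]
    intro z hz hz'
    exact hz' (GG.bb hz)
  constructor
  · by_contra hemp
    rw [Set.not_nonempty_iff_eq_empty] at hemp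
    rw [hemp, empty_union] at hσ
    have hop : IsOpen (spectrum ℂ T) := hσ ▸ isOpen_GG T x
    have hcl : IsClopen (spectrum ℂ T) := ⟨hσc.isClosed, hop⟩
    rcases isClopen_iff.1 hcl with h | h
    · exact (spectrum.nonempty T).ne_empty h
    · rw [h] at hσc
      exact noncompact_univ ℂ hσc
  · rw [isPreconnected_iff_subset_of_fully_disjoint_closed hKc]
    intro u v hu hv huv hd'
    by_contra hcon
    push Not at hcon
    obtain ⟨hnu, hnv⟩ := hcon
    set K : Set ℂ := {z | ¬ BB T z} with hK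
    set K₁ : Set ℂ := K ∩ u with hK₁
    set K₂ : Set ℂ := K ∩ v with hK₂
    have hKK : K = K₁ ∪ K₂ := by
      rw [hK₁, hK₂, ← inter_union_distrib_left]
      exact (inter_eq_left.2 huv).symm
    have hne1 : K₁.Nonempty := by
      obtain ⟨z, hz, hzv⟩ := Set.not_subset.1 hnv
      rcases huv hz with h | h
      · exact ⟨z, hz, h⟩
      · exact absurd h hzv
    have hne2 : K₂.Nonempty := by
      obtain ⟨z, hz, hzu⟩ := Set.not_subset.1 hnu
      rcases huv hz with h | h
      · exact absurd h hzu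
      · exact ⟨z, hz, h⟩
    have hσ' : K₁ ∪ K₂ ∪ {z | GG T x z} = spectrum ℂ T := by rw [hσ, hKK]
    obtain ⟨A, B, hA, hB, hAB, hKA, hKB, hABσ⟩ := Hull.separate (K₁ := K₁) (K₂ := K₂)
      (G := {z | GG T x z}) (hKc.inter hu) (hKc.inter hv)
      (hd'.mono inter_subset_right inter_subset_right) (isOpen_GG T x)
      (hdisj.mono_right inter_subset_left) (hdisj.mono_right inter_subset_left)
      (by rw [hσ']; exact hσc.isClosed) (by rw [hσ']; exact hσc.isBounded)
      (fun U _ hUb hUf => hole hd hUb hUf)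
    rw [hσ'] at hABσ
    obtain ⟨e₁, e₂, h1, h2, h12, c1, _⟩ := Riesz.exists_split T hA hB hAB hABσ.symm
      (hne1.mono hKA) (hne2.mono hKB)
    exact no_split hinf hQ h1 h2 h12 c1

end Pool.Agent.R283.CycSpec
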