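import Mathlib

/-!
# The Kalton–Peck map
-/

set_option autoImplicit false
open Filter Topology Set
open scoped ENNReal

namespace Pool.Agent.R283.KP

/-- real `ℓ²` -/
abbrev L2 := lp (fun _ : ℕ => ℝ) 2

/-- The Kalton–Peck map on `ℓ²`, with values in the space of all sequences. -/
noncomputable def kp (x : L2) : ℕ → ℝ := fun n => x n * Real.log (|x n| / ‖x‖)

lemma toReal2 : (2 : ℝ≥0∞).toReal = (2 : ℕ) := by norm_num

lemma norm_sq (x : L2) : ‖x‖ ^ 2 = ∑' n, x n ^ 2 := by
  have h := lp.norm_rpow_eq_tsum (p := 2) (by norm_num) x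
  simp only [toReal2, Real.rpow_natCast, Real.norm_eq_abs, sq_abs] at h
  exact h

lemma summable_sq (x : L2) : Summable fun n => x n ^ 2 := by
  have h := (lp.memℓp x).summable (p := 2) (by norm_num)
  simp only [toReal2, Real.rpow_natCast, Real.norm_eq_abs, sq_abs] at h
  exact h

/-- `v` is a square summable sequence of norm at most `r`. -/
def Bd (r : ℝ) (v : ℕ → ℝ) : Prop := ∃ u : L2, (∀ n, u n = v n) ∧ ‖u‖ ≤ r

lemma Bd.add {r s : ℝ} {v w : ℕ → ℝ} (hv : Bd r v) (hw : Bd s w) : Bd (r + s) (v + w) := by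
  obtain ⟨u, hu, hur⟩ := hv
  obtain ⟨u', hu', hur'⟩ := hw
  exact ⟨u + u', fun n => by rw [lp.coeFn_add, Pi.add_apply, hu, hu']; rfl,
    (norm_add_le _ _).trans (add_le_add hur hur')⟩

lemma Bd.neg {r : ℝ} {v : ℕ → ℝ} (hv : Bd r v) : Bd r (-v) := by
  obtain ⟨u, hu, hur⟩ := hv
  exact ⟨-u, fun n => by rw [lp.coeFn_neg, Pi.neg_apply, hu]; rfl, by rwa [norm_neg]⟩

lemma Bd.sub {r s : ℝ} {v w : ℕ → ℝ} (hv : Bd r v) (hw : Bd s w) : Bd (r + s) (v - w) := by
  rw [sub_eq_add_neg]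
  exact hv.add hw.neg

lemma Bd.smul {r : ℝ} {v : ℕ → ℝ} (hv : Bd r v) (c : ℝ) : Bd (|c| * r) (c • v) := by
  obtain ⟨u, hu, hur⟩ := hv
  refine ⟨c • u, fun n => by rw [lp.coeFn_smul, Pi.smul_apply, hu]; rfl, ?_⟩
  rw [norm_smul, Real.norm_eq_abs]
  exact mul_le_mul_of_nonneg_left hur (abs_nonneg _)

lemma Bd.mono {r s : ℝ} {v : ℕ → ℝ} (hv : Bd r v) (h : r ≤ s) : Bd s v := by
  obtain ⟨u, hu, hur⟩ := hv
  exact ⟨u, hu, hur.trans h⟩

lemma Bd.zero : Bd 0 0 := ⟨0, fun _ => rfl, by rw [norm_zero]⟩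

lemma Bd.of_le {a : ℕ → ℝ} (b : L2) (h : ∀ n, |a n| ≤ |b n|) : Bd ‖b‖ a := by
  have hs : Summable fun n => a n ^ 2 :=
    Summable.of_nonneg_of_le (fun _ => sq_nonneg _) (fun n => sq_le_sq.2 (h n)) (summable_sq b)
  have hm : Memℓp a 2 := by
    refine memℓp_gen ?_
    simp only [toReal2, Real.rpow_natCast, Real.norm_eq_abs, sq_abs]
    exact hs
  refine ⟨⟨a, hm⟩, fun _ => rfl, ?_⟩
  refine le_of_pow_le_pow_left₀ two_ne_zero (norm_nonneg _) ?_
  rw [norm_sq, norm_sq]
  exact Summable.tsum_le_tsum (fun n => sq_le_sq.2 (h n)) hs (summable_sq b)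

/-- the absolute value in `ℓ²` -/
noncomputable def absL (x : L2) : L2 :=
  ⟨fun n => |x n|, by
    refine memℓp_gen ?_
    simp only [toReal2, Real.rpow_natCast, Real.norm_eq_abs, sq_abs]
    exact summable_sq x⟩

lemma absL_apply (x : L2) (n : ℕ) : absL x n = |x n| := rfl

lemma norm_absL (x : L2) : ‖absL x‖ = ‖x‖ := by
  have h : ‖absL x‖ ^ 2 = ‖x‖ ^ 2 := by
    rw [norm_sq, norm_sq]
    exact tsum_congr fun n => sq_abs _
  exact (pow_left_inj₀ (norm_nonneg _) (norm_nonneg _) (by norm_num)).1 h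

/-- `|v log (|v|/σ)| ≤ σ` for `|v| ≤ σ`. -/
lemma mul_log_le {v σ : ℝ} (h : |v| ≤ σ) : |v * Real.log (|v| / σ)| ≤ σ := by
  have hσ : 0 ≤ σ := (abs_nonneg _).trans h
  rcases hσ.eq_or_lt with h0 | h0
  · rw [← h0] at h ⊢
    have : v = 0 := abs_nonpos_iff.1 h
    rw [this]; simp
  by_cases hv : v = 0
  · rw [hv]; simpa using hσ
  have hv' : 0 < |v| := abs_pos.2 hv
  set r : ℝ := |v| / σ with hr
  have hr0 : 0 < r := div_pos hv' h0
  have hr1 : r ≤ 1 := (div_le_one h0).2 h
  have hlog : |Real.log r| = - Real.log r := abs_of_nonpos (Real.log_nonpos hr0.le hr1)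
  have h1 : Real.log (r⁻¹) ≤ r⁻¹ - 1 := Real.log_le_sub_one_of_pos (inv_pos.2 hr0)
  rw [Real.log_inv] at h1
  rw [abs_mul, hlog]
  have hvr : |v| = r * σ := by rw [hr, div_mul_cancel₀ _ h0.ne']
  rw [hvr]
  have h2 : r * (-Real.log r) ≤ 1 := by
    calc r * (-Real.log r) ≤ r * (r⁻¹ - 1) := mul_le_mul_of_nonneg_left h1 hr0.le
      _ = 1 - r := by rw [mul_sub, mul_inv_cancel₀ hr0.ne', mul_one]
      _ ≤ 1 := by linarith
  calc r * σ * -Real.log r = (r * (-Real.log r)) * σ := by ring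
    _ ≤ 1 * σ := mul_le_mul_of_nonneg_right h2 h0.le
    _ = σ := one_mul _

lemma coord_le (x : L2) (n : ℕ) : |x n| ≤ ‖x‖ := lp.norm_apply_le_norm (by norm_num) x n

lemma kp_le (x : L2) (n : ℕ) : |kp x n| ≤ ‖x‖ := mul_log_le (coord_le x n)

lemma kp_smul (c : ℝ) (x : L2) : kp (c • x) = c • kp x := by
  funext n
  show (c • x : L2) n * Real.log (|(c • x : L2) n| / ‖c • x‖) = c * (x n * Real.log (|x n| / ‖x‖))
  rw [lp.coeFn_smul, Pi.smul_apply, smul_eq_mul, norm_smul, abs_mul, Real.norm_eq_abs]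
  by_cases hc : c = 0
  · rw [hc]; simp
  · rw [mul_div_mul_left _ _ (abs_pos.2 hc).ne']
    ring

lemma kp_zero : kp 0 = 0 := by
  have := kp_smul 0 (0 : L2)
  rwa [zero_smul, zero_smul] at this

lemma kp_decomp {v : L2} {σ : ℝ} {s : ℝ} {n : ℕ} (h : v n ≠ 0 → 0 < σ ∧ 0 < s) :
    kp v n = v n * Real.log (|v n| / s) + v n * (Real.log s - Real.log σ) -
      v n * Real.log (‖v‖ / σ) := by
  by_cases hv : v n = 0
  · simp [kp, hv]
  · obtain ⟨hσ, hs⟩ := h hv
    have h1 : 0 < |v n| := abs_pos.2 hv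
    have h2 : 0 < ‖v‖ := h1.trans_le (coord_le v n)
    show v n * Real.log (|v n| / ‖v‖) = _
    rw [Real.log_div h1.ne' h2.ne', Real.log_div h1.ne' hs.ne', Real.log_div h2.ne' hσ.ne']
    ring

/-- The Kalton–Peck map is quasi-linear. -/
theorem kp_quasi (x y : L2) : Bd (6 * (‖x‖ + ‖y‖)) (kp (x + y) - kp x - kp y) := by
  set σ : ℝ := ‖x‖ + ‖y‖ with hσ
  rcases (add_nonneg (norm_nonneg x) (norm_nonneg y)).eq_or_lt with h0 | h0
  · have hx : x = 0 := norm_le_zero_iff.1 (by linarith [norm_nonneg y])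
    have hy : y = 0 := norm_le_zero_iff.1 (by linarith [norm_nonneg x])
    rw [hx, hy, add_zero, kp_zero, sub_zero, sub_zero]
    exact Bd.zero.mono (by rw [hσ]; positivity)
  have hσ0 : 0 < σ := h0
  set s : ℕ → ℝ := fun n => |x n| + |y n| with hs
  set A : L2 → ℕ → ℝ := fun v n => v n * Real.log (|v n| / s n) with hA
  have hdec : kp (x + y) - kp x - kp y = (A (x + y) - A x - A y) -
      (Real.log (‖x + y‖ / σ) • ⇑(x + y) - Real.log (‖x‖ / σ) • ⇑x - Real.log (‖y‖ / σ) • ⇑y) := by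
    funext n
    have hpos : ∀ v : L2, |v n| ≤ s n → v n ≠ 0 → 0 < σ ∧ 0 < s n := fun v hv h =>
      ⟨hσ0, (abs_pos.2 h).trans_le hv⟩
    have hxn : |x n| ≤ s n := le_add_of_nonneg_right (abs_nonneg _)
    have hyn : |y n| ≤ s n := le_add_of_nonneg_left (abs_nonneg _)
    have hxyn : |(x + y : L2) n| ≤ s n := by
      rw [lp.coeFn_add, Pi.add_apply]
      exact abs_add_le _ _
    simp only [Pi.sub_apply, Pi.smul_apply, smul_eq_mul]
    rw [kp_decomp (hpos _ hxyn), kp_decomp (hpos _ hxn), kp_decomp (hpos _ hyn), hA]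
    have : (x + y : L2) n = x n + y n := by rw [lp.coeFn_add, Pi.add_apply]
    simp only
    rw [this]
    ring
  rw [hdec]
  have h1 : Bd (3 * σ) (A (x + y) - A x - A y) := by
    have hb : Bd ‖(3 : ℝ) • (absL x + absL y)‖ (A (x + y) - A x - A y) := by
      refine Bd.of_le _ fun n => ?_
      have e : ((3 : ℝ) • (absL x + absL y) : L2) n = 3 * s n := by
        rw [lp.coeFn_smul, Pi.smul_apply, lp.coeFn_add, Pi.add_apply, absL_apply, absL_apply,
          smul_eq_mul]
      have hs0 : 0 ≤ s n := by positivity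
      rw [e, abs_of_nonneg (by positivity : 0 ≤ 3 * s n)]
      have hxn : |x n| ≤ s n := le_add_of_nonneg_right (abs_nonneg _)
      have hyn : |y n| ≤ s n := le_add_of_nonneg_left (abs_nonneg _)
      have hxyn : |(x + y : L2) n| ≤ s n := by
        rw [lp.coeFn_add, Pi.add_apply]
        exact abs_add_le _ _
      have i1 := mul_log_le hxn
      have i2 := mul_log_le hyn
      have i3 := mul_log_le hxyn
      show |A (x + y) n - A x n - A y n| ≤ _
      have j1 := abs_sub (A (x + y) n - A x n) (A y n)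
      have j2 := abs_sub (A (x + y) n) (A x n)
      have k1 : |A (x + y) n| ≤ s n := i3
      have k2 : |A x n| ≤ s n := i1
      have k3 : |A y n| ≤ s n := i2
      linarith
    refine hb.mono ?_
    rw [norm_smul, Real.norm_of_nonneg (by norm_num : (0 : ℝ) ≤ 3)]
    refine mul_le_mul_of_nonneg_left ?_ (by norm_num)
    refine (norm_add_le _ _).trans ?_
    rw [norm_absL, norm_absL]
  have h2 : ∀ v : L2, ‖v‖ ≤ σ → Bd σ (Real.log (‖v‖ / σ) • ⇑v) := by
    intro v hv
    refine ⟨Real.log (‖v‖ / σ) • v, fun n => by rw [lp.coeFn_smul], ?_⟩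
    rw [norm_smul, Real.norm_eq_abs]
    have h3 := mul_log_le (v := ‖v‖) (σ := σ) (by rwa [abs_of_nonneg (norm_nonneg _)])
    rw [abs_mul, abs_of_nonneg (norm_nonneg v), mul_comm] at h3
    exact h3
  have h3 := ((h2 (x + y) (norm_add_le _ _)).sub (h2 x (by rw [hσ]; linarith [norm_nonneg y]))).sub
    (h2 y (by rw [hσ]; linarith [norm_nonneg x]))
  exact (h1.sub h3).mono (by linarith)

/-- The projection on the coordinates in `A`. -/
noncomputable def PA (A : Set ℕ) [DecidablePred (· ∈ A)] : L2 →L[ℝ] L2 :=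
  LinearMap.mkContinuous
    { toFun := fun x => ⟨fun n => if n ∈ A then x n else 0, by
        refine memℓp_gen ?_
        simp only [toReal2, Real.rpow_natCast, Real.norm_eq_abs, sq_abs]
        refine Summable.of_nonneg_of_le (fun _ => sq_nonneg _) (fun n => ?_) (summable_sq x)
        split_ifs
        · exact le_rfl
        · rw [zero_pow two_ne_zero]; positivity⟩
      map_add' := fun x y => by
        ext n
        show (if n ∈ A then (x + y : L2) n else 0) = (if n ∈ A then x n else 0) +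
          (if n ∈ A then y n else 0)
        split_ifs
        · rw [lp.coeFn_add, Pi.add_apply]
        · rw [add_zero]
      map_smul' := fun c x => by
        ext n
        show (if n ∈ A then (c • x : L2) n else 0) = c * (if n ∈ A then x n else 0)
        split_ifs
        · rw [lp.coeFn_smul, Pi.smul_apply, smul_eq_mul]
        · rw [mul_zero] } 1 (fun x => by
    rw [one_mul]
    refine le_of_pow_le_pow_left₀ two_ne_zero (norm_nonneg _) ?_
    rw [norm_sq, norm_sq]
    refine Summable.tsum_le_tsum (fun n => ?_) (summable_sq _) (summable_sq x)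
    show (if n ∈ A then x n else 0) ^ 2 ≤ _
    split_ifs
    · exact le_rfl
    · rw [zero_pow two_ne_zero]; positivity)

lemma PA_apply (A : Set ℕ) [DecidablePred (· ∈ A)] (x : L2) (n : ℕ) :
    PA A x n = if n ∈ A then x n else 0 := rfl

lemma norm_PA_le (A : Set ℕ) [DecidablePred (· ∈ A)] (x : L2) : ‖PA A x‖ ≤ ‖x‖ := by
  refine ((PA A).le_opNorm x).trans ?_
  refine mul_le_of_le_one_left (norm_nonneg _) ?_
  exact LinearMap.mkContinuous_norm_le _ zero_le_one _

/-- The Kalton–Peck map commutes with coordinate projections up to a bounded map. -/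
lemma kp_PA (A : Set ℕ) [DecidablePred (· ∈ A)] (x : L2) :
    Bd ‖x‖ (kp (PA A x) - fun n => if n ∈ A then kp x n else 0) := by
  have h : (kp (PA A x) - fun n => if n ∈ A then kp x n else 0) =
      (-Real.log (‖PA A x‖ / ‖x‖)) • ⇑(PA A x) := by
    funext n
    simp only [Pi.sub_apply, Pi.smul_apply, smul_eq_mul, PA_apply]
    by_cases hn : n ∈ A
    · rw [if_pos hn, if_pos hn]
      by_cases hx : x n = 0
      · simp [kp, PA_apply, hx]
      · have h1 : 0 < |x n| := abs_pos.2 hx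
        have h2 : 0 < ‖x‖ := h1.trans_le (coord_le x n)
        have h3 : |x n| ≤ ‖PA A x‖ := by
          have := coord_le (PA A x) n
          rwa [PA_apply, if_pos hn] at this
        have h4 : 0 < ‖PA A x‖ := h1.trans_le h3
        simp only [kp, PA_apply, if_pos hn]
        rw [Real.log_div h1.ne' h4.ne', Real.log_div h1.ne' h2.ne', Real.log_div h4.ne' h2.ne']
        ring
    · rw [if_neg hn, if_neg hn]
      simp [kp, PA_apply, hn]
  rw [h]
  refine ⟨(-Real.log (‖PA A x‖ / ‖x‖)) • PA A x, fun n => by rw [lp.coeFn_smul], ?_⟩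
  rw [norm_smul, norm_neg, Real.norm_eq_abs]
  have h3 := mul_log_le (v := ‖PA A x‖) (σ := ‖x‖)
    (by rw [abs_of_nonneg (norm_nonneg _)]; exact norm_PA_le A x)
  rw [abs_mul, abs_of_nonneg (norm_nonneg (PA A x)), mul_comm] at h3
  exact h3

end Pool.Agent.R283.KP
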