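import Pool.Agent.R283.KPPerm

/-!
# Continuity properties of the Kalton–Peck map
-/

set_option autoImplicit false
open Filter Topology Set
open scoped ENNReal

namespace Pool.Agent.R283.KP

lemma continuous_coord (n : ℕ) : Continuous fun y : L2 => y n :=
  (lp.evalCLM ℝ (fun _ : ℕ => ℝ) 2 n).continuous

lemma kp_eq (y : L2) (n : ℕ) : kp y n = ‖y‖ * ((y n / ‖y‖) * Real.log (y n / ‖y‖)) := by
  by_cases h : ‖y‖ = 0
  · have : y = 0 := norm_eq_zero.1 h
    rw [h, zero_mul, this, kp_zero]; rfl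
  · unfold kp
    rw [← Real.log_abs (y n / ‖y‖), abs_div, abs_of_nonneg (norm_nonneg y)]
    field_simp

lemma continuous_kp (n : ℕ) : Continuous fun y : L2 => kp y n := by
  rw [continuous_iff_continuousAt]
  intro y
  by_cases h : y = 0
  · subst h
    have h0 : kp 0 n = 0 := by rw [kp_zero]; rfl
    show Tendsto (fun y : L2 => kp y n) (𝓝 0) (𝓝 (kp 0 n))
    rw [h0]
    refine squeeze_zero_norm (a := fun y : L2 => ‖y‖) (fun y => ?_) ?_
    · rw [Real.norm_eq_abs]
      exact kp_le y n
    · exact tendsto_norm_zero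
  · have hn : ‖y‖ ≠ 0 := by rwa [norm_ne_zero_iff]
    simp only [funext fun y => kp_eq y n]
    refine ContinuousAt.mul continuous_norm.continuousAt ?_
    have h1 : ContinuousAt (fun y : L2 => y n / ‖y‖) y :=
      (continuous_coord n).continuousAt.div continuous_norm.continuousAt hn
    exact ContinuousAt.comp (g := fun t : ℝ => t * Real.log t)
      Real.continuous_mul_log.continuousAt h1

/-- The precise form of `kp_PA`. -/
lemma kp_PA' (A : Set ℕ) [DecidablePred (· ∈ A)] (x : L2) :
    Bd (|‖PA A x‖ * Real.log (‖PA A x‖ / ‖x‖)|)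
      (kp (PA A x) - fun n => if n ∈ A then kp x n else 0) := by
  have h : (kp (PA A x) - fun n => if n ∈ A then kp x n else 0) =
      (-Real.log (‖PA A x‖ / ‖x‖)) • ⇑(PA A x) := by
    funext n
    simp only [Pi.sub_apply, Pi.smul_apply, smul_eq_mul, PA_apply]
    by_cases hn : n ∈ A
    · rw [if_pos hn, if_pos hn]
      by_cases hx : x n = 0
      · simp [kp, PA_apply, hx]
      · have h1 : 0 < |x n| := abs_pos.2 hx
        have h2 : 0 < ‖x‖ := h1.trans_le (coord_le x n)
        have h3 : |x n| ≤ ‖PA A x‖ := by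
          have := coord_le (PA A x) n
          rwa [PA_apply, if_pos hn] at this
        have h4 : 0 < ‖PA A x‖ := h1.trans_le h3
        simp only [kp, PA_apply, if_pos hn]
        rw [Real.log_div h1.ne' h4.ne', Real.log_div h1.ne' h2.ne', Real.log_div h4.ne' h2.ne']
        ring
    · rw [if_neg hn, if_neg hn]
      simp [kp, PA_apply, hn]
  rw [h]
  refine ⟨(-Real.log (‖PA A x‖ / ‖x‖)) • PA A x, fun n => by rw [lp.coeFn_smul], ?_⟩
  rw [norm_smul, norm_neg, Real.norm_eq_abs, abs_mul, abs_of_nonneg (norm_nonneg (PA A x)), mul_comm]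

/-- The tail projections. -/
noncomputable def Tl (m : ℕ) : L2 →L[ℝ] L2 := PA {n | m ≤ n}

lemma Tl_apply (m : ℕ) (x : L2) (n : ℕ) : Tl m x n = if m ≤ n then x n else 0 := rfl

lemma Tl_tendsto (x : L2) : Tendsto (fun m => Tl m x) atTop (𝓝 0) := by
  have h1 : Tendsto (fun m => x - ∑ n ∈ Finset.range m, lp.single 2 n (x n)) atTop (𝓝 (x - x)) :=
    ((lp.hasSum_single (by norm_num) x).tendsto_sum_nat).const_sub x
  rw [sub_self] at h1
  refine h1.congr fun m => ?_
  ext n
  rw [lp.coeFn_sub, Pi.sub_apply, lp.coeFn_sum, Finset.sum_apply, Tl_apply]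
  by_cases h : m ≤ n
  · rw [if_pos h, Finset.sum_eq_zero, sub_zero]
    intro k hk
    exact lp.single_apply_ne _ _ _ (by have := Finset.mem_range.1 hk; omega)
  · rw [if_neg h, Finset.sum_eq_single n, lp.single_apply_self, sub_self]
    · intro b _ hb
      exact lp.single_apply_ne _ _ _ hb.symm
    · intro hn
      exact absurd (Finset.mem_range.2 (by omega)) hn

lemma Tl_log_tendsto (x : L2) :
    Tendsto (fun m => |‖Tl m x‖ * Real.log (‖Tl m x‖ / ‖x‖)|) atTop (𝓝 0) := by
  have h0 : Tendsto (fun m => ‖Tl m x‖) atTop (𝓝 0) := by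
    have := (Tl_tendsto x).norm
    rwa [norm_zero] at this
  by_cases h : ‖x‖ = 0
  · simp [h]
  · have h1 : Tendsto (fun m => ‖Tl m x‖ / ‖x‖) atTop (𝓝 0) := by
      have := h0.div_const ‖x‖
      rwa [zero_div] at this
    have h2 : Tendsto (fun m => (‖Tl m x‖ / ‖x‖) * Real.log (‖Tl m x‖ / ‖x‖)) atTop
        (𝓝 (0 * Real.log 0)) := (Real.continuous_mul_log.tendsto 0).comp h1
    have h3 := (h2.const_mul ‖x‖).abs
    rw [zero_mul, mul_zero, abs_zero] at h3
    refine h3.congr fun m => ?_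
    congr 1
    field_simp

end Pool.Agent.R283.KP
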