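import Pool.Agent.R283.KP

/-!
# Permutation of coordinates and the pair of projections
-/

set_option autoImplicit false
open Filter Topology Set
open scoped ENNReal

namespace Pool.Agent.R283.KP

/-- exchange `2n` and `2n+1` -/
def sw (n : ℕ) : ℕ := if n % 2 = 0 then n + 1 else n - 1

lemma sw_sw (n : ℕ) : sw (sw n) = n := by
  unfold sw
  split_ifs <;> omega

lemma sw_mod (n : ℕ) : sw n % 2 = 0 ↔ ¬ n % 2 = 0 := by
  unfold sw
  split_ifs <;> omega

/-- `sw` as an equivalence -/
def swE : ℕ ≃ ℕ := ⟨sw, sw, sw_sw, sw_sw⟩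

/-- The operator that exchanges the coordinates `2n` and `2n+1`. -/
noncomputable def be : L2 →L[ℝ] L2 :=
  LinearMap.mkContinuous
    { toFun := fun x => ⟨fun n => x (sw n), by
        refine memℓp_gen ?_
        simp only [toReal2, Real.rpow_natCast, Real.norm_eq_abs, sq_abs]
        exact (swE.summable_iff (f := fun n => x n ^ 2)).2 (summable_sq x)⟩
      map_add' := fun x y => by
        ext n
        show (x + y : L2) (sw n) = x (sw n) + y (sw n)
        rw [lp.coeFn_add, Pi.add_apply]
      map_smul' := fun c x => by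
        ext n
        show (c • x : L2) (sw n) = c * x (sw n)
        rw [lp.coeFn_smul, Pi.smul_apply, smul_eq_mul] } 1 (fun x => by
    rw [one_mul]
    refine le_of_pow_le_pow_left₀ two_ne_zero (norm_nonneg _) ?_
    rw [norm_sq, norm_sq]
    exact le_of_eq (swE.tsum_eq (fun n => x n ^ 2)))

lemma be_apply (x : L2) (n : ℕ) : be x n = x (sw n) := rfl

lemma be_be (x : L2) : be (be x) = x := by
  ext n
  rw [be_apply, be_apply, sw_sw]

lemma norm_be (x : L2) : ‖be x‖ = ‖x‖ := by
  have h : ‖be x‖ ^ 2 = ‖x‖ ^ 2 := by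
    rw [norm_sq, norm_sq]
    exact swE.tsum_eq (fun n => x n ^ 2)
  exact (pow_left_inj₀ (norm_nonneg _) (norm_nonneg _) (by norm_num)).1 h

/-- The projection to the even coordinates. -/
noncomputable def Pe : L2 →L[ℝ] L2 := PA {n | n % 2 = 0}

/-- The projection to the odd coordinates. -/
noncomputable def Po : L2 →L[ℝ] L2 := PA {n | ¬ n % 2 = 0}

lemma be_Pe (x : L2) : be (Pe x) = Po (be x) := by
  ext n
  rw [be_apply]
  show (if sw n % 2 = 0 then x (sw n) else 0) = if ¬ n % 2 = 0 then x (sw n) else 0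
  simp only [sw_mod]

lemma Pe_sub_Po_sq (x : L2) : (Pe - Po) ((Pe - Po) x) = x := by
  ext n
  show (if n % 2 = 0 then ((if n % 2 = 0 then x n else 0) - (if ¬ n % 2 = 0 then x n else 0)) else 0) -
    (if ¬ n % 2 = 0 then ((if n % 2 = 0 then x n else 0) - (if ¬ n % 2 = 0 then x n else 0)) else 0)
      = x n
  split_ifs <;> simp

lemma not_finiteDimensional : ¬ FiniteDimensional ℝ L2 := by
  intro h
  have hli : LinearIndependent ℝ fun n : ℕ => (lp.single 2 n (1 : ℝ) : L2) := by
    rw [linearIndependent_iff']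
    intro s g hg i hi
    have h1 := congrArg (fun f : L2 => f i) hg
    simp only [lp.coeFn_sum, Finset.sum_apply, lp.coeFn_smul, Pi.smul_apply, smul_eq_mul,
      lp.coeFn_zero, Pi.zero_apply] at h1
    rw [Finset.sum_eq_single i] at h1
    · rw [lp.single_apply_self, mul_one] at h1
      exact h1
    · intro b _ hb
      rw [lp.single_apply_ne _ _ _ hb.symm, mul_zero]
    · intro hn
      exact absurd hi hn
  have := hli.finite
  exact not_finite ℕ

/-- The difference of the two projections is not compact. -/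
lemma not_compact : ¬ IsCompactOperator (Pe - Po : L2 →L[ℝ] L2) := by
  intro h
  have h1 : IsCompactOperator ((Pe - Po : L2 →L[ℝ] L2) ∘ (Pe - Po : L2 →L[ℝ] L2)) :=
    h.comp_clm (Pe - Po)
  have h2 : ((Pe - Po : L2 →L[ℝ] L2) ∘ (Pe - Po : L2 →L[ℝ] L2)) = (id : L2 → L2) :=
    funext Pe_sub_Po_sq
  rw [h2] at h1
  exact not_finiteDimensional ((isCompactOperator_id_iff_finiteDimensional (𝕜 := ℝ)).1 h1)

end Pool.Agent.R283.KP
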