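import Pool.Agent.R283.KPMore

/-!
# The Kalton–Peck map is singular
-/

set_option autoImplicit false
open Filter Topology Set
open scoped ENNReal

namespace Pool.Agent.R283.KP

/-- An infinite dimensional subspace contains unit vectors starting arbitrarily late. -/
lemma exists_unit {W : Submodule ℝ L2} (hW : ¬ FiniteDimensional ℝ W) (N : ℕ) :
    ∃ w ∈ W, ‖w‖ = 1 ∧ ∀ n, n < N → w n = 0 := by
  let φ : W →ₗ[ℝ] (Fin N → ℝ) :=
    { toFun := fun x i => (x : L2) i
      map_add' := fun x y => by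
        funext i
        show ((x : L2) + (y : L2) : L2) i = (x : L2) i + (y : L2) i
        rw [lp.coeFn_add, Pi.add_apply]
      map_smul' := fun c x => by
        funext i
        show (c • (x : L2) : L2) i = c * (x : L2) i
        rw [lp.coeFn_smul, Pi.smul_apply, smul_eq_mul] }
  have hker : ¬ Function.Injective φ := fun h => hW (Module.Finite.of_injective φ h)
  obtain ⟨x, hx, hx0⟩ : ∃ x : W, φ x = 0 ∧ x ≠ 0 := by
    by_contra hcon
    push Not at hcon
    apply hker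
    rw [injective_iff_map_eq_zero]
    exact hcon
  have hxn : (x : L2) ≠ 0 := fun h => hx0 (Subtype.ext h)
  have hn : 0 < ‖(x : L2)‖ := norm_pos_iff.2 hxn
  refine ⟨‖(x : L2)‖⁻¹ • (x : L2), W.smul_mem _ x.2, ?_, fun n h => ?_⟩
  · rw [norm_smul, norm_inv, norm_norm, inv_mul_cancel₀ hn.ne']
  · rw [lp.coeFn_smul, Pi.smul_apply]
    have : (x : L2) n = 0 := congrFun hx ⟨n, h⟩
    rw [this, smul_zero]

lemma exists_sign (u w : L2) : ∃ ε : ℝ, |ε| = 1 ∧ ‖u + ε • w‖ ^ 2 ≤ ‖u‖ ^ 2 + ‖w‖ ^ 2 := by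
  have h := parallelogram_law_with_norm ℝ u w
  by_cases h1 : ‖u + w‖ ^ 2 ≤ ‖u‖ ^ 2 + ‖w‖ ^ 2
  · exact ⟨1, abs_one, by rwa [one_smul]⟩
  · refine ⟨-1, by rw [abs_neg, abs_one], ?_⟩
    rw [neg_smul, one_smul, ← sub_eq_add_neg]
    nlinarith

/-- The inductive construction. -/
lemma construct {W : Submodule ℝ L2} (hW : ¬ FiniteDimensional ℝ W) {L : W →ₗ[ℝ] (ℕ → ℝ)} {C : ℝ}
    (hL : ∀ x : W, Bd (C * ‖x‖) (kp x - L x)) {δ : ℝ} (hδ : 0 < δ) (hδ1 : δ ≤ 1 / 2)
    (m : ℕ) :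
    ∃ (N : ℕ) (S : W) (B V u : L2) (KB KV : ℕ → ℝ), (S : L2) = B + V ∧ (∀ n, N ≤ n → B n = 0) ∧
      (m : ℝ) / 4 ≤ ‖B‖ ^ 2 ∧ ‖B‖ ^ 2 ≤ m ∧ ‖V‖ ≤ m * δ ∧ L S = ⇑u + KB + KV ∧
      ‖u‖ ^ 2 ≤ m * (C + 12) ^ 2 ∧ (∀ n, ∃ ρ : ℝ, ρ ≤ 0 ∧ KB n = B n * (Real.log |B n| - ρ)) ∧
      Bd (6 * (m ^ 2 * δ)) (kp V - KV) := by
  induction m with
  | zero =>
    refine ⟨0, 0, 0, 0, 0, 0, 0, by simp, fun n _ => rfl, by simp, by simp, by simp, ?_, by simp,
      fun n => ⟨0, le_rfl, ?_⟩, ?_⟩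
    · rw [map_zero]
      funext n
      show (0 : ℝ) = (0 : ℝ) + 0 + 0
      norm_num
    · simp
    · rw [kp_zero, sub_zero]
      exact Bd.zero.mono (by simp)
  | succ m ih =>
    obtain ⟨N, S, B, V, u, KB, KV, hS, hB, hB1, hB2, hV, hLS, hu, hKB, hKV⟩ := ih
    obtain ⟨w, hwW, hw1, hwN⟩ := exists_unit hW N
    obtain ⟨N', hN'1, hN'2⟩ : ∃ N', N ≤ N' ∧ ‖Tl N' w‖ < δ := by
      have h1 : Tendsto (fun m => ‖Tl m w‖) atTop (𝓝 0) := by
        have := (Tl_tendsto w).norm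
        rwa [norm_zero] at this
      exact ((eventually_ge_atTop N).and (h1.eventually (gt_mem_nhds hδ))).exists
    set v : L2 := Tl N' w with hv
    set b : L2 := w - v with hb
    have hwbv : w = b + v := by rw [hb]; abel
    have hbn : ∀ n, b n = if N ≤ n ∧ n < N' then w n else 0 := by
      intro n
      rw [hb, lp.coeFn_sub, Pi.sub_apply, hv, Tl_apply]
      by_cases h1 : N' ≤ n
      · rw [if_pos h1, if_neg (by omega), sub_self]
      · rw [if_neg h1, sub_zero]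
        by_cases h2 : N ≤ n
        · rw [if_pos (by omega)]
        · rw [if_neg (by omega), hwN n (by omega)]
    have hbw : ‖b‖ ≤ 1 := by
      refine le_of_pow_le_pow_left₀ two_ne_zero zero_le_one ?_
      rw [← hw1, norm_sq, norm_sq]
      refine Summable.tsum_le_tsum (fun n => ?_) (summable_sq b) (summable_sq w)
      rw [hbn]
      split_ifs
      · exact le_rfl
      · rw [zero_pow two_ne_zero]; positivity
    have hb2 : 1 / 2 ≤ ‖b‖ := by
      have h1 : ‖w‖ ≤ ‖b‖ + ‖v‖ := by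
        nth_rewrite 1 [hwbv]
        exact norm_add_le _ _
      linarith
    -- the new error vector
    obtain ⟨z, hz, hzn⟩ : Bd (C + 12) (L ⟨w, hwW⟩ - kp b - kp v) := by
      have h1 := hL ⟨w, hwW⟩
      have h2 : ‖(⟨w, hwW⟩ : W)‖ = 1 := hw1
      rw [h2, mul_one] at h1
      have h3 := kp_quasi b v
      rw [← hwbv] at h3
      have h4 : L ⟨w, hwW⟩ - kp b - kp v = (kp w - kp b - kp v) - (kp w - L ⟨w, hwW⟩) := by abel
      rw [h4]
      refine (h3.sub h1).mono ?_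
      linarith
    obtain ⟨ε, hε, hε2⟩ := exists_sign u z
    have hε0 : ε ≠ 0 := by
      rintro rfl
      rw [abs_zero] at hε
      exact zero_ne_one hε
    have hεsq : ε ^ 2 = 1 := by rw [← sq_abs, hε, one_pow]
    refine ⟨N', S + ε • ⟨w, hwW⟩, B + ε • b, V + ε • v, u + ε • z, KB + ε • kp b, KV + ε • kp v,
      ?_, ?_, ?_, ?_, ?_, ?_, ?_, ?_, ?_⟩
    · show (S : L2) + ε • w = _
      rw [hS, hwbv, smul_add]
      abel
    · intro n hn
      rw [lp.coeFn_add, Pi.add_apply, lp.coeFn_smul, Pi.smul_apply, hB n (hN'1.trans hn), hbn,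
        if_neg (by omega), smul_zero, add_zero]
    all_goals
      have hnorm : ‖B + ε • b‖ ^ 2 = ‖B‖ ^ 2 + ‖b‖ ^ 2 := by
        rw [norm_sq, norm_sq, norm_sq, ← (summable_sq B).tsum_add (summable_sq b)]
        refine tsum_congr fun n => ?_
        rw [lp.coeFn_add, Pi.add_apply, lp.coeFn_smul, Pi.smul_apply, smul_eq_mul]
        by_cases h1 : N ≤ n
        · rw [hB n h1, zero_add, mul_pow, hεsq]
          ring
        · rw [hbn, if_neg (by omega)]
          ring
    · rw [hnorm]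
      push_cast
      nlinarith
    · rw [hnorm]
      push_cast
      nlinarith [norm_nonneg b]
    · refine (norm_add_le _ _).trans ?_
      rw [norm_smul, Real.norm_eq_abs, hε, one_mul]
      push_cast
      linarith
    · rw [map_add, map_smul, hLS]
      funext n
      have h1 := hz n
      simp only [Pi.add_apply, Pi.smul_apply, Pi.sub_apply, smul_eq_mul] at h1 ⊢
      rw [lp.coeFn_add, Pi.add_apply, lp.coeFn_smul, Pi.smul_apply, smul_eq_mul, h1]
      ring
    · refine hε2.trans ?_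
      have h1 : ‖z‖ ^ 2 ≤ (C + 12) ^ 2 := pow_le_pow_left₀ (norm_nonneg _) hzn 2
      push_cast
      linarith
    · intro n
      by_cases h1 : N ≤ n
      · obtain ⟨ρ, _, hρ⟩ := hKB n
        have h0 : KB n = 0 := by rw [hρ, hB n h1, zero_mul]
        have hBn : (B + ε • b : L2) n = ε * b n := by
          rw [lp.coeFn_add, Pi.add_apply, lp.coeFn_smul, Pi.smul_apply, hB n h1, zero_add,
            smul_eq_mul]
        rw [hBn, Pi.add_apply, h0, zero_add, Pi.smul_apply, smul_eq_mul]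
        by_cases hbz : b n = 0
        · exact ⟨0, le_rfl, by simp [kp, hbz]⟩
        · refine ⟨Real.log ‖b‖, Real.log_nonpos (norm_nonneg _) hbw, ?_⟩
          have hb3 : 0 < ‖b‖ := by linarith
          rw [abs_mul, hε, one_mul]
          unfold kp
          rw [Real.log_div (abs_ne_zero.2 hbz) hb3.ne']
          ring
      · have h2 : b n = 0 := by rw [hbn, if_neg (by omega)]
        have hBn : (B + ε • b : L2) n = B n := by
          rw [lp.coeFn_add, Pi.add_apply, lp.coeFn_smul, Pi.smul_apply, h2, smul_zero, add_zero]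
        rw [hBn]
        obtain ⟨ρ, hρ0, hρ⟩ := hKB n
        refine ⟨ρ, hρ0, ?_⟩
        rw [Pi.add_apply, hρ, Pi.smul_apply]
        simp [kp, h2]
    · have h1 := kp_quasi V (ε • v)
      have h2 : kp (V + ε • v) - (KV + ε • kp v) =
          (kp (V + ε • v) - kp V - kp (ε • v)) + (kp V - KV) := by
        rw [kp_smul]; abel
      rw [h2]
      refine (h1.add hKV).mono ?_
      have h3 : ‖ε • v‖ ≤ δ := by
        rw [norm_smul, Real.norm_eq_abs, hε, one_mul]
        exact hN'2.le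
      push_cast
      nlinarith

/-- The Kalton–Peck map is not trivial on any infinite dimensional subspace, even with linear maps
that take values in the space of all sequences. -/
theorem kp_singular {W : Submodule ℝ L2} (hW : ¬ FiniteDimensional ℝ W) (L : W →ₗ[ℝ] (ℕ → ℝ))
    {C : ℝ} (hC : 0 ≤ C) (hL : ∀ x : W, Bd (C * ‖x‖) (kp x - L x)) : False := by
  -- choose `m` large
  set D : ℝ := 3 * C + 48 with hD
  obtain ⟨k, hk⟩ := exists_nat_gt (Real.exp (2 * D))
  set m : ℕ := (2 * k + 2) ^ 2 with hm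
  have hk0 : (0 : ℝ) ≤ k := Nat.cast_nonneg k
  have hsm : Real.sqrt m = 2 * k + 2 := by
    rw [hm]
    push_cast
    exact Real.sqrt_sq (by positivity)
  set s : ℝ := Real.sqrt m with hs
  have hs1 : 2 ≤ s := by rw [hsm]; linarith
  have hms : (m : ℝ) = s ^ 2 := (Real.sq_sqrt (Nat.cast_nonneg m)).symm
  set δ : ℝ := 1 / (2 * s ^ 4) with hδ
  have hs4 : 1 ≤ s ^ 4 := one_le_pow₀ (by linarith)
  have hδ0 : 0 < δ := by positivity
  have hδ1 : δ ≤ 1 / 2 := by
    rw [hδ]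
    exact one_div_le_one_div_of_le (by norm_num) (by linarith)
  obtain ⟨N, S, B, V, u, KB, KV, hS, hB, hB1, hB2, hV, hLS, hu, hKB, hKV⟩ :=
    construct hW hL hδ0 hδ1 m
  rw [hms] at hB1 hB2 hV hu hKV
  have hm2δ : (s ^ 2) ^ 2 * δ ≤ 1 := by
    rw [hδ, ← pow_mul, mul_one_div, div_le_one (by positivity)]
    show s ^ 4 ≤ 2 * s ^ 4
    linarith
  have hmδ : s ^ 2 * δ ≤ 1 := by
    refine le_trans ?_ hm2δ
    refine mul_le_mul_of_nonneg_right ?_ hδ0.le
    nlinarith
  have hV1 : ‖V‖ ≤ 1 := hV.trans hmδ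
  have hBs : ‖B‖ ≤ s := le_of_pow_le_pow_left₀ two_ne_zero (by linarith) hB2
  have hBs2 : s / 2 ≤ ‖B‖ := by
    refine le_of_pow_le_pow_left₀ two_ne_zero (norm_nonneg _) ?_
    rw [div_pow]
    linarith
  have hus : ‖u‖ ≤ s * (C + 12) := by
    refine le_of_pow_le_pow_left₀ two_ne_zero (by positivity) ?_
    rw [mul_pow]
    exact hu
  have hSs : ‖S‖ ≤ s + 1 := by
    show ‖(S : L2)‖ ≤ _
    rw [hS]
    exact (norm_add_le _ _).trans (add_le_add hBs hV1)
  have hbd : Bd (D * s) (kp B - KB) := by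
    have h1 := hL S
    have h2 := kp_quasi B V
    rw [← hS] at h2
    have h3 : kp B - KB = ((kp (S : L2) - L S) - (kp (S : L2) - kp B - kp V)) + ⇑u - (kp V - KV) := by
      rw [hLS]; abel
    rw [h3]
    have h4 : Bd ‖u‖ ⇑u := ⟨u, fun _ => rfl, le_rfl⟩
    refine (((h1.sub h2).add h4).sub hKV).mono ?_
    have h5 : C * ‖S‖ ≤ C * (s + 1) := mul_le_mul_of_nonneg_left hSs hC
    have h6 : (s ^ 2) ^ 2 * δ ≤ 1 := hm2δ
    have h7 : 1 ≤ s := by linarith
    have h8 : C ≤ C * s := le_mul_of_one_le_right hC h7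
    nlinarith
  obtain ⟨f, hf, hfn⟩ := hbd
  have hB0 : 1 < ‖B‖ := by
    have : 1 < s / 2 := by rw [hsm]; linarith [Real.exp_pos (2 * D)]
    linarith
  have hlogB : 0 < Real.log ‖B‖ := Real.log_pos hB0
  have hlow : Real.log ‖B‖ * ‖B‖ ≤ ‖f‖ := by
    have h1 : ‖Real.log ‖B‖ • B‖ ≤ ‖f‖ := by
      refine le_of_pow_le_pow_left₀ two_ne_zero (norm_nonneg _) ?_
      rw [norm_sq, norm_sq]
      refine Summable.tsum_le_tsum (fun n => ?_) (summable_sq _) (summable_sq f)
      rw [lp.coeFn_smul, Pi.smul_apply, smul_eq_mul, hf]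
      obtain ⟨ρ, hρ0, hρ⟩ := hKB n
      rw [Pi.sub_apply, hρ]
      by_cases hBn : B n = 0
      · simp [kp, hBn]
      · unfold kp
        rw [Real.log_div (abs_ne_zero.2 hBn) (by linarith : ‖B‖ ≠ 0)]
        have h2 : B n * (Real.log |B n| - Real.log ‖B‖) - B n * (Real.log |B n| - ρ) =
            B n * (ρ - Real.log ‖B‖) := by ring
        rw [h2, mul_pow, mul_pow, mul_comm]
        refine mul_le_mul_of_nonneg_left ?_ (sq_nonneg _)
        rw [sq_le_sq, abs_of_pos hlogB, abs_of_neg (by linarith)]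
        linarith
    rwa [norm_smul, Real.norm_eq_abs, abs_of_pos hlogB] at h1
  have h1 : Real.log ‖B‖ * ‖B‖ ≤ D * s := hlow.trans hfn
  have h2 : Real.log ‖B‖ * (s / 2) ≤ D * s :=
    le_trans (mul_le_mul_of_nonneg_left hBs2 hlogB.le) h1
  have h3 : Real.log ‖B‖ ≤ 2 * D := by
    by_contra hlt
    push Not at hlt
    nlinarith
  have h4 : ‖B‖ ≤ Real.exp (2 * D) := by
    rw [← Real.exp_log (by linarith : 0 < ‖B‖)]
    exact Real.exp_le_exp.2 h3
  have h5 : (k : ℝ) < ‖B‖ := by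
    refine lt_of_lt_of_le ?_ hBs2
    rw [hsm]
    linarith
  linarith

/-- There is a linear map `Λ` from `ℓ²` to the space of all sequences such that `K - Λ` maps `ℓ²` to
`ℓ²`. -/
theorem exists_correction : ∃ Λ : L2 →ₗ[ℝ] (ℕ → ℝ), ∀ x, ∃ u : L2, ∀ n, u n = kp x n - Λ x n := by
  let R : Submodule ℝ (ℕ → ℝ) :=
    { carrier := {f | ∃ u : L2, ∀ n, u n = f n}
      add_mem' := by
        rintro f g ⟨u, hu⟩ ⟨v, hv⟩
        exact ⟨u + v, fun n => by rw [lp.coeFn_add, Pi.add_apply, hu, hv]; rfl⟩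
      zero_mem' := ⟨0, fun n => rfl⟩
      smul_mem' := by
        rintro c f ⟨u, hu⟩
        exact ⟨c • u, fun n => by rw [lp.coeFn_smul, Pi.smul_apply, hu]; rfl⟩ }
  let Kb : L2 →ₗ[ℝ] (ℕ → ℝ) ⧸ R :=
    { toFun := fun x => R.mkQ (kp x)
      map_add' := fun x y => by
        rw [← map_add, ← sub_eq_zero, ← map_sub]
        rw [Submodule.mkQ_apply, Submodule.Quotient.mk_eq_zero]
        obtain ⟨d, hd, _⟩ := kp_quasi x y
        refine ⟨d, fun n => ?_⟩
        rw [hd]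
        simp only [Pi.sub_apply, Pi.add_apply]
        ring
      map_smul' := fun c x => by
        rw [kp_smul, map_smul]; rfl }
  obtain ⟨s, hs⟩ := R.mkQ.exists_rightInverse_of_surjective (Submodule.range_mkQ R)
  refine ⟨s.comp Kb, fun x => ?_⟩
  have h1 : R.mkQ (kp x - s.comp Kb x) = 0 := by
    rw [map_sub]
    have h2 : R.mkQ (s (Kb x)) = Kb x := LinearMap.congr_fun hs (Kb x)
    rw [LinearMap.comp_apply, h2]
    exact sub_self _
  rw [Submodule.mkQ_apply, Submodule.Quotient.mk_eq_zero] at h1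
  exact h1

end Pool.Agent.R283.KP
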