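import Pool.Agent.R283.SmoothSA

set_option autoImplicit false
open Filter Topology Set

namespace Pool.Agent.R283.SmoothSA

variable {X : Type*} [NormedAddCommGroup X] [NormedSpace ℂ X]
variable {J : X → (X →L[ℂ] ℂ)}

lemma re_duality_le (hJ : IsDualityMap J) (x w : X) : |(J x w).re| ≤ ‖x‖ * ‖w‖ := by
  calc |(J x w).re| ≤ ‖J x w‖ := Complex.abs_re_le_norm _
    _ ≤ ‖J x‖ * ‖w‖ := (J x).le_opNorm w
    _ = ‖x‖ * ‖w‖ := by rw [(hJ x).1]

/-- `J y (R (R y)) = ‖R y‖²` for self-adjoint `R`. -/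
lemma sa_energy (hJ : IsDualityMap J) {R : X →L[ℂ] X} (hR : IsSelfAdj J R) (y : X) :
    (J y ((R * R) y)).re = ‖R y‖ ^ 2 := by
  have h1 : J y ((R * R) y) = J (R y) (R y) := by
    rw [hR y]; rfl
  rw [h1, (hJ _).2, Complex.ofReal_re]

/-- Energy identity: if `y' = R² y` then `(‖y‖²)' = 2 ‖R y‖²`. -/
lemma energy_hasDerivAt (hJ : IsDualityMap J) {R : X →L[ℂ] X} (hR : IsSelfAdj J R)
    {y : ℝ → X} {s : ℝ} (hy : HasDerivAt y ((R * R) (y s)) s) :
    HasDerivAt (fun t => ‖y t‖ ^ 2) (2 * ‖R (y s)‖ ^ 2) s := by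
  have hcont : ContinuousAt y s := hy.continuousAt
  set B : X →L[ℂ] X := R * R with hB
  rw [hasDerivAt_iff_isLittleO] at hy ⊢
  -- the bound
  have hr2 : (fun t => (t - s) • B (y t - y s)) =o[𝓝 s] fun t => t - s := by
    have h1 : Tendsto (fun t => B (y t - y s)) (𝓝 s) (𝓝 0) := by
      have h2 : Tendsto (fun t => y t - y s) (𝓝 s) (𝓝 (y s - y s)) := hcont.sub tendsto_const_nhds
      rw [sub_self] at h2
      have h3 := (B.continuous.tendsto 0).comp h2
      rwa [map_zero] at h3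
    have h4 : (fun t => B (y t - y s)) =o[𝓝 s] fun _ => (1 : ℝ) :=
      (Asymptotics.isLittleO_one_iff ℝ).2 h1
    have h5 := (Asymptotics.isBigO_refl (fun t : ℝ => t - s) (𝓝 s)).smul_isLittleO h4
    simpa using h5
  have hr3 : (fun t => (t - s) * (‖R (y t)‖ ^ 2 - ‖R (y s)‖ ^ 2)) =o[𝓝 s] fun t => t - s := by
    have h1 : Tendsto (fun t => ‖R (y t)‖ ^ 2 - ‖R (y s)‖ ^ 2) (𝓝 s) (𝓝 0) := by
      have h2 : Tendsto (fun t => ‖R (y t)‖ ^ 2) (𝓝 s) (𝓝 (‖R (y s)‖ ^ 2)) :=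
        (((R.continuous.tendsto _).comp hcont).norm).pow 2
      have h3 := h2.sub_const (‖R (y s)‖ ^ 2)
      rwa [sub_self] at h3
    have h4 : (fun t => ‖R (y t)‖ ^ 2 - ‖R (y s)‖ ^ 2) =o[𝓝 s] fun _ => (1 : ℝ) :=
      (Asymptotics.isLittleO_one_iff ℝ).2 h1
    have h5 := (Asymptotics.isBigO_refl (fun t : ℝ => t - s) (𝓝 s)).mul_isLittleO h4
    simpa using h5
  have hb : (fun t => y t) =O[𝓝 s] fun _ => (1 : ℝ) :=
    hcont.isBigO_one ℝ
  -- error functions
  have he1 : (fun t => 2 * (‖y s‖ * ‖y t - y s - (t - s) • B (y s)‖)) =o[𝓝 s] fun t => t - s :=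
    ((hy.norm_left).const_mul_left _).const_mul_left _
  have he2 : (fun t => 2 * (‖y t‖ * ‖(y t - y s - (t - s) • B (y s)) -
      (t - s) • B (y t - y s)‖)) =o[𝓝 s] fun t => t - s := by
    have h1 := hb.norm_left.mul_isLittleO ((hy.sub hr2).norm_left)
    have h2 := h1.const_mul_left 2
    simpa using h2
  have he3 : (fun t => 2 * |(t - s) * (‖R (y t)‖ ^ 2 - ‖R (y s)‖ ^ 2)|) =o[𝓝 s] fun t => t - s :=
    (hr3.norm_left).const_mul_left _
  refine (Asymptotics.IsBigO.of_bound 1 (Eventually.of_forall fun t => ?_)).trans_isLittleO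
    ((he1.add he2).add he3)
  rw [one_mul]
  set r1 : X := y t - y s - (t - s) • B (y s) with hr1
  have hsm : ∀ (a : ℝ) (z w : X), (J z (a • w)).re = a * (J z w).re := by
    intro a z w
    rw [← Complex.coe_smul a w, map_smul, smul_eq_mul, Complex.re_ofReal_mul]
  have low : 2 * ((t - s) * ‖R (y s)‖ ^ 2) - 2 * (‖y s‖ * ‖r1‖) ≤ ‖y t‖ ^ 2 - ‖y s‖ ^ 2 := by
    have h1 := subgrad hJ (y s) (y t)
    have h2 : y t - y s = (t - s) • B (y s) + r1 := by rw [hr1]; abel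
    rw [h2, map_add, Complex.add_re, hsm, sa_energy hJ hR] at h1
    have h3 := (abs_le.1 (re_duality_le hJ (y s) r1)).1
    linarith
  have up : ‖y t‖ ^ 2 - ‖y s‖ ^ 2 ≤ 2 * ((t - s) * ‖R (y t)‖ ^ 2) +
      2 * (‖y t‖ * ‖r1 - (t - s) • B (y t - y s)‖) := by
    have h1 := subgrad hJ (y t) (y s)
    have h2 : y s - y t = -((t - s) • B (y t) + (r1 - (t - s) • B (y t - y s))) := by
      rw [hr1, map_sub, smul_sub]; abel
    rw [h2, map_neg, Complex.neg_re, map_add, Complex.add_re, hsm, sa_energy hJ hR] at h1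
    have h3 := (abs_le.1 (re_duality_le hJ (y t) (r1 - (t - s) • B (y t - y s)))).2
    linarith
  have h3 : (t - s) * ‖R (y t)‖ ^ 2 = (t - s) * ‖R (y s)‖ ^ 2 +
      (t - s) * (‖R (y t)‖ ^ 2 - ‖R (y s)‖ ^ 2) := by ring
  have h4 := le_abs_self ((t - s) * (‖R (y t)‖ ^ 2 - ‖R (y s)‖ ^ 2))
  have n1 : 0 ≤ ‖y s‖ * ‖r1‖ := by positivity
  have n2 : 0 ≤ ‖y t‖ * ‖r1 - (t - s) • B (y t - y s)‖ := by positivity
  have n3 : 0 ≤ |(t - s) * (‖R (y t)‖ ^ 2 - ‖R (y s)‖ ^ 2)| := abs_nonneg _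
  refine le_trans ?_ (le_abs_self _)
  rw [Real.norm_eq_abs, smul_eq_mul, abs_le]
  constructor
  · linarith
  · rw [h3] at up
    linarith

/-- `exp (s R²) x` solves the differential equation. -/
lemma exp_hasDerivAt [CompleteSpace X] (B : X →L[ℂ] X) (x : X) (s : ℝ) :
    HasDerivAt (fun t : ℝ => NormedSpace.exp (t • B) x) (B (NormedSpace.exp (s • B) x)) s := by
  have h1 : HasDerivAt (fun t : ℝ => NormedSpace.exp (t • B)) (B * NormedSpace.exp (s • B)) s :=
    hasDerivAt_exp_smul_const' B s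
  have h2 := ((ContinuousLinearMap.apply ℂ X x).restrictScalars ℝ).hasFDerivAt.comp_hasDerivAt s h1
  exact h2

/-- The energy. -/
lemma energy_deriv [CompleteSpace X] (hJ : IsDualityMap J) {R : X →L[ℂ] X} (hR : IsSelfAdj J R)
    (x : X) (s : ℝ) :
    HasDerivAt (fun t : ℝ => ‖NormedSpace.exp (t • (R * R)) x‖ ^ 2)
      (2 * ‖NormedSpace.exp (s • (R * R)) (R x)‖ ^ 2) s := by
  have h1 := energy_hasDerivAt hJ hR (exp_hasDerivAt (R * R) x s)
  have h2 : R (NormedSpace.exp (s • (R * R)) x) = NormedSpace.exp (s • (R * R)) (R x) := by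
    have h3 : Commute R (NormedSpace.exp (s • (R * R))) :=
      (((Commute.refl R).mul_right (Commute.refl R)).smul_right s).exp_right
    exact congrArg (fun V : X →L[ℂ] X => V x) h3.eq
  rw [h2] at h1
  exact h1

/-- remainder of the energy expansion -/
noncomputable def rem (R : X →L[ℂ] X) (k : ℕ) (s : ℝ) (x : X) : ℝ :=
  ‖NormedSpace.exp (s • (R * R)) x‖ ^ 2 -
    ∑ n ∈ Finset.range k, (2 * s) ^ n / n.factorial * ‖(R ^ n) x‖ ^ 2

lemma rem_deriv [CompleteSpace X] (hJ : IsDualityMap J) {R : X →L[ℂ] X} (hR : IsSelfAdj J R)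
    (k : ℕ) (x : X) (s : ℝ) :
    HasDerivAt (fun t : ℝ => rem R (k + 1) t x) (2 * rem R k s (R x)) s := by
  unfold rem
  have h1 := energy_deriv hJ hR x s
  have h2 : HasDerivAt (fun t : ℝ => ∑ n ∈ Finset.range (k + 1),
      (2 * t) ^ n / n.factorial * ‖(R ^ n) x‖ ^ 2)
      (2 * ∑ n ∈ Finset.range k, (2 * s) ^ n / n.factorial * ‖(R ^ n) (R x)‖ ^ 2) s := by
    have h3 : (2 * ∑ n ∈ Finset.range k, (2 * s) ^ n / n.factorial * ‖(R ^ n) (R x)‖ ^ 2) =
        ∑ n ∈ Finset.range (k + 1),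
          ((n : ℝ) * (2 * s) ^ (n - 1) * 2) / n.factorial * ‖(R ^ n) x‖ ^ 2 := by
      rw [Finset.sum_range_succ', Finset.mul_sum]
      simp only [Nat.cast_zero, zero_mul, zero_div, add_zero]
      refine Finset.sum_congr rfl fun n _ => ?_
      have e1 : (R ^ (n + 1)) x = (R ^ n) (R x) := by rw [pow_succ]; rfl
      rw [e1, Nat.factorial_succ, Nat.add_sub_cancel]
      push_cast
      have : (n : ℝ) + 1 ≠ 0 := by positivity
      have : (n.factorial : ℝ) ≠ 0 := by positivity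
      field_simp
    rw [h3]
    refine HasDerivAt.fun_sum fun n _ => ?_
    refine HasDerivAt.mul_const (HasDerivAt.div_const ?_ _) _
    have h4 : HasDerivAt (fun t : ℝ => 2 * t) 2 s := by
      simpa using (hasDerivAt_id s).const_mul 2
    exact h4.pow n
  have h5 := h1.sub h2
  rw [← mul_sub] at h5
  exact h5

lemma rem_bound [CompleteSpace X] (hJ : IsDualityMap J) {R : X →L[ℂ] X} (hR : IsSelfAdj J R)
    {s₀ C : ℝ} (hC0 : 0 ≤ C)
    (hC : ∀ s ∈ Icc 0 s₀, ∀ x, ‖NormedSpace.exp (s • (R * R)) x‖ ^ 2 ≤ C * ‖x‖ ^ 2) (k : ℕ) :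
    ∀ x, ∀ s ∈ Icc 0 s₀, |rem R k s x| ≤ C * ‖x‖ ^ 2 * ((2 * ‖R‖ ^ 2 * s) ^ k / k.factorial) := by
  induction k with
  | zero =>
    intro x s hs
    simp only [rem, Finset.range_zero, Finset.sum_empty, sub_zero, pow_zero, Nat.factorial_zero,
      Nat.cast_one, div_one, mul_one]
    rw [abs_of_nonneg (by positivity)]
    exact hC s hs x
  | succ k ih =>
    intro x
    have hB : ∀ t : ℝ, HasDerivAt (fun t => C * ‖x‖ ^ 2 * ((2 * ‖R‖ ^ 2 * t) ^ (k + 1) /
        (k + 1).factorial)) (2 * (C * ‖R‖ ^ 2 * ‖x‖ ^ 2 * ((2 * ‖R‖ ^ 2 * t) ^ k / k.factorial))) t := by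
      intro t
      have h4 : HasDerivAt (fun t : ℝ => 2 * ‖R‖ ^ 2 * t) (2 * ‖R‖ ^ 2) t := by
        simpa using (hasDerivAt_id t).const_mul (2 * ‖R‖ ^ 2)
      have h5 := ((h4.pow (k + 1)).div_const ((k + 1).factorial : ℝ)).const_mul (C * ‖x‖ ^ 2)
      refine (h5.congr_deriv ?_)
      rw [Nat.factorial_succ, Nat.add_sub_cancel]
      push_cast
      have : (k : ℝ) + 1 ≠ 0 := by positivity
      have : (k.factorial : ℝ) ≠ 0 := by positivity
      field_simp
    have h0 : rem R (k + 1) 0 x = 0 := by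
      simp only [rem, zero_smul, NormedSpace.exp_zero, mul_zero]
      rw [Finset.sum_range_succ']
      simp
    have key := image_norm_le_of_norm_deriv_right_le_deriv_boundary
      (f := fun t => rem R (k + 1) t x) (f' := fun t => 2 * rem R k t (R x)) (a := 0) (b := s₀)
      (B := fun t => C * ‖x‖ ^ 2 * ((2 * ‖R‖ ^ 2 * t) ^ (k + 1) / (k + 1).factorial))
      (B' := fun t => 2 * (C * ‖R‖ ^ 2 * ‖x‖ ^ 2 * ((2 * ‖R‖ ^ 2 * t) ^ k / k.factorial)))
      (fun t _ => (rem_deriv hJ hR k x t).continuousAt.continuousWithinAt)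
      (fun t _ => (rem_deriv hJ hR k x t).hasDerivWithinAt)
      (by
        show ‖rem R (k + 1) 0 x‖ ≤ _
        rw [h0, norm_zero]
        positivity)
      hB
      (by
        intro t ht
        rw [norm_mul, Real.norm_of_nonneg (by norm_num : (0 : ℝ) ≤ 2), Real.norm_eq_abs]
        refine mul_le_mul_of_nonneg_left ?_ (by norm_num)
        refine (ih (R x) t (Ico_subset_Icc_self ht)).trans ?_
        have ht0 : 0 ≤ t := ht.1
        refine mul_le_mul_of_nonneg_right ?_ (by positivity)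
        rw [mul_assoc]
        refine mul_le_mul_of_nonneg_left ?_ hC0
        have := R.le_opNorm x
        calc ‖R x‖ ^ 2 ≤ (‖R‖ * ‖x‖) ^ 2 := pow_le_pow_left₀ (norm_nonneg _) this 2
          _ = ‖R‖ ^ 2 * ‖x‖ ^ 2 := by ring)
    intro s hs
    exact key hs

/-- The energy expansion: `‖exp(sR²)x‖² = Σ (2s)ⁿ/n! ‖Rⁿx‖²` for `s ≥ 0`. -/
lemma energy_tendsto [CompleteSpace X] (hJ : IsDualityMap J) {R : X →L[ℂ] X}
    (hR : IsSelfAdj J R) {s : ℝ} (hs : 0 ≤ s) (x : X) :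
    Tendsto (fun k => ∑ n ∈ Finset.range k, (2 * s) ^ n / n.factorial * ‖(R ^ n) x‖ ^ 2) atTop
      (𝓝 (‖NormedSpace.exp (s • (R * R)) x‖ ^ 2)) := by
  obtain ⟨C, hC0, hC⟩ : ∃ C : ℝ, 0 ≤ C ∧ ∀ t ∈ Icc 0 s, ∀ x : X,
      ‖NormedSpace.exp (t • (R * R)) x‖ ^ 2 ≤ C * ‖x‖ ^ 2 := by
    have hc : Continuous fun t : ℝ => ‖NormedSpace.exp (t • (R * R))‖ := by
      refine continuous_norm.comp ?_
      let _ : NormedAlgebra ℚ (X →L[ℂ] X) := .restrictScalars ℚ ℝ _
      exact NormedSpace.exp_continuous.comp (continuous_id.smul continuous_const)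
    obtain ⟨M, hM⟩ := (isCompact_Icc (a := (0 : ℝ)) (b := s)).bddAbove_image hc.continuousOn
    refine ⟨M ^ 2, sq_nonneg _, fun t ht x => ?_⟩
    have h1 : ‖NormedSpace.exp (t • (R * R))‖ ≤ M := hM ⟨t, ht, rfl⟩
    have h2 := (NormedSpace.exp (t • (R * R))).le_opNorm x
    calc ‖NormedSpace.exp (t • (R * R)) x‖ ^ 2 ≤ (‖NormedSpace.exp (t • (R * R))‖ * ‖x‖) ^ 2 :=
          pow_le_pow_left₀ (norm_nonneg _) h2 2
      _ ≤ (M * ‖x‖) ^ 2 :=
          pow_le_pow_left₀ (by positivity) (mul_le_mul_of_nonneg_right h1 (norm_nonneg _)) 2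
      _ = M ^ 2 * ‖x‖ ^ 2 := by ring
  have hlim : Tendsto (fun k => C * ‖x‖ ^ 2 * ((2 * ‖R‖ ^ 2 * s) ^ k / (k.factorial : ℝ))) atTop
      (𝓝 0) := by
    have := (FloorSemiring.tendsto_pow_div_factorial_atTop (2 * ‖R‖ ^ 2 * s)).const_mul
      (C * ‖x‖ ^ 2)
    simpa using this
  have h1 : Tendsto (fun k => rem R k s x) atTop (𝓝 0) := by
    refine squeeze_zero_norm (fun k => ?_) hlim
    exact rem_bound hJ hR hC0 hC k x s ⟨hs, le_rfl⟩
  have h2 := h1.const_sub (‖NormedSpace.exp (s • (R * R)) x‖ ^ 2)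
  simp only [rem, sub_sub_cancel, sub_zero] at h2
  exact h2

/-- `exp (s R²)` is self-adjoint for `s ≥ 0`. -/
lemma sa_exp_nonneg [CompleteSpace X] (hs : IsSmoothSpace X) (hJ : IsDualityMap J)
    {R : X →L[ℂ] X} (hR : IsSelfAdj J R) {s : ℝ} (hs0 : 0 ≤ s) :
    IsSelfAdj J (NormedSpace.exp (s • (R * R))) := by
  set B : X →L[ℂ] X := R * R with hB
  set E : X →L[ℂ] X := NormedSpace.exp (s • B) with hE
  -- convexity inequality
  have key : ∀ x y : X, ‖E x‖ ^ 2 + 2 * (J x (NormedSpace.exp ((2 * s) • B) (y - x))).re ≤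
      ‖E y‖ ^ 2 := by
    intro x y
    have h1 := energy_tendsto hJ hR hs0 x
    have h2 := energy_tendsto hJ hR hs0 y
    have h3 : Tendsto (fun k => ∑ n ∈ Finset.range k, (2 * s) ^ n / n.factorial *
        (J x ((B ^ n) (y - x))).re) atTop
        (𝓝 (J x (NormedSpace.exp ((2 * s) • B) (y - x))).re) := by
      have h4 : HasSum (fun n : ℕ => ((n.factorial : ℝ)⁻¹) • ((2 * s) • B) ^ n)
          (NormedSpace.exp ((2 * s) • B)) := NormedSpace.exp_series_hasSum_exp' _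
      let L : (X →L[ℂ] X) →L[ℝ] ℝ := Complex.reCLM.comp
        (((J x).comp (ContinuousLinearMap.apply ℂ X (y - x))).restrictScalars ℝ)
      have h5 := (L.hasSum h4).tendsto_sum_nat
      refine (tendsto_congr fun k => ?_).1 h5
      refine Finset.sum_congr rfl fun n _ => ?_
      have h6 : L (((n.factorial : ℝ)⁻¹) • ((2 * s) • B) ^ n) =
          (2 * s) ^ n / n.factorial * L (B ^ n) := by
        rw [map_smul, smul_pow, map_smul, smul_eq_mul, smul_eq_mul]
        ring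
      exact h6
    have h7 := (h1.add (h3.const_mul 2))
    refine le_of_tendsto_of_tendsto' h7 h2 fun k => ?_
    rw [Finset.mul_sum, ← Finset.sum_add_distrib]
    refine Finset.sum_le_sum fun n _ => ?_
    have h8 := subgrad hJ ((R ^ n) x) ((R ^ n) y)
    rw [← map_sub, ← sa_inner hR n] at h8
    have h9 : (0 : ℝ) ≤ (2 * s) ^ n / n.factorial := by positivity
    calc (2 * s) ^ n / n.factorial * ‖(R ^ n) x‖ ^ 2 +
          2 * ((2 * s) ^ n / n.factorial * (J x ((B ^ n) (y - x))).re)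
        = (2 * s) ^ n / n.factorial * (‖(R ^ n) x‖ ^ 2 + 2 * (J x ((B ^ n) (y - x))).re) := by
          ring
      _ ≤ (2 * s) ^ n / n.factorial * ‖(R ^ n) y‖ ^ 2 := mul_le_mul_of_nonneg_left h8 h9
  intro x
  symm
  refine eq_of_subgrad hs hJ ?_
  intro w
  set F : X →L[ℂ] X := NormedSpace.exp ((-s) • B) with hF
  have hEF : E * F = 1 := by
    let _ : NormedAlgebra ℚ (X →L[ℂ] X) := .restrictScalars ℚ ℝ _
    rw [hE, hF, ← NormedSpace.exp_add_of_commute, ← add_smul, add_neg_cancel, zero_smul,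
      NormedSpace.exp_zero]
    exact ((Commute.refl B).smul_left s).smul_right (-s)
  have hEE : NormedSpace.exp ((2 * s) • B) = E * E := by
    let _ : NormedAlgebra ℚ (X →L[ℂ] X) := .restrictScalars ℚ ℝ _
    rw [hE, ← NormedSpace.exp_add_of_commute, ← add_smul, two_mul]
    exact ((Commute.refl B).smul_left s).smul_right s
  have h1 := key x (F w)
  have h2 : E (F w) = w := congrArg (fun V : X →L[ℂ] X => V w) hEF
  have h3 : NormedSpace.exp ((2 * s) • B) (F w - x) = E (w - E x) := by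
    rw [hEE]
    show E (E (F w - x)) = _
    rw [map_sub E (F w) x, h2]
  rw [h2, h3] at h1
  exact h1

/-- `exp (s R²)` is self-adjoint for every real `s`. -/
lemma sa_exp_smul [CompleteSpace X] (hs : IsSmoothSpace X) (hJ : IsDualityMap J)
    {R : X →L[ℂ] X} (hR : IsSelfAdj J R) (s : ℝ) :
    IsSelfAdj J (NormedSpace.exp (s • (R * R))) := by
  rcases le_total 0 s with h | h
  · exact sa_exp_nonneg hs hJ hR h
  · refine sa_inv (sa_exp_nonneg hs hJ hR (neg_nonneg.2 h)) ?_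
    let _ : NormedAlgebra ℚ (X →L[ℂ] X) := .restrictScalars ℚ ℝ _
    rw [← NormedSpace.exp_add_of_commute, ← add_smul, neg_add_cancel, zero_smul,
      NormedSpace.exp_zero]
    exact ((Commute.refl _).smul_left _).smul_right _

end Pool.Agent.R283.SmoothSA
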