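import Pool.Agent.R283.SmoothExp

set_option autoImplicit false
open Filter Topology Set

namespace Pool.Agent.R283.SmoothSA

variable {X : Type*} [NormedAddCommGroup X] [NormedSpace ℂ X]
variable {J : X → (X →L[ℂ] ℂ)}

/-- `exp (p (T²))` is self-adjoint for every real polynomial `p`. -/
lemma sa_exp_aeval [CompleteSpace X] (hs : IsSmoothSpace X) (hJ : IsDualityMap J)
    {T : X →L[ℂ] X} (hT : IsSelfAdj J T) (p : Polynomial ℝ) :
    IsSelfAdj J (NormedSpace.exp (Polynomial.aeval (T * T) p)) := by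
  let _ : NormedAlgebra ℚ (X →L[ℂ] X) := .restrictScalars ℚ ℝ _
  induction p using Polynomial.induction_on' with
  | add p q hp hq =>
    have hc : Commute (Polynomial.aeval (T * T) p) (Polynomial.aeval (T * T) q) :=
      (Commute.all p q).map (Polynomial.aeval (T * T))
    rw [map_add, NormedSpace.exp_add_of_commute hc]
    exact sa_mul hp hq hc.exp
  | monomial n a =>
    have h1 : Polynomial.aeval (T * T) (Polynomial.monomial n a) = a • (T ^ n * T ^ n) := by
      rw [Polynomial.aeval_monomial, (Commute.refl T).mul_pow, Algebra.smul_def]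
    rw [h1]
    exact sa_exp_smul hs hJ (sa_pow hT n) a

/-- `exp b` is self-adjoint for every `b` in the closed real algebra generated by `T²`. -/
lemma sa_exp_elemental [CompleteSpace X] (hs : IsSmoothSpace X) (hJ : IsDualityMap J)
    {T : X →L[ℂ] X} (hT : IsSelfAdj J T) (b : Algebra.elemental ℝ (T * T)) :
    IsSelfAdj J (NormedSpace.exp (b : X →L[ℂ] X)) := by
  let _ : NormedAlgebra ℚ (X →L[ℂ] X) := .restrictScalars ℚ ℝ _
  have hcl : IsClosed {b : X →L[ℂ] X | IsSelfAdj J (NormedSpace.exp b)} :=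
    (isClosed_sa hs hJ).preimage NormedSpace.exp_continuous
  have hsub : ((Algebra.adjoin ℝ {T * T} : Subalgebra ℝ (X →L[ℂ] X)) : Set (X →L[ℂ] X)) ⊆
      {b : X →L[ℂ] X | IsSelfAdj J (NormedSpace.exp b)} := by
    intro b hb
    rw [Algebra.adjoin_singleton_eq_range_aeval] at hb
    obtain ⟨p, rfl⟩ := hb
    exact sa_exp_aeval hs hJ hT p
  exact closure_minimal hsub hcl b.2

/-- Small perturbations of `1` in `P` are self-adjoint, if `P` is a closed real algebra whose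
exponentials are self-adjoint. -/
lemma sa_near_one [CompleteSpace X] {P : Subalgebra ℝ (X →L[ℂ] X)}
    (hPc : IsClosed (P : Set (X →L[ℂ] X)))
    (hexp : ∀ b : P, IsSelfAdj J (NormedSpace.exp (b : X →L[ℂ] X))) :
    ∃ ε : ℝ, 0 < ε ∧ ∀ b : P, ‖b - 1‖ < ε → IsSelfAdj J (b : X →L[ℂ] X) := by
  have : CompleteSpace P := hPc.completeSpace_coe
  obtain ⟨ε, hε, h⟩ := local_exp (𝔸 := P)
  refine ⟨ε, hε, fun b hb => ?_⟩
  obtain ⟨q, hq⟩ := h (b - 1) hb
  rw [add_sub_cancel] at hq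
  have h2 : ((NormedSpace.exp q : P) : X →L[ℂ] X) = NormedSpace.exp (q : X →L[ℂ] X) := by
    refine NormedSpace.map_exp_of_mem_ball (𝕂 := ℝ) P.val continuous_subtype_val q ?_
    rw [NormedSpace.expSeries_radius_eq_top]
    exact edist_lt_top _ _
  rw [← hq, h2]
  exact hexp q

lemma elemental_comm {A : X →L[ℂ] X} {V : X →L[ℂ] X} (hV : Commute V A)
    (b : Algebra.elemental ℝ A) : Commute V (b : X →L[ℂ] X) := by
  have h1 := Algebra.elemental.le_centralizer_centralizer ℝ A b.2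
  rw [Subalgebra.mem_centralizer_iff] at h1
  refine h1 V ?_
  show V ∈ Subalgebra.centralizer ℝ {A}
  rw [Subalgebra.mem_centralizer_iff]
  intro g hg
  rw [mem_singleton_iff.1 hg]
  exact hV.eq.symm

/-- The square root of `1 - T²` for a self-adjoint contraction `T`, abstract form. -/
lemma exists_sqrt_aux [CompleteSpace X] (hs : IsSmoothSpace X) (hJ : IsDualityMap J)
    {P : Subalgebra ℝ (X →L[ℂ] X)} (hPc : IsClosed (P : Set (X →L[ℂ] X)))
    (hexp : ∀ b : P, IsSelfAdj J (NormedSpace.exp (b : X →L[ℂ] X)))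
    (hcomm : ∀ b c : P, Commute (b : X →L[ℂ] X) (c : X →L[ℂ] X)) (A : P) (hA1 : ‖A‖ ≤ 1) :
    ∃ S : P, IsSelfAdj J (S : X →L[ℂ] X) ∧ S * S = 1 - A := by
  have : CompleteSpace P := hPc.completeSpace_coe
  obtain ⟨S, hSc, hS0, hSS⟩ := exists_sqrt_path A hA1
  obtain ⟨ε, hε, hnear⟩ := sa_near_one hPc hexp
  set s : Set ℝ := {t | IsSelfAdj J (S t : X →L[ℂ] X)} with hsdef
  have hclosed : IsClosed (s ∩ Icc 0 1) := by
    have h1 := (continuous_subtype_val.comp_continuousOn hSc).preimage_isClosed_of_isClosed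
      isClosed_Icc (isClosed_sa hs hJ)
    rw [inter_comm]
    exact h1
  have h0 : (0 : ℝ) ∈ s := by
    show IsSelfAdj J (S 0 : X →L[ℂ] X)
    rw [hS0]
    exact sa_one
  have hsub : Icc (0 : ℝ) 1 ⊆ s := by
    refine IsClosed.Icc_subset_of_forall_exists_gt hclosed h0 ?_
    rintro x ⟨hxs, hx⟩ y hy
    have hxI : x ∈ Icc (0 : ℝ) 1 := Ico_subset_Icc_self hx
    have hunit : IsUnit (S x) := by
      have h1 : IsUnit (S x * S x) := by
        rw [hSS x hxI]
        refine isUnit_one_sub_of_norm_lt_one ?_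
        rw [norm_smul, Real.norm_of_nonneg hx.1]
        refine lt_of_le_of_lt (mul_le_mul_of_nonneg_left hA1 hx.1) ?_
        rw [mul_one]
        exact hx.2
      exact ((Commute.refl (S x)).isUnit_mul_iff.1 h1).1
    obtain ⟨U, hU1, hU2⟩ : ∃ U, S x * U = 1 ∧ U * S x = 1 := isUnit_iff_exists.1 hunit
    have hle : 𝓝[>] x ≤ 𝓝[Icc 0 1] x := nhdsWithin_le_of_mem (Icc_mem_nhdsGT_of_mem hx)
    have hlim : Tendsto (fun t => ‖U * S t - 1‖) (𝓝[>] x) (𝓝 0) := by
      have h1 : Tendsto S (𝓝[>] x) (𝓝 (S x)) := (hSc x hxI).mono_left hle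
      have h2 : Tendsto (fun t => ‖U * S t - 1‖) (𝓝[>] x) (𝓝 ‖U * S x - 1‖) :=
        ((h1.const_mul U).sub_const 1).norm
      rw [hU2, sub_self] at h2
      have h3 : ‖(0 : P)‖ = (0 : ℝ) := norm_zero
      exact h2.trans_eq (congrArg 𝓝 h3)
    have hev : ∀ᶠ t in 𝓝[>] x, ‖U * S t - 1‖ < ε := hlim.eventually (gt_mem_nhds hε)
    have hev2 : ∀ᶠ t in 𝓝[>] x, t ∈ Ioc x y := Ioc_mem_nhdsGT hy
    obtain ⟨t, ht1, ht2⟩ := (hev.and hev2).exists
    refine ⟨t, ?_, ht2⟩
    have h1 := hnear _ ht1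
    have h2 : S t = S x * (U * S t) := by rw [← mul_assoc, hU1, one_mul]
    show IsSelfAdj J (S t : X →L[ℂ] X)
    rw [h2]
    exact sa_mul hxs h1 (hcomm _ _)
  have h1I : (1 : ℝ) ∈ Icc (0 : ℝ) 1 := ⟨zero_le_one, le_rfl⟩
  refine ⟨S 1, hsub h1I, ?_⟩
  have h2 := hSS 1 h1I
  rwa [one_smul] at h2

/-- The square root of `1 - T²` for a self-adjoint contraction `T`. -/
theorem exists_sqrt_one [CompleteSpace X] (hs : IsSmoothSpace X) (hJ : IsDualityMap J)
    {T : X →L[ℂ] X} (hT : IsSelfAdj J T) (hT1 : ‖T‖ ≤ 1) :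
    ∃ S : X →L[ℂ] X, IsSelfAdj J S ∧ S * S = 1 - T * T ∧ Commute T S := by
  have hA1 : ‖(⟨T * T, Algebra.elemental.self_mem ℝ (T * T)⟩ : Algebra.elemental ℝ (T * T))‖ ≤ 1 := by
    show ‖T * T‖ ≤ 1
    refine (norm_mul_le _ _).trans ?_
    nlinarith [norm_nonneg T]
  obtain ⟨S, hS1, hS2⟩ := exists_sqrt_aux hs hJ (Algebra.elemental.isClosed ℝ (T * T))
    (sa_exp_elemental hs hJ hT)
    (fun b c => elemental_comm (elemental_comm (Commute.refl _) b).symm c) _ hA1
  exact ⟨S, hS1, congrArg Subtype.val hS2,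
    elemental_comm ((Commute.refl T).mul_right (Commute.refl T)) S⟩

/-- The square root of `c² - T²` for self-adjoint `T` with `‖T‖ ≤ c`. -/
theorem exists_sqrt [CompleteSpace X] (hs : IsSmoothSpace X) (hJ : IsDualityMap J)
    {T : X →L[ℂ] X} (hT : IsSelfAdj J T) {c : ℝ} (hTc : ‖T‖ ≤ c) :
    ∃ S : X →L[ℂ] X, IsSelfAdj J S ∧ S * S = (c ^ 2) • 1 - T * T ∧ Commute T S := by
  have hc0 : 0 ≤ c := (norm_nonneg T).trans hTc
  rcases hc0.eq_or_lt with hc | hc
  · subst hc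
    have hT0 : T = 0 := norm_le_zero_iff.1 hTc
    refine ⟨0, ?_, ?_, Commute.zero_right _⟩
    · have := sa_smul hs hJ (sa_one (J := J)) 0
      rwa [zero_smul] at this
    · rw [hT0]; simp
  · have h1 : ‖c⁻¹ • T‖ ≤ 1 := by
      rw [norm_smul, norm_inv, Real.norm_of_nonneg hc0, inv_mul_le_iff₀ hc, mul_one]
      exact hTc
    obtain ⟨S, hS1, hS2, hS3⟩ := exists_sqrt_one hs hJ (sa_smul hs hJ hT c⁻¹) h1
    refine ⟨c • S, sa_smul hs hJ hS1 c, ?_, ?_⟩
    · rw [smul_mul_smul_comm, hS2, smul_sub, smul_mul_smul_comm, smul_smul, ← sq c, ← sq c⁻¹,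
        ← mul_pow, mul_inv_cancel₀ hc.ne', one_pow, one_smul]
    · have h2 : Commute (c • (c⁻¹ • T)) S := hS3.smul_left c
      rw [smul_smul, mul_inv_cancel₀ hc.ne', one_smul] at h2
      exact h2.smul_right c

/-- A self-adjoint operator that is bounded below is invertible. -/
theorem isUnit_of_bddBelow [CompleteSpace X] (hJ : IsDualityMap J)
    {T : X →L[ℂ] X} (hT : IsSelfAdj J T) {μ : ℝ} (hμ : 0 < μ) (hb : ∀ x, μ * ‖x‖ ≤ ‖T x‖) :
    IsUnit T := by
  -- decay of the semigroup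
  have hdecay : ∀ x, ‖NormedSpace.exp ((-1 : ℝ) • (T * T)) x‖ ^ 2 ≤
      Real.exp (-(2 * μ ^ 2)) * ‖x‖ ^ 2 := by
    intro x
    set u : ℝ → ℝ := fun t => ‖NormedSpace.exp (t • (T * T)) x‖ ^ 2 with hu
    have hud : ∀ t, HasDerivAt u (2 * ‖NormedSpace.exp (t • (T * T)) (T x)‖ ^ 2) t :=
      fun t => energy_deriv hJ hT x t
    have hul : ∀ t, (2 * μ ^ 2) * u t ≤ 2 * ‖NormedSpace.exp (t • (T * T)) (T x)‖ ^ 2 := by
      intro t
      have h2 : T (NormedSpace.exp (t • (T * T)) x) = NormedSpace.exp (t • (T * T)) (T x) := by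
        have h3 : Commute T (NormedSpace.exp (t • (T * T))) :=
          (((Commute.refl T).mul_right (Commute.refl T)).smul_right t).exp_right
        exact congrArg (fun V : X →L[ℂ] X => V x) h3.eq
      have h3 := hb (NormedSpace.exp (t • (T * T)) x)
      rw [h2] at h3
      have h4 := pow_le_pow_left₀ (by positivity) h3 2
      rw [mul_pow] at h4
      show (2 * μ ^ 2) * ‖NormedSpace.exp (t • (T * T)) x‖ ^ 2 ≤ _
      nlinarith
    -- `v t = u t * exp (-2 μ² t)` is monotone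
    have hmono : Monotone fun t => u t * Real.exp (-(2 * μ ^ 2) * t) := by
      refine monotone_of_hasDerivAt_nonneg (f' := fun t =>
        (2 * ‖NormedSpace.exp (t • (T * T)) (T x)‖ ^ 2) * Real.exp (-(2 * μ ^ 2) * t) +
          u t * (Real.exp (-(2 * μ ^ 2) * t) * (-(2 * μ ^ 2)))) ?_ ?_
      · intro t
        have h4 : HasDerivAt (fun t : ℝ => -(2 * μ ^ 2) * t) (-(2 * μ ^ 2)) t := by
          simpa using (hasDerivAt_id t).const_mul (-(2 * μ ^ 2))
        exact (hud t).mul h4.exp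
      · intro t
        have h5 := hul t
        have h6 := Real.exp_pos (-(2 * μ ^ 2) * t)
        have h7 : (2 * ‖NormedSpace.exp (t • (T * T)) (T x)‖ ^ 2) * Real.exp (-(2 * μ ^ 2) * t) +
          u t * (Real.exp (-(2 * μ ^ 2) * t) * (-(2 * μ ^ 2))) =
          (2 * ‖NormedSpace.exp (t • (T * T)) (T x)‖ ^ 2 - (2 * μ ^ 2) * u t) *
            Real.exp (-(2 * μ ^ 2) * t) := by ring
        have h8 : 0 ≤ (2 * ‖NormedSpace.exp (t • (T * T)) (T x)‖ ^ 2 - (2 * μ ^ 2) * u t) *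
            Real.exp (-(2 * μ ^ 2) * t) := mul_nonneg (by linarith) h6.le
        rw [← h7] at h8
        exact h8
    have h8 := hmono (by norm_num : (-1 : ℝ) ≤ 0)
    simp only [mul_zero, Real.exp_zero, mul_one] at h8
    have h9 : u 0 = ‖x‖ ^ 2 := by
      simp [hu]
    rw [h9] at h8
    have h10 : -(2 * μ ^ 2) * -1 = 2 * μ ^ 2 := by ring
    rw [h10] at h8
    have h11 : Real.exp (-(2 * μ ^ 2)) * Real.exp (2 * μ ^ 2) = 1 := by
      rw [← Real.exp_add]; simp
    calc u (-1) = Real.exp (-(2 * μ ^ 2)) * (u (-1) * Real.exp (2 * μ ^ 2)) := by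
          rw [mul_comm (u (-1)), ← mul_assoc, h11, one_mul]
      _ ≤ Real.exp (-(2 * μ ^ 2)) * ‖x‖ ^ 2 := mul_le_mul_of_nonneg_left h8 (Real.exp_pos _).le
  have hnorm : ‖NormedSpace.exp ((-1 : ℝ) • (T * T))‖ < 1 := by
    have h1 : ‖NormedSpace.exp ((-1 : ℝ) • (T * T))‖ ≤ Real.exp (-(μ ^ 2)) := by
      refine ContinuousLinearMap.opNorm_le_bound _ (Real.exp_pos _).le fun x => ?_
      have h2 := hdecay x
      have h3 : Real.exp (-(2 * μ ^ 2)) * ‖x‖ ^ 2 = (Real.exp (-(μ ^ 2)) * ‖x‖) ^ 2 := by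
        rw [mul_pow, sq (Real.exp _), ← Real.exp_add]
        congr 2
        ring
      rw [h3] at h2
      exact (pow_le_pow_iff_left₀ (norm_nonneg _) (by positivity) two_ne_zero).1 h2
    refine h1.trans_lt ?_
    rw [Real.exp_lt_one_iff]
    have : 0 < μ ^ 2 := by positivity
    linarith
  have hunit : IsUnit (-((-1 : ℝ) • (T * T))) := by
    by_contra hcon
    have h0 : (0 : ℝ) ∈ spectrum ℝ ((-1 : ℝ) • (T * T)) := by
      rw [spectrum.mem_iff, map_zero, zero_sub]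
      exact hcon
    have h1 := spectrum.exp_mem_exp _ h0
    rw [NormedSpace.exp_zero, spectrum.mem_iff, map_one] at h1
    exact h1 (isUnit_one_sub_of_norm_lt_one hnorm)
  have h1 : IsUnit (T * T) := by
    have e : -((-1 : ℝ) • (T * T)) = T * T := by simp
    rwa [e] at hunit
  exact ((Commute.refl T).isUnit_mul_iff.1 h1).1

/-- A smooth space has exactly one duality map. -/
theorem existsUnique_dualityMap (hs : IsSmoothSpace X) :
    ∃! J : X → (X →L[ℂ] ℂ), IsDualityMap J := by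
  have hex : ∀ x : X, ∃ f : X →L[ℂ] ℂ, ‖f‖ = ‖x‖ ∧ f x = ((‖x‖ ^ 2 : ℝ) : ℂ) := by
    intro x
    by_cases hx : x = 0
    · refine ⟨0, ?_, ?_⟩
      · rw [hx, norm_zero, norm_zero]
      · rw [hx]; simp
    · have hn : 0 < ‖x‖ := norm_pos_iff.2 hx
      have hc : ((‖x‖ : ℝ) : ℂ) ≠ 0 := by exact_mod_cast hn.ne'
      obtain ⟨f, ⟨hf1, hf2⟩, _⟩ := hs (((‖x‖ : ℝ) : ℂ)⁻¹ • x) (by
        rw [norm_smul, norm_inv, Complex.norm_real, norm_norm, inv_mul_cancel₀ hn.ne'])
      rw [map_smul, smul_eq_mul, inv_mul_eq_div, div_eq_one_iff_eq hc] at hf2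
      refine ⟨((‖x‖ : ℝ) : ℂ) • f, ?_, ?_⟩
      · rw [norm_smul, Complex.norm_real, norm_norm, hf1, mul_one]
      · rw [smul_apply, hf2, smul_eq_mul]
        push_cast
        ring
  choose J hJ using hex
  refine ⟨J, hJ, fun J' hJ' => ?_⟩
  funext x
  exact support_unique hs (hJ' x) (hJ x)

/-- The minimum modulus of a bounded operator. -/
noncomputable def minModulus (T : X →L[ℂ] X) : ℝ := sInf ((fun x => ‖T x‖) '' Metric.sphere 0 1)

lemma minModulus_nonneg (T : X →L[ℂ] X) : 0 ≤ minModulus T := by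
  refine Real.sInf_nonneg ?_
  rintro _ ⟨x, _, rfl⟩
  exact norm_nonneg _

lemma minModulus_le (T : X →L[ℂ] X) (x : X) : minModulus T * ‖x‖ ≤ ‖T x‖ := by
  by_cases hx : x = 0
  · subst hx; simp
  · have hn : 0 < ‖x‖ := norm_pos_iff.2 hx
    have h1 : minModulus T ≤ ‖T (((‖x‖⁻¹ : ℝ) : ℂ) • x)‖ := by
      refine csInf_le ⟨0, ?_⟩ ⟨_, ?_, rfl⟩
      · rintro _ ⟨x, _, rfl⟩
        exact norm_nonneg _
      · rw [mem_sphere_zero_iff_norm, norm_smul, Complex.norm_real, norm_inv, norm_norm,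
          inv_mul_cancel₀ hn.ne']
    rw [map_smul, norm_smul, Complex.norm_real, norm_inv, norm_norm, inv_mul_eq_div,
      le_div_iff₀ hn] at h1
    exact h1

/-- **Q1.** -/
theorem q1 [CompleteSpace X] (hs : IsSmoothSpace X) (hJ : IsDualityMap J)
    {T : X →L[ℂ] X} (hT : IsSelfAdj J T) :
    IsStronglyNormal J ((‖T‖ ^ 2) • (1 : X →L[ℂ] X) - T * T) := by
  obtain ⟨S, h1, h2, _⟩ := exists_sqrt hs hJ hT le_rfl
  exact ⟨S, h1, h2.symm⟩

/-- **Q2.** -/
theorem q2 [CompleteSpace X] (hs : IsSmoothSpace X) (hJ : IsDualityMap J)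
    {T : X →L[ℂ] X} (hT : IsSelfAdj J T) :
    IsStronglyNormal J (T * T - (minModulus T ^ 2) • (1 : X →L[ℂ] X)) := by
  rcases (minModulus_nonneg T).eq_or_lt with h0 | hpos
  · refine ⟨T, hT, ?_⟩
    rw [← h0]
    simp
  · set μ := minModulus T with hμ
    have hunit := isUnit_of_bddBelow hJ hT hpos (minModulus_le T)
    obtain ⟨U, hU1, hU2⟩ : ∃ U, T * U = 1 ∧ U * T = 1 := isUnit_iff_exists.1 hunit
    have hU : IsSelfAdj J U := sa_inv hT hU1
    have hUn : ‖U‖ ≤ μ⁻¹ := by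
      refine ContinuousLinearMap.opNorm_le_bound _ (by positivity) fun x => ?_
      have h1 := minModulus_le T (U x)
      have h2 : T (U x) = x := congrArg (fun V : X →L[ℂ] X => V x) hU1
      rw [h2, ← hμ] at h1
      rw [inv_mul_eq_div, le_div_iff₀ hpos, mul_comm]
      exact h1
    obtain ⟨S, hS1, hS2, hS3⟩ := exists_sqrt hs hJ hU hUn
    have hTS : Commute T S := by
      have h1 : T * S = T * S * (U * T) := by rw [hU2, mul_one]
      have h2 : T * S * (U * T) = T * (S * U) * T := by simp only [mul_assoc]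
      rw [h2, ← hS3.eq] at h1
      have h3 : T * (U * S) * T = (T * U) * (S * T) := by simp only [mul_assoc]
      rw [h3, hU1, one_mul] at h1
      exact h1
    refine ⟨μ • (T * S), sa_smul hs hJ (sa_mul hT hS1 hTS) μ, ?_⟩
    have h4 : T * S * (T * S) = (T * T) * (S * S) := by
      have : T * S * (T * S) = T * (S * T) * S := by simp only [mul_assoc]
      rw [this, ← hTS.eq]
      simp only [mul_assoc]
    rw [smul_mul_smul_comm, h4, hS2, mul_sub, smul_sub, ← sq μ]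
    have h5 : T * T * (U * U) = 1 := by
      have : T * T * (U * U) = T * (T * U) * U := by simp only [mul_assoc]
      rw [this, hU1, mul_one, hU1]
    rw [h5, mul_smul_comm, mul_one, smul_smul, inv_pow, mul_inv_cancel₀ (by positivity), one_smul]

end Pool.Agent.R283.SmoothSA
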