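import Mathlib

/-!
# Self-adjoint operators on smooth Banach spaces

`J` is the duality map of a smooth complex Banach space `X`; a bounded operator `T` is self-adjoint
if `J (T x) = (J x) ∘ T` for all `x`.
-/

set_option autoImplicit false
open Filter Topology Set

namespace Pool.Agent.R283.SmoothSA

section algebra

variable {𝔸 : Type*} [NormedRing 𝔸] [NormedAlgebra ℝ 𝔸]

/-- The exponential covers a neighbourhood of `1`. -/
lemma local_exp [CompleteSpace 𝔸] :
    ∃ ε : ℝ, 0 < ε ∧ ∀ b : 𝔸, ‖b‖ < ε → ∃ q : 𝔸, NormedSpace.exp q = 1 + b := by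
  have h := hasStrictFDerivAt_exp_zero (𝕂 := ℝ) (𝔸 := 𝔸)
  have h' : HasStrictFDerivAt (NormedSpace.exp : 𝔸 → 𝔸)
      ((ContinuousLinearEquiv.refl ℝ 𝔸 : 𝔸 ≃L[ℝ] 𝔸) : 𝔸 →L[ℝ] 𝔸) 0 := by
    convert! h using 1
  have h2 := h'.map_nhds_eq_of_equiv
  rw [NormedSpace.exp_zero] at h2
  have h3 : Set.range (NormedSpace.exp : 𝔸 → 𝔸) ∈ 𝓝 (1 : 𝔸) := by
    rw [← h2]
    exact Filter.mem_map.2 (Filter.univ_mem' fun x => ⟨x, rfl⟩)
  obtain ⟨ε, hε, hb⟩ := Metric.mem_nhds_iff.1 h3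
  refine ⟨ε, hε, fun b hb' => ?_⟩
  have : 1 + b ∈ Metric.ball (1 : 𝔸) ε := by
    rw [Metric.mem_ball, dist_eq_norm, add_sub_cancel_left]
    exact hb'
  obtain ⟨q, hq⟩ := hb this
  exact ⟨q, hq⟩

/-- numerical sequence `a 0 = 0`, `a (n+1) = (1 + a n ^ 2) / 2` -/
noncomputable def num : ℕ → ℝ
  | 0 => 0
  | n + 1 => (1 + num n ^ 2) / 2

lemma num_nonneg (n : ℕ) : 0 ≤ num n := by
  cases n with
  | zero => simp [num]
  | succ n => simp only [num]; positivity

lemma num_le_one (n : ℕ) : num n ≤ 1 := by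
  induction n with
  | zero => simp [num]
  | succ n ih => simp only [num]; nlinarith [num_nonneg n]

lemma num_mono : Monotone num := by
  refine monotone_nat_of_le_succ fun n => ?_
  simp only [num]
  nlinarith [sq_nonneg (1 - num n)]

/-- The iteration for the square root of `1 - t A`. -/
noncomputable def iter (A : 𝔸) : ℕ → ℝ → 𝔸
  | 0, _ => 0
  | n + 1, t => (1 / 2 : ℝ) • (t • A + iter A n t * iter A n t)

lemma norm_iter_le {A : 𝔸} (hA : ‖A‖ ≤ 1) {t : ℝ} (ht : t ∈ Icc (0 : ℝ) 1) (n : ℕ) :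
    ‖iter A n t‖ ≤ num n := by
  induction n with
  | zero => simp [iter, num]
  | succ n ih =>
    simp only [iter, num]
    rw [norm_smul, Real.norm_of_nonneg (by norm_num : (0 : ℝ) ≤ 1 / 2)]
    have h1 : ‖t • A‖ ≤ 1 := by
      rw [norm_smul, Real.norm_of_nonneg ht.1]
      nlinarith [ht.1, ht.2, norm_nonneg A]
    have h2 : ‖iter A n t * iter A n t‖ ≤ num n ^ 2 := by
      refine (norm_mul_le _ _).trans ?_
      nlinarith [norm_nonneg (iter A n t)]
    have h3 := norm_add_le (t • A) (iter A n t * iter A n t)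
    linarith

lemma norm_iter_succ_sub_le {A : 𝔸} (hA : ‖A‖ ≤ 1) {t : ℝ} (ht : t ∈ Icc (0 : ℝ) 1) (n : ℕ) :
    ‖iter A (n + 1) t - iter A n t‖ ≤ num (n + 1) - num n := by
  have hcomm : ∀ n, Commute A (iter A n t) := by
    intro n
    induction n with
    | zero => simp [iter]
    | succ n ih =>
      simp only [iter]
      exact (((Commute.refl A).smul_right t).add_right (ih.mul_right ih)).smul_right _
  have hcomm' : ∀ n, Commute (iter A n t) (iter A (n + 1) t) := by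
    intro n
    simp only [iter]
    exact (((hcomm n).symm.smul_right t).add_right
      ((Commute.refl _).mul_right (Commute.refl _))).smul_right _
  induction n with
  | zero =>
    have h0 : iter A 0 t = 0 := rfl
    have h1 := norm_iter_le hA ht 1
    have h2 : num 0 = 0 := rfl
    rw [h0, sub_zero, h2, sub_zero]
    exact h1
  | succ n ih =>
    have e1 : iter A (n + 1 + 1) t - iter A (n + 1) t =
        (1 / 2 : ℝ) • ((iter A (n + 1) t - iter A n t) * (iter A (n + 1) t + iter A n t)) := by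
      have e2 : iter A (n + 1 + 1) t = (1 / 2 : ℝ) • (t • A + iter A (n + 1) t * iter A (n + 1) t) :=
        rfl
      have e3 : iter A (n + 1) t = (1 / 2 : ℝ) • (t • A + iter A n t * iter A n t) := rfl
      have e4 : (iter A (n + 1) t - iter A n t) * (iter A (n + 1) t + iter A n t) =
          iter A (n + 1) t * iter A (n + 1) t - iter A n t * iter A n t := by
        rw [sub_mul, mul_add, mul_add, (hcomm' n).eq]
        abel
      rw [e4, e2]
      nth_rewrite 3 [e3]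
      rw [← smul_sub]
      congr 1
      abel
    have e5 : num (n + 1 + 1) - num (n + 1) =
        (1 / 2) * ((num (n + 1) - num n) * (num (n + 1) + num n)) := by
      have e2 : num (n + 1 + 1) = (1 + num (n + 1) ^ 2) / 2 := rfl
      have e3 : num (n + 1) = (1 + num n ^ 2) / 2 := rfl
      rw [e2]
      nth_rewrite 2 [e3]
      ring
    rw [e1, e5, norm_smul, Real.norm_of_nonneg (by norm_num : (0 : ℝ) ≤ 1 / 2)]
    refine mul_le_mul_of_nonneg_left ?_ (by norm_num)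
    refine (norm_mul_le _ _).trans ?_
    refine mul_le_mul ih ?_ (norm_nonneg _) ?_
    · exact (norm_add_le _ _).trans (add_le_add (norm_iter_le hA ht _) (norm_iter_le hA ht _))
    · exact (norm_nonneg _).trans ih

lemma norm_iter_sub_le {A : 𝔸} (hA : ‖A‖ ≤ 1) {t : ℝ} (ht : t ∈ Icc (0 : ℝ) 1) {n m : ℕ}
    (hnm : n ≤ m) : ‖iter A m t - iter A n t‖ ≤ num m - num n := by
  induction m, hnm using Nat.le_induction with
  | base => simp
  | succ m hm ih =>
    have e : iter A (m + 1) t - iter A n t =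
        (iter A (m + 1) t - iter A m t) + (iter A m t - iter A n t) := by abel
    rw [e]
    refine (norm_add_le _ _).trans ?_
    have := norm_iter_succ_sub_le hA ht m
    linarith

lemma continuous_iter (A : 𝔸) (n : ℕ) : Continuous (iter A n) := by
  induction n with
  | zero => exact continuous_const
  | succ n ih =>
    have : iter A (n + 1) = fun t => (1 / 2 : ℝ) • (t • A + iter A n t * iter A n t) := rfl
    rw [this]
    fun_prop

/-- A continuous family of square roots of `1 - t A`, `0 ≤ t ≤ 1`, when `‖A‖ ≤ 1`. -/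
theorem exists_sqrt_path [CompleteSpace 𝔸] (A : 𝔸) (hA : ‖A‖ ≤ 1) :
    ∃ S : ℝ → 𝔸, ContinuousOn S (Icc 0 1) ∧ S 0 = 1 ∧
      ∀ t ∈ Icc (0 : ℝ) 1, S t * S t = 1 - t • A := by
  obtain ⟨L, hL⟩ : ∃ L, Tendsto num atTop (𝓝 L) :=
    ⟨_, tendsto_atTop_ciSup num_mono ⟨1, by rintro _ ⟨n, rfl⟩; exact num_le_one n⟩⟩
  have hle : ∀ n, num n ≤ L := fun n => num_mono.ge_of_tendsto hL n
  have hcau : ∀ t ∈ Icc (0 : ℝ) 1, ∃ y, Tendsto (fun n => iter A n t) atTop (𝓝 y) := by
    intro t ht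
    refine cauchySeq_tendsto_of_complete (cauchySeq_of_le_tendsto_0 (fun n => 2 * (L - num n)) ?_ ?_)
    · intro n m N hn hm
      have h1 := norm_iter_sub_le hA ht hn
      have h2 := norm_iter_sub_le hA ht hm
      rw [dist_eq_norm]
      have e : iter A n t - iter A m t = (iter A n t - iter A N t) - (iter A m t - iter A N t) := by
        abel
      rw [e]
      refine (norm_sub_le _ _).trans ?_
      linarith [hle n, hle m]
    · have := (hL.const_sub L).const_mul 2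
      simpa using this
  choose! Y hY using hcau
  have hunif : TendstoUniformlyOn (fun n t => iter A n t) Y atTop (Icc 0 1) := by
    rw [Metric.tendstoUniformlyOn_iff]
    intro ε hε
    have h1 : Tendsto (fun n => L - num n) atTop (𝓝 0) := by
      have := hL.const_sub L
      simpa using this
    filter_upwards [h1.eventually (gt_mem_nhds hε)] with n hn t ht
    have h2 : ‖Y t - iter A n t‖ ≤ L - num n := by
      have h3 : Tendsto (fun m => ‖iter A m t - iter A n t‖) atTop (𝓝 ‖Y t - iter A n t‖) :=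
        ((hY t ht).sub_const _).norm
      refine le_of_tendsto h3 ?_
      filter_upwards [eventually_ge_atTop n] with m hm
      exact (norm_iter_sub_le hA ht hm).trans (by linarith [hle m])
    rw [dist_eq_norm]
    exact h2.trans_lt hn
  have hYc : ContinuousOn Y (Icc 0 1) :=
    hunif.continuousOn (Frequently.of_forall fun n => (continuous_iter A n).continuousOn)
  have hYeq : ∀ t ∈ Icc (0 : ℝ) 1, Y t = (1 / 2 : ℝ) • (t • A + Y t * Y t) := by
    intro t ht
    have h1 : Tendsto (fun n => iter A (n + 1) t) atTop (𝓝 (Y t)) :=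
      (hY t ht).comp (tendsto_add_atTop_nat 1)
    have h2 : Tendsto (fun n => (1 / 2 : ℝ) • (t • A + iter A n t * iter A n t)) atTop
        (𝓝 ((1 / 2 : ℝ) • (t • A + Y t * Y t))) :=
      (tendsto_const_nhds.add ((hY t ht).mul (hY t ht))).const_smul _
    exact tendsto_nhds_unique h1 h2
  have hY0 : Y 0 = 0 := by
    have h0 : ∀ n, iter A n 0 = 0 := by
      intro n
      induction n with
      | zero => rfl
      | succ n ih => simp [iter, ih]
    have h1 := hY 0 ⟨le_rfl, zero_le_one⟩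
    simp only [h0] at h1
    exact (tendsto_nhds_unique h1 tendsto_const_nhds)
  refine ⟨fun t => 1 - Y t, continuousOn_const.sub hYc, by simp [hY0], ?_⟩
  intro t ht
  have h1 := hYeq t ht
  have h2 : (2 : ℝ) • Y t = t • A + Y t * Y t := by
    nth_rewrite 1 [h1]
    rw [smul_smul]
    norm_num
  have h3 : Y t + Y t = t • A + Y t * Y t := by rw [← h2, two_smul]
  calc (1 - Y t) * (1 - Y t) = 1 - (Y t + Y t) + Y t * Y t := by noncomm_ring
    _ = 1 - t • A := by rw [h3]; abel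

end algebra

section duality

variable {X : Type*} [NormedAddCommGroup X] [NormedSpace ℂ X]

/-- A complex normed space is *smooth* if every vector `x` with `‖x‖ = 1` has exactly one functional
`f` with `‖f‖ = 1` and `f x = 1`. -/
def IsSmoothSpace (X : Type*) [NormedAddCommGroup X] [NormedSpace ℂ X] : Prop :=
  ∀ x : X, ‖x‖ = 1 → ∃! f : X →L[ℂ] ℂ, ‖f‖ = 1 ∧ f x = 1

/-- `J` is a duality map: `‖J x‖ = ‖x‖` and `(J x)(x) = ‖x‖²` for all `x`.  On a smooth space there
is exactly one such `J`. -/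
def IsDualityMap (J : X → (X →L[ℂ] ℂ)) : Prop :=
  ∀ x, ‖J x‖ = ‖x‖ ∧ J x x = ((‖x‖ ^ 2 : ℝ) : ℂ)

/-- `T` is self-adjoint: `T' ∘ J = J ∘ T`, that is, `J (T x) = (J x) ∘ T` for all `x`. -/
def IsSelfAdj (J : X → (X →L[ℂ] ℂ)) (T : X →L[ℂ] X) : Prop :=
  ∀ x, J (T x) = (J x).comp T

/-- `T` is strongly normal: `T = S²` for some self-adjoint bounded operator `S`. -/
def IsStronglyNormal (J : X → (X →L[ℂ] ℂ)) (T : X →L[ℂ] X) : Prop :=
  ∃ S : X →L[ℂ] X, IsSelfAdj J S ∧ T = S * S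

lemma support_unique (hs : IsSmoothSpace X) {z : X} {f g : X →L[ℂ] ℂ}
    (hf : ‖f‖ = ‖z‖ ∧ f z = ((‖z‖ ^ 2 : ℝ) : ℂ)) (hg : ‖g‖ = ‖z‖ ∧ g z = ((‖z‖ ^ 2 : ℝ) : ℂ)) :
    f = g := by
  by_cases hz : z = 0
  · subst hz
    have h1 : f = 0 := norm_eq_zero.1 (by rw [hf.1, norm_zero])
    have h2 : g = 0 := norm_eq_zero.1 (by rw [hg.1, norm_zero])
    rw [h1, h2]
  · have hnz : 0 < ‖z‖ := norm_pos_iff.2 hz
    set c : ℂ := ((‖z‖⁻¹ : ℝ) : ℂ) with hc
    have hcn : ‖c‖ = ‖z‖⁻¹ := by rw [hc, Complex.norm_real, norm_inv, norm_norm]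
    have hc0 : c ≠ 0 := by
      rw [← norm_ne_zero_iff, hcn]
      positivity
    have hx : ‖c • z‖ = 1 := by rw [norm_smul, hcn, inv_mul_cancel₀ hnz.ne']
    have key : ∀ f : X →L[ℂ] ℂ, ‖f‖ = ‖z‖ → f z = ((‖z‖ ^ 2 : ℝ) : ℂ) →
        ‖c • f‖ = 1 ∧ (c • f) (c • z) = 1 := by
      intro f h1 h2
      refine ⟨by rw [norm_smul, hcn, h1, inv_mul_cancel₀ hnz.ne'], ?_⟩
      rw [smul_apply, map_smul, h2, smul_eq_mul, smul_eq_mul, hc]
      norm_cast
      field_simp
    obtain ⟨e, _, he⟩ := hs _ hx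
    have h1 := he (c • f) (key f hf.1 hf.2)
    have h2 := he (c • g) (key g hg.1 hg.2)
    exact smul_right_injective _ hc0 (h1.trans h2.symm)

lemma subgrad {J : X → (X →L[ℂ] ℂ)} (hJ : IsDualityMap J) (x y : X) :
    ‖x‖ ^ 2 + 2 * (J x (y - x)).re ≤ ‖y‖ ^ 2 := by
  have h1 : (J x y).re ≤ ‖x‖ * ‖y‖ := by
    calc (J x y).re ≤ ‖J x y‖ := Complex.re_le_norm _
      _ ≤ ‖J x‖ * ‖y‖ := (J x).le_opNorm y
      _ = ‖x‖ * ‖y‖ := by rw [(hJ x).1]
  have h2 : (J x (y - x)).re = (J x y).re - ‖x‖ ^ 2 := by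
    rw [map_sub, Complex.sub_re, (hJ x).2, Complex.ofReal_re]
  rw [h2]
  nlinarith [sq_nonneg (‖x‖ - ‖y‖)]

/-- On a smooth space the only subgradient of `‖·‖²/2` at `z` is `J z`. -/
lemma eq_of_subgrad (hs : IsSmoothSpace X) {J : X → (X →L[ℂ] ℂ)} (hJ : IsDualityMap J) {z : X}
    {f : X →L[ℂ] ℂ} (hf : ∀ y, ‖z‖ ^ 2 + 2 * (f (y - z)).re ≤ ‖y‖ ^ 2) : f = J z := by
  refine support_unique hs ?_ (hJ z)
  -- the real part of `f z`
  have hre : (f z).re = ‖z‖ ^ 2 := by
    have h1 : ∀ t : ℝ, ‖z‖ ^ 2 + 2 * ((t - 1) * (f z).re) ≤ t ^ 2 * ‖z‖ ^ 2 := by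
      intro t
      have h2 := hf ((t : ℂ) • z)
      have e1 : (t : ℂ) • z - z = ((t - 1 : ℝ) : ℂ) • z := by
        push_cast
        rw [sub_smul, one_smul]
      rw [e1, map_smul, smul_eq_mul, Complex.re_ofReal_mul, norm_smul, Complex.norm_real,
        mul_pow, Real.norm_eq_abs, sq_abs] at h2
      exact h2
    apply le_antisymm
    · -- t → 1+
      have h2 : ∀ ε : ℝ, 0 < ε → 2 * (f z).re ≤ (2 + ε) * ‖z‖ ^ 2 := by
        intro ε hε
        have h3 := h1 (1 + ε)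
        have h4 : ε * (2 * (f z).re) ≤ ε * ((2 + ε) * ‖z‖ ^ 2) := by nlinarith
        exact le_of_mul_le_mul_left h4 hε
      by_contra hlt
      push Not at hlt
      have h5 : 0 < (f z).re - ‖z‖ ^ 2 := by linarith
      have h6 := h2 (((f z).re - ‖z‖ ^ 2) / (‖z‖ ^ 2 + 1)) (by positivity)
      have h7 : ((f z).re - ‖z‖ ^ 2) / (‖z‖ ^ 2 + 1) * ‖z‖ ^ 2 ≤ (f z).re - ‖z‖ ^ 2 := by
        rw [div_mul_eq_mul_div, div_le_iff₀ (by positivity)]
        nlinarith [sq_nonneg ‖z‖]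
      linarith
    · -- t → 1-
      have h2 : ∀ ε : ℝ, 0 < ε → (2 - ε) * ‖z‖ ^ 2 ≤ 2 * (f z).re := by
        intro ε hε
        have h3 := h1 (1 - ε)
        have h4 : ε * ((2 - ε) * ‖z‖ ^ 2) ≤ ε * (2 * (f z).re) := by nlinarith
        exact le_of_mul_le_mul_left h4 hε
      by_contra hlt
      push Not at hlt
      have h5 : 0 < ‖z‖ ^ 2 - (f z).re := by linarith
      have h6 := h2 ((‖z‖ ^ 2 - (f z).re) / (‖z‖ ^ 2 + 1)) (by positivity)
      have h7 : (‖z‖ ^ 2 - (f z).re) / (‖z‖ ^ 2 + 1) * ‖z‖ ^ 2 ≤ ‖z‖ ^ 2 - (f z).re := by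
        rw [div_mul_eq_mul_div, div_le_iff₀ (by positivity)]
        nlinarith [sq_nonneg ‖z‖]
      linarith
  have h2 : ∀ y, 2 * (f y).re ≤ ‖y‖ ^ 2 + ‖z‖ ^ 2 := by
    intro y
    have h3 := hf y
    rw [map_sub, Complex.sub_re, hre] at h3
    linarith
  have h3 : ∀ y, (f y).re ≤ ‖z‖ * ‖y‖ := by
    intro y
    by_cases hy : y = 0
    · subst hy; simp
    have hny : 0 < ‖y‖ := norm_pos_iff.2 hy
    have h4 : ∀ t : ℝ, 0 < t → 2 * (f y).re ≤ t * ‖y‖ ^ 2 + t⁻¹ * ‖z‖ ^ 2 := by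
      intro t ht
      have h5 := h2 ((t : ℂ) • y)
      rw [map_smul, smul_eq_mul, Complex.re_ofReal_mul, norm_smul, Complex.norm_real,
        mul_pow, Real.norm_eq_abs, sq_abs] at h5
      have h6 : t * (2 * (f y).re) ≤ t * (t * ‖y‖ ^ 2 + t⁻¹ * ‖z‖ ^ 2) := by
        have : t * (t * ‖y‖ ^ 2 + t⁻¹ * ‖z‖ ^ 2) = t ^ 2 * ‖y‖ ^ 2 + ‖z‖ ^ 2 := by
          field_simp
        rw [this]
        linarith
      exact le_of_mul_le_mul_left h6 ht
    by_cases hz : z = 0
    · subst hz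
      rw [norm_zero, zero_mul]
      by_contra hlt
      push Not at hlt
      have h5 := h4 ((f y).re / (‖y‖ ^ 2)) (by positivity)
      rw [norm_zero, div_mul_cancel₀ _ (by positivity)] at h5
      nlinarith
    · have hnz : 0 < ‖z‖ := norm_pos_iff.2 hz
      have h5 := h4 (‖z‖ / ‖y‖) (by positivity)
      have h6 : ‖z‖ / ‖y‖ * ‖y‖ ^ 2 + (‖z‖ / ‖y‖)⁻¹ * ‖z‖ ^ 2 = 2 * (‖z‖ * ‖y‖) := by
        field_simp
        ring
      rw [h6] at h5
      linarith
  have h4 : ∀ y, ‖f y‖ ≤ ‖z‖ * ‖y‖ := by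
    intro y
    by_cases hfy : f y = 0
    · rw [hfy, norm_zero]; positivity
    · have hn : 0 < ‖f y‖ := norm_pos_iff.2 hfy
      set c : ℂ := (starRingEnd ℂ) (f y) / ((‖f y‖ : ℝ) : ℂ) with hc
      have hcn : ‖c‖ = 1 := by
        rw [hc, norm_div, Complex.norm_real, norm_norm, RCLike.norm_conj, div_self hn.ne']
      have h5 := h3 (c • y)
      have h6 : f (c • y) = ((‖f y‖ : ℝ) : ℂ) := by
        rw [map_smul, smul_eq_mul, hc, div_mul_eq_mul_div, mul_comm, Complex.mul_conj,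
          Complex.normSq_eq_norm_sq]
        push_cast
        field_simp
      rw [h6, Complex.ofReal_re, norm_smul, hcn, one_mul] at h5
      exact h5
  have h5 : ‖f‖ ≤ ‖z‖ := f.opNorm_le_bound (norm_nonneg _) h4
  have h6 : f z = ((‖z‖ ^ 2 : ℝ) : ℂ) := by
    have h7 : ‖f z‖ ≤ ‖z‖ ^ 2 := by
      have := h4 z
      nlinarith
    have h8 : (f z).re ^ 2 + (f z).im ^ 2 ≤ (‖z‖ ^ 2) ^ 2 := by
      have h9 : ‖f z‖ ^ 2 = (f z).re ^ 2 + (f z).im ^ 2 := by
        rw [← Complex.normSq_eq_norm_sq, Complex.normSq_apply]; ring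
      rw [← h9]
      exact pow_le_pow_left₀ (norm_nonneg _) h7 2
    rw [hre] at h8
    have h9 : (f z).im = 0 := by
      have : (f z).im ^ 2 ≤ 0 := by linarith
      exact pow_eq_zero_iff (two_ne_zero) |>.1 (le_antisymm this (sq_nonneg _))
    apply Complex.ext
    · rw [hre, Complex.ofReal_re]
    · rw [h9, Complex.ofReal_im]
  refine ⟨le_antisymm h5 ?_, h6⟩
  by_cases hz : z = 0
  · subst hz; simp
  · have hnz : 0 < ‖z‖ := norm_pos_iff.2 hz
    have h7 : ‖f z‖ ≤ ‖f‖ * ‖z‖ := f.le_opNorm z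
    rw [h6, Complex.norm_real, Real.norm_of_nonneg (by positivity)] at h7
    have h8 : ‖z‖ * ‖z‖ ≤ ‖f‖ * ‖z‖ := by nlinarith
    exact le_of_mul_le_mul_right h8 hnz

variable {J : X → (X →L[ℂ] ℂ)}

lemma sa_one : IsSelfAdj J (1 : X →L[ℂ] X) := fun x => by
  ext y; rfl

lemma sa_mul {S T : X →L[ℂ] X} (hS : IsSelfAdj J S) (hT : IsSelfAdj J T) (h : Commute S T) :
    IsSelfAdj J (S * T) := by
  intro x
  have h1 : J ((S * T) x) = ((J x).comp T).comp S := by
    rw [← hT x]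
    exact hS (T x)
  rw [h1]
  ext y
  show J x ((T * S) y) = J x ((S * T) y)
  rw [h.eq]

lemma sa_pow {T : X →L[ℂ] X} (hT : IsSelfAdj J T) (n : ℕ) : IsSelfAdj J (T ^ n) := by
  induction n with
  | zero => rw [pow_zero]; exact sa_one
  | succ n ih => rw [pow_succ]; exact sa_mul ih hT ((Commute.refl T).pow_left n)

lemma sa_inv {T U : X →L[ℂ] X} (hT : IsSelfAdj J T) (h1 : T * U = 1) :
    IsSelfAdj J U := by
  intro x
  have h3 : T (U x) = x := congrArg (fun R : X →L[ℂ] X => R x) h1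
  have h4 : J x = (J (U x)).comp T := by
    have := hT (U x)
    rwa [h3] at this
  ext y
  have h5 : T (U y) = y := congrArg (fun R : X →L[ℂ] X => R y) h1
  show J (U x) y = J x (U y)
  rw [h4]
  show J (U x) y = J (U x) (T (U y))
  rw [h5]

lemma sa_smul (hs : IsSmoothSpace X) (hJ : IsDualityMap J) {T : X →L[ℂ] X} (hT : IsSelfAdj J T)
    (c : ℝ) : IsSelfAdj J (c • T) := by
  have hJc : ∀ x, J (c • x) = c • J x := by
    intro x
    refine support_unique hs (hJ _) ?_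
    constructor
    · rw [norm_smul, norm_smul, (hJ x).1]
    · have h1 : (c • J x) (c • x) = (c : ℂ) * ((c : ℂ) * J x x) := by
        rw [← Complex.coe_smul c x]
        simp
      rw [h1, (hJ x).2, norm_smul, Real.norm_eq_abs, mul_pow, sq_abs]
      push_cast
      ring
  intro x
  show J (c • T x) = (J x).comp (c • T)
  rw [hJc, hT x]
  ext y
  simp

lemma isClosed_sa (hs : IsSmoothSpace X) (hJ : IsDualityMap J) :
    IsClosed {T : X →L[ℂ] X | IsSelfAdj J T} := by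
  rw [← isSeqClosed_iff_isClosed]
  intro S T hS hlim x
  refine (support_unique hs ?_ (hJ (T x))).symm
  have hx : Tendsto (fun n => S n x) atTop (𝓝 (T x)) :=
    ((ContinuousLinearMap.apply ℂ X x).continuous.tendsto T).comp hlim
  have hc : Tendsto (fun n => (J x).comp (S n)) atTop (𝓝 ((J x).comp T)) :=
    ((ContinuousLinearMap.compL ℂ X X ℂ (J x)).continuous.tendsto T).comp hlim
  constructor
  · have h1 : Tendsto (fun n => ‖(J x).comp (S n)‖) atTop (𝓝 ‖(J x).comp T‖) := hc.norm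
    have h2 : ∀ n, ‖(J x).comp (S n)‖ = ‖S n x‖ := by
      intro n
      rw [← hS n x, (hJ _).1]
    simp only [h2] at h1
    exact tendsto_nhds_unique h1 hx.norm
  · have h1 : Tendsto (fun n => ((J x).comp (S n)) (S n x)) atTop (𝓝 (((J x).comp T) (T x))) := by
      have h3 : Tendsto (fun n => J x (S n (S n x))) atTop (𝓝 (J x (T (T x)))) := by
        refine ((J x).continuous.tendsto _).comp ?_
        have h4 : Tendsto (fun n => (S n, S n x)) atTop (𝓝 (T, T x)) := hlim.prodMk_nhds hx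
        exact (isBoundedBilinearMap_apply.continuous.tendsto (T, T x)).comp h4
      exact h3
    have h2 : ∀ n, ((J x).comp (S n)) (S n x) = ((‖S n x‖ ^ 2 : ℝ) : ℂ) := by
      intro n
      rw [← hS n x, (hJ _).2]
    simp only [h2] at h1
    have h3 : Tendsto (fun n => ((‖S n x‖ ^ 2 : ℝ) : ℂ)) atTop (𝓝 ((‖T x‖ ^ 2 : ℝ) : ℂ)) :=
      (Complex.continuous_ofReal.tendsto _).comp (hx.norm.pow 2)
    exact tendsto_nhds_unique h1 h3

/-- `(J x)(R^(2n) y) = J (R^n x) (R^n y)`. -/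
lemma sa_inner {R : X →L[ℂ] X} (hR : IsSelfAdj J R) (n : ℕ) (x y : X) :
    J x (((R * R) ^ n) y) = J ((R ^ n) x) ((R ^ n) y) := by
  rw [sa_pow hR n x]
  show J x (((R * R) ^ n) y) = J x ((R ^ n * R ^ n) y)
  rw [(Commute.refl R).mul_pow]

end duality

end Pool.Agent.R283.SmoothSA
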