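import Pool.Agent.R283.WmpSpace

/-!
# The diagonal subspace and its inclusion into `ℓ²`
-/

set_option autoImplicit false
open Filter Topology Set
open scoped ENNReal

namespace Pool.Agent.R283.Wmp

variable {𝕜 : Type*} [RCLike 𝕜]

variable (𝕜) in
/-- The diagonal subspace. -/
noncomputable def YY : Submodule 𝕜 (EE 𝕜) where
  carrier := {x | ∀ n j, crd x n j = crd x 0 j}
  add_mem' {x y} hx hy n j := by rw [crd_add, crd_add, hx n j, hy n j]
  zero_mem' n j := rfl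
  smul_mem' r x hx n j := by rw [crd_smul, crd_smul, hx n j]

lemma mem_YY {x : EE 𝕜} : x ∈ YY 𝕜 ↔ ∀ n j, crd x n j = crd x 0 j := Iff.rfl

lemma isClosed_YY : IsClosed (YY 𝕜 : Set (EE 𝕜)) := by
  have : (YY 𝕜 : Set (EE 𝕜)) = ⋂ n, ⋂ j, {x | crd x n j = crd x 0 j} := by
    ext x
    simp only [mem_iInter]
    exact Iff.rfl
  rw [this]
  exact isClosed_iInter fun n => isClosed_iInter fun j =>
    isClosed_eq (continuous_crd n j) (continuous_crd 0 j)

/-- The estimate for the `ℓ²` norm. -/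
lemma sum_sq_le {y : EE 𝕜} (hy : y ∈ YY 𝕜) (S : Finset ℕ) :
    ∑ j ∈ S, ‖crd y 0 j‖ ^ 2 ≤ (2 * ‖y‖) ^ 2 := by
  set a : ℕ → ℝ := fun j => ‖crd y 0 j‖ with ha
  have ha0 : ∀ j, 0 ≤ a j := fun j => norm_nonneg _
  set s : ℝ := Real.sqrt (∑ j ∈ S, a j ^ 2) with hs
  have hss : s ^ 2 = ∑ j ∈ S, a j ^ 2 :=
    Real.sq_sqrt (Finset.sum_nonneg fun j _ => sq_nonneg _)
  have hs0 : 0 ≤ s := Real.sqrt_nonneg _
  show ∑ j ∈ S, a j ^ 2 ≤ _
  rw [← hss]
  rcases hs0.eq_or_lt with h0 | hpos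
  · rw [← h0, zero_pow two_ne_zero]
    positivity
  refine pow_le_pow_left₀ hs0 ?_ 2
  -- level function
  have hle : ∀ j ∈ S, a j ≤ s := by
    intro j hj
    have h1 : a j ^ 2 ≤ s ^ 2 := by
      rw [hss]
      exact Finset.single_le_sum (f := fun j => a j ^ 2) (fun j _ => sq_nonneg _) hj
    exact le_of_pow_le_pow_left₀ (by norm_num) hs0 h1
  have hlev : ∀ j, ∃ n : ℕ, j ∈ S → a j ≠ 0 →
      (1 / 4 : ℝ) ^ (n + 1) * s < a j ∧ a j ≤ (1 / 4 : ℝ) ^ n * s := by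
    intro j
    by_cases hj : j ∈ S ∧ a j ≠ 0
    · obtain ⟨n, h1, h2⟩ := exists_nat_pow_near_of_lt_one (x := a j / s) (y := (1 / 4 : ℝ))
        (div_pos (lt_of_le_of_ne (ha0 j) (Ne.symm hj.2)) hpos)
        ((div_le_one hpos).2 (hle j hj.1)) (by norm_num) (by norm_num)
      refine ⟨n, fun _ _ => ⟨?_, ?_⟩⟩
      · rwa [lt_div_iff₀ hpos] at h1
      · rwa [div_le_iff₀ hpos] at h2
    · exact ⟨0, fun h1 h2 => absurd ⟨h1, h2⟩ hj⟩
  choose ν hν using hlev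
  set S' : Finset ℕ := S.filter fun j => a j ≠ 0 with hS'
  have hsumS' : ∑ j ∈ S, a j ^ 2 = ∑ j ∈ S', a j ^ 2 := by
    rw [hS', Finset.sum_filter]
    refine Finset.sum_congr rfl fun j _ => ?_
    split_ifs with h
    · rfl
    · push Not at h
      rw [h]; norm_num
  obtain ⟨N, hN⟩ : ∃ N, ∀ j ∈ S', ν j < N := by
    refine ⟨(S'.sup ν) + 1, fun j hj => ?_⟩
    exact Nat.lt_succ_of_le (Finset.le_sup hj)
  have hfib : ∑ j ∈ S', a j ^ 2 = ∑ n ∈ Finset.range N, ∑ j ∈ S' with ν j = n, a j ^ 2 := by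
    rw [Finset.sum_fiberwise_of_maps_to]
    intro j hj
    exact Finset.mem_range.2 (hN j hj)
  have hpart : ∀ n, ∑ j ∈ S' with ν j = n, a j ^ 2 ≤ (1 / 2 : ℝ) ^ n * (s * ‖y‖) := by
    intro n
    set A : Finset ℕ := S'.filter fun j => ν j = n with hA
    have hAm : ∀ j ∈ A, (1 / 4 : ℝ) ^ (n + 1) * s < a j ∧ a j ≤ (1 / 4 : ℝ) ^ n * s := by
      intro j hj
      rw [hA, Finset.mem_filter, hS', Finset.mem_filter] at hj
      have := hν j hj.1.1 hj.1.2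
      rwa [hj.2] at this
    have hcard : A.card ≤ Mc n := by
      have h1 : (A.card : ℝ) * ((1 / 4 : ℝ) ^ (n + 1) * s) ^ 2 ≤ s ^ 2 := by
        calc (A.card : ℝ) * ((1 / 4 : ℝ) ^ (n + 1) * s) ^ 2
            = ∑ j ∈ A, ((1 / 4 : ℝ) ^ (n + 1) * s) ^ 2 := by
              rw [Finset.sum_const, nsmul_eq_mul]
          _ ≤ ∑ j ∈ A, a j ^ 2 :=
              Finset.sum_le_sum fun j hj => pow_le_pow_left₀ (by positivity) (hAm j hj).1.le 2
          _ ≤ ∑ j ∈ S, a j ^ 2 := by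
              refine Finset.sum_le_sum_of_subset_of_nonneg ?_ fun j _ _ => sq_nonneg _
              intro j hj
              rw [hA, Finset.mem_filter, hS', Finset.mem_filter] at hj
              exact hj.1.1
          _ = s ^ 2 := hss.symm
      have h2 : (A.card : ℝ) * ((1 / 4 : ℝ) ^ (n + 1)) ^ 2 ≤ 1 := by
        have h3 : ((A.card : ℝ) * ((1 / 4 : ℝ) ^ (n + 1)) ^ 2) * s ^ 2 ≤ 1 * s ^ 2 := by
          rw [one_mul]; nlinarith
        exact le_of_mul_le_mul_right h3 (by positivity)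
      have h4 : ((1 / 4 : ℝ) ^ (n + 1)) ^ 2 * (16 : ℝ) ^ (n + 1) = 1 := by
        rw [← pow_mul, mul_comm (n + 1) 2, pow_mul, ← mul_pow]
        norm_num
      have h5 : (A.card : ℝ) ≤ (16 : ℝ) ^ (n + 1) := by
        calc (A.card : ℝ) = (A.card * ((1 / 4 : ℝ) ^ (n + 1)) ^ 2) * (16 : ℝ) ^ (n + 1) := by
              rw [mul_assoc, h4, mul_one]
          _ ≤ 1 * (16 : ℝ) ^ (n + 1) := mul_le_mul_of_nonneg_right h2 (by positivity)
          _ = _ := one_mul _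
      unfold Mc
      exact_mod_cast h5
    have hN1 : cc n * ∑ j ∈ A, a j ≤ ‖y‖ := by
      have h1 := NN_ge' n (ofX (y n)) hcard
      have h2 : ∑ j ∈ A, ‖ofX (y n) j‖ = ∑ j ∈ A, a j := by
        refine Finset.sum_congr rfl fun j _ => ?_
        exact congrArg norm (hy n j)
      rw [h2] at h1
      exact h1.trans (lp.norm_apply_le_norm (by norm_num) y n)
    calc ∑ j ∈ A, a j ^ 2 ≤ ∑ j ∈ A, ((1 / 4 : ℝ) ^ n * s) * a j := by
          refine Finset.sum_le_sum fun j hj => ?_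
          rw [sq]
          exact mul_le_mul_of_nonneg_right (hAm j hj).2 (ha0 j)
      _ = ((1 / 4 : ℝ) ^ n * s) * ∑ j ∈ A, a j := by rw [Finset.mul_sum]
      _ = ((1 / 2 : ℝ) ^ n * s) * (cc n * ∑ j ∈ A, a j) := by
          have : (1 / 4 : ℝ) ^ n = (1 / 2) ^ n * (1 / 2) ^ n := by rw [← mul_pow]; norm_num
          rw [this]; unfold cc; ring
      _ ≤ ((1 / 2 : ℝ) ^ n * s) * ‖y‖ := mul_le_mul_of_nonneg_left hN1 (by positivity)
      _ = (1 / 2 : ℝ) ^ n * (s * ‖y‖) := by ring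
  have htot : s ^ 2 ≤ 2 * (s * ‖y‖) := by
    rw [hss, hsumS', hfib]
    calc ∑ n ∈ Finset.range N, ∑ j ∈ S' with ν j = n, a j ^ 2
        ≤ ∑ n ∈ Finset.range N, (1 / 2 : ℝ) ^ n * (s * ‖y‖) := Finset.sum_le_sum fun n _ => hpart n
      _ = (∑ n ∈ Finset.range N, (1 / 2 : ℝ) ^ n) * (s * ‖y‖) := by rw [Finset.sum_mul]
      _ ≤ 2 * (s * ‖y‖) :=
          mul_le_mul_of_nonneg_right (sum_geometric_two_le N) (by positivity)
  have h1 : s * s ≤ s * (2 * ‖y‖) := by nlinarith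
  exact le_of_mul_le_mul_left h1 hpos

/-- the weights -/
noncomputable def ww (j : ℕ) : ℝ := 1 - (1 / 2) ^ (j + 1)

lemma ww_lt_one (j : ℕ) : ww j < 1 := by
  unfold ww
  have : (0 : ℝ) < (1 / 2) ^ (j + 1) := by positivity
  linarith

lemma ww_pos (j : ℕ) : 0 < ww j := by
  unfold ww
  have : (1 / 2 : ℝ) ^ (j + 1) < 1 := pow_lt_one₀ (by norm_num) (by norm_num) (by omega)
  linarith

lemma ww_mono : Monotone ww := by
  intro i j hij
  unfold ww
  have : (1 / 2 : ℝ) ^ (j + 1) ≤ (1 / 2) ^ (i + 1) :=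
    pow_le_pow_of_le_one (by norm_num) (by norm_num) (by omega)
  linarith

lemma summable_sq {y : EE 𝕜} (hy : y ∈ YY 𝕜) : Summable fun j => ‖crd y 0 j‖ ^ 2 :=
  summable_of_sum_le (fun _ => sq_nonneg _) (sum_sq_le hy)

/-- The diagonal operator from the diagonal subspace to `ℓ²`. -/
noncomputable def SS : YY 𝕜 →L[𝕜] lp (fun _ : ℕ => 𝕜) 2 :=
  LinearMap.mkContinuous
    { toFun := fun y => ⟨fun j => (ww j : 𝕜) * crd (y : EE 𝕜) 0 j, by
        refine memℓp_gen ?_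
        have h2 : (2 : ℝ≥0∞).toReal = (2 : ℕ) := by norm_num
        simp only [h2, Real.rpow_natCast]
        refine Summable.of_nonneg_of_le (fun _ => sq_nonneg _) (fun j => ?_) (summable_sq y.2)
        refine pow_le_pow_left₀ (norm_nonneg _) ?_ 2
        rw [norm_mul, RCLike.norm_ofReal, abs_of_pos (ww_pos j)]
        exact mul_le_of_le_one_left (norm_nonneg _) (ww_lt_one j).le⟩
      map_add' := fun x y => by
        ext j
        show (ww j : 𝕜) * crd (x + y : EE 𝕜) 0 j = (ww j : 𝕜) * crd x 0 j + (ww j : 𝕜) * crd y 0 j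
        rw [crd_add, mul_add]
      map_smul' := fun r x => by
        ext j
        show (ww j : 𝕜) * crd (r • x : EE 𝕜) 0 j = r * ((ww j : 𝕜) * crd x 0 j)
        rw [crd_smul]; ring } 2 (fun y => by
    refine lp.norm_le_of_forall_sum_le (by norm_num) (by positivity) fun s => ?_
    have h2 : (2 : ℝ≥0∞).toReal = (2 : ℕ) := by norm_num
    simp only [h2, Real.rpow_natCast]
    refine le_trans (Finset.sum_le_sum fun j _ => ?_) (sum_sq_le y.2 s)
    refine pow_le_pow_left₀ (norm_nonneg _) ?_ 2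
    show ‖(ww j : 𝕜) * crd (y : EE 𝕜) 0 j‖ ≤ _
    rw [norm_mul, RCLike.norm_ofReal, abs_of_pos (ww_pos j)]
    exact mul_le_of_le_one_left (norm_nonneg _) (ww_lt_one j).le)

lemma SS_nonneg : 0 ≤ ‖SS (𝕜 := 𝕜)‖ := (SS (𝕜 := 𝕜)).opNorm_nonneg

lemma SS_apply (y : YY 𝕜) (j : ℕ) : SS y j = (ww j : 𝕜) * crd (y : EE 𝕜) 0 j := rfl

lemma norm_SS_sq (y : YY 𝕜) : ‖SS y‖ ^ 2 = ∑' j, ww j ^ 2 * ‖crd (y : EE 𝕜) 0 j‖ ^ 2 := by
  have h := lp.norm_rpow_eq_tsum (p := 2) (by norm_num) (SS y)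
  have h2 : (2 : ℝ≥0∞).toReal = (2 : ℕ) := by norm_num
  simp only [h2, Real.rpow_natCast] at h
  rw [h]
  refine tsum_congr fun j => ?_
  rw [SS_apply, norm_mul, RCLike.norm_ofReal, abs_of_pos (ww_pos j), mul_pow]

lemma summable_ww {y : EE 𝕜} (hy : y ∈ YY 𝕜) :
    Summable fun j => ww j ^ 2 * ‖crd y 0 j‖ ^ 2 := by
  refine Summable.of_nonneg_of_le (fun _ => by positivity) (fun j => ?_) (summable_sq hy)
  refine mul_le_of_le_one_left (sq_nonneg _) ?_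
  exact pow_le_one₀ (ww_pos j).le (ww_lt_one j).le

/-- the shift on `ℓ⁴` -/
noncomputable def sh (a : L4 𝕜) : L4 𝕜 :=
  ⟨fun j => Nat.casesOn j 0 fun i => a i, by
    refine memℓp_gen ?_
    simp only [toReal4, Real.rpow_natCast]
    exact (summable_nat_add_iff 1).1 (summable4 a)⟩

lemma sh_zero (a : L4 𝕜) : sh a 0 = 0 := rfl

lemma sh_succ (a : L4 𝕜) (j : ℕ) : sh a (j + 1) = a j := rfl

lemma norm_sh (a : L4 𝕜) : ‖sh a‖ = ‖a‖ := by
  have h1 : ‖sh a‖ ^ 4 = ‖a‖ ^ 4 := by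
    rw [norm4, norm4, (summable4 (sh a)).tsum_eq_zero_add, sh_zero]
    simp only [sh_succ]
    simp
  exact (pow_left_inj₀ (norm_nonneg _) (norm_nonneg _) (by norm_num)).1 h1

lemma NN_sh (n : ℕ) (a : L4 𝕜) : NN n (sh a) ≤ NN n a := by
  refine NN_le_of ?_ fun A hA => ?_
  · rw [norm_sh]; exact NN_ge n a
  · have h1 : ∑ j ∈ A, ‖sh a j‖ = ∑ j ∈ A.erase 0, ‖sh a j‖ := by
      by_cases h0 : 0 ∈ A
      · rw [← Finset.add_sum_erase _ _ h0, sh_zero, norm_zero, zero_add]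
      · rw [Finset.erase_eq_of_notMem h0]
    have h2 : ∑ j ∈ A.erase 0, ‖sh a j‖ = ∑ j ∈ (A.erase 0).image (fun j => j - 1), ‖a j‖ := by
      rw [Finset.sum_image]
      · refine Finset.sum_congr rfl fun j hj => ?_
        have hj0 : j ≠ 0 := Finset.ne_of_mem_erase hj
        obtain ⟨i, rfl⟩ := Nat.exists_eq_succ_of_ne_zero hj0
        rfl
      · intro i hi j hj hij
        have hi0 : i ≠ 0 := Finset.ne_of_mem_erase hi
        have hj0 : j ≠ 0 := Finset.ne_of_mem_erase hj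
        simp only at hij
        omega
    rw [h1, h2]
    refine NN_ge' n a ?_
    exact Finset.card_image_le.trans ((Finset.card_le_card (Finset.erase_subset _ _)).trans hA)

/-- The diagonal subspace is shift invariant. -/
lemma exists_shift {y : EE 𝕜} (hy : y ∈ YY 𝕜) (m : ℕ) :
    ∃ y' ∈ YY 𝕜, ‖y'‖ ≤ ‖y‖ ∧ ∀ j, crd y' 0 (j + m) = crd y 0 j := by
  induction m with
  | zero => exact ⟨y, hy, le_rfl, fun j => rfl⟩
  | succ m ih =>
    obtain ⟨x, hx, hxn, hxc⟩ := ih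
    have hle : ∀ n, ‖toX n (sh (ofX (x n)))‖ ≤ ‖x n‖ := fun n => NN_sh n _
    have hmem : Memℓp (fun n => toX n (sh (ofX (x n)))) 4 := by
      refine memℓp_gen ?_
      simp only [toReal4, Real.rpow_natCast]
      refine Summable.of_nonneg_of_le (fun _ => by positivity) (fun n => ?_) (summable4 x)
      exact pow_le_pow_left₀ (norm_nonneg _) (hle n) 4
    refine ⟨⟨_, hmem⟩, ?_, ?_, ?_⟩
    · intro n j
      cases j with
      | zero => rfl
      | succ j => exact hx n j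
    · refine le_trans ?_ hxn
      refine norm_le_of_pow (norm_nonneg _) ?_
      rw [norm4, norm4]
      refine Summable.tsum_le_tsum (fun n => ?_) (summable4 _) (summable4 x)
      exact pow_le_pow_left₀ (norm_nonneg _) (hle n) 4
    · intro j
      exact hxc j

/-- The `ℓ²` norm is bounded by `‖SS‖` times the norm. -/
lemma tsum_sq_le (y : YY 𝕜) : ∑' j, ‖crd (y : EE 𝕜) 0 j‖ ^ 2 ≤ (‖SS (𝕜 := 𝕜)‖ * ‖y‖) ^ 2 := by
  have key : ∀ m : ℕ, ww m ^ 2 * ∑' j, ‖crd (y : EE 𝕜) 0 j‖ ^ 2 ≤ (‖SS (𝕜 := 𝕜)‖ * ‖y‖) ^ 2 := by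
    intro m
    obtain ⟨y', hy', hn, hc⟩ := exists_shift y.2 m
    have h1 : ‖SS (⟨y', hy'⟩ : YY 𝕜)‖ ≤ ‖SS (𝕜 := 𝕜)‖ * ‖y‖ := by
      refine ((SS (𝕜 := 𝕜)).le_opNorm _).trans ?_
      exact mul_le_mul_of_nonneg_left hn SS_nonneg
    refine le_trans ?_ (pow_le_pow_left₀ (norm_nonneg _) h1 2)
    rw [norm_SS_sq, ← (summable_ww hy').sum_add_tsum_nat_add m, ← tsum_mul_left]
    have h2 : 0 ≤ ∑ i ∈ Finset.range m, ww i ^ 2 * ‖crd y' 0 i‖ ^ 2 :=
      Finset.sum_nonneg fun i _ => by positivity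
    refine le_trans ?_ (le_add_of_nonneg_left h2)
    refine Summable.tsum_le_tsum (fun j => ?_) ((summable_sq y.2).mul_left _)
      ((summable_nat_add_iff m).2 (summable_ww hy'))
    rw [hc j]
    refine mul_le_mul_of_nonneg_right ?_ (sq_nonneg _)
    exact pow_le_pow_left₀ (ww_pos m).le (ww_mono (by omega)) 2
  have hlim : Tendsto (fun m => ww m ^ 2 * ∑' j, ‖crd (y : EE 𝕜) 0 j‖ ^ 2) atTop
      (𝓝 ((1 - 0) ^ 2 * ∑' j, ‖crd (y : EE 𝕜) 0 j‖ ^ 2)) := by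
    refine Tendsto.mul_const _ (Tendsto.pow ?_ 2)
    unfold ww
    refine Tendsto.const_sub _ ?_
    exact (tendsto_add_atTop_iff_nat 1).2
      (tendsto_pow_atTop_nhds_zero_of_lt_one (by norm_num) (by norm_num))
  rw [sub_zero, one_pow, one_mul] at hlim
  exact le_of_tendsto' hlim key

lemma eq_zero_of_crd {y : EE 𝕜} (hy : y ∈ YY 𝕜) (h : ∀ j, crd y 0 j = 0) : y = 0 := by
  refine lp.ext (funext fun n => ?_)
  have h1 : ofX (y n) = 0 := by
    refine lp.ext (funext fun j => ?_)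
    show crd y n j = 0
    rw [hy n j, h j]
  exact h1

/-- `SS` is nonzero. -/
lemma SS_ne_zero : (SS : YY 𝕜 →L[𝕜] lp (fun _ : ℕ => 𝕜) 2) ≠ 0 := by
  have hle : ∀ n, ‖toX n (lp.single 4 0 (1 : 𝕜) : L4 𝕜)‖ ≤ cc n := by
    intro n
    refine NN_le_of ?_ fun A _ => ?_
    · show cc n * ‖(lp.single 4 0 (1 : 𝕜) : L4 𝕜)‖ ≤ cc n
      rw [lp.norm_single (by norm_num), norm_one, mul_one]
    · refine mul_le_of_le_one_right (cc_pos n).le ?_
      calc ∑ j ∈ A, ‖(lp.single 4 0 (1 : 𝕜) : L4 𝕜) j‖ ≤ ∑ j ∈ A, if j = 0 then (1 : ℝ) else 0 := by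
            refine Finset.sum_le_sum fun j _ => ?_
            split_ifs with h
            · subst h
              rw [lp.single_apply_self, norm_one]
            · rw [lp.single_apply_ne _ _ _ h, norm_zero]
        _ ≤ 1 := by
            rw [Finset.sum_ite_eq']
            split_ifs <;> norm_num
  have hmem : Memℓp (fun n => toX n (lp.single 4 0 (1 : 𝕜) : L4 𝕜)) 4 := by
    refine memℓp_gen ?_
    simp only [toReal4, Real.rpow_natCast]
    have hs : Summable fun n : ℕ => cc n ^ 4 := by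
      have : (fun n : ℕ => cc n ^ 4) = fun n => (1 / 16 : ℝ) ^ n := by
        funext n
        unfold cc
        rw [← pow_mul, mul_comm n 4, pow_mul]
        norm_num
      rw [this]
      exact summable_geometric_of_lt_one (by norm_num) (by norm_num)
    refine Summable.of_nonneg_of_le (fun _ => by positivity) (fun n => ?_) hs
    exact pow_le_pow_left₀ (norm_nonneg _) (hle n) 4
  intro h
  have h1 : (SS : YY 𝕜 →L[𝕜] lp (fun _ : ℕ => 𝕜) 2) ⟨⟨_, hmem⟩, fun n j => rfl⟩ = 0 := by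
    rw [h]; rfl
  have h2 := congrArg (fun f : lp (fun _ : ℕ => 𝕜) 2 => f 0) h1
  have h3 : (ww 0 : 𝕜) * (lp.single 4 0 (1 : 𝕜) : L4 𝕜) 0 = 0 := h2
  rw [lp.single_apply_self, mul_one, RCLike.ofReal_eq_zero] at h3
  exact (ww_pos 0).ne' h3

/-- `SS` does not attain its norm. -/
lemma SS_not_attained (y : YY 𝕜) (hy : ‖y‖ ≤ 1) : ‖SS y‖ < ‖SS (𝕜 := 𝕜)‖ := by
  have hSpos : 0 < ‖SS (𝕜 := 𝕜)‖ := by
    refine lt_of_le_of_ne SS_nonneg fun h => SS_ne_zero (𝕜 := 𝕜) ?_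
    refine ContinuousLinearMap.ext fun y => ?_
    have h1 := (SS (𝕜 := 𝕜)).le_opNorm y
    rw [← h, zero_mul] at h1
    exact norm_le_zero_iff.1 h1
  by_cases h0 : ∀ j, crd (y : EE 𝕜) 0 j = 0
  · have : y = 0 := Subtype.ext (eq_zero_of_crd y.2 h0)
    rw [this, map_zero, norm_zero]
    exact hSpos
  · push Not at h0
    obtain ⟨i, hi⟩ := h0
    have h1 : ‖SS y‖ ^ 2 < ∑' j, ‖crd (y : EE 𝕜) 0 j‖ ^ 2 := by
      rw [norm_SS_sq]
      refine Summable.tsum_lt_tsum (i := i) (fun j => ?_) ?_ (summable_ww y.2) (summable_sq y.2)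
      · refine mul_le_of_le_one_left (sq_nonneg _) ?_
        exact pow_le_one₀ (ww_pos j).le (ww_lt_one j).le
      · refine mul_lt_of_lt_one_left (by have := norm_pos_iff.2 hi; positivity) ?_
        exact pow_lt_one₀ (ww_pos i).le (ww_lt_one i) (by norm_num)
    have h2 := h1.trans_le (tsum_sq_le y)
    have h3 : (‖SS (𝕜 := 𝕜)‖ * ‖y‖) ^ 2 ≤ ‖SS (𝕜 := 𝕜)‖ ^ 2 := by
      refine pow_le_pow_left₀ (mul_nonneg SS_nonneg (norm_nonneg _)) ?_ 2
      exact mul_le_of_le_one_right SS_nonneg hy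
    exact lt_of_pow_lt_pow_left₀ 2 SS_nonneg (h2.trans_le h3)

end Pool.Agent.R283.Wmp
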