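import Mathlib

/-!
# A Pitt-type lemma

An operator from an `ℓ⁴`-sum into a Hilbert space maps a bounded sequence (or filter) to a null
sequence as soon as it does so on each coordinate.
-/

set_option autoImplicit false
open Filter Topology Set
open scoped ENNReal

namespace Pool.Agent.R283.Wmp

instance fact4 : Fact ((1 : ℝ≥0∞) ≤ 4) := ⟨by norm_num⟩

section pitt

variable {𝕜 : Type*} [RCLike 𝕜] {G : ℕ → Type*} [∀ n, NormedAddCommGroup (G n)]

lemma toReal4 : (4 : ℝ≥0∞).toReal = (4 : ℕ) := by norm_num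

lemma norm4 (x : lp G 4) : ‖x‖ ^ 4 = ∑' n, ‖x n‖ ^ 4 := by
  have h := lp.norm_rpow_eq_tsum (p := 4) (by norm_num) x
  simp only [toReal4, Real.rpow_natCast] at h
  exact h

lemma summable4 (x : lp G 4) : Summable fun n => ‖x n‖ ^ 4 := by
  have h := (lp.memℓp x).summable (p := 4) (by norm_num)
  simp only [toReal4, Real.rpow_natCast] at h
  exact h

lemma norm4_add_disjoint {x y : lp G 4} (h : ∀ n, x n = 0 ∨ y n = 0) :
    ‖x + y‖ ^ 4 = ‖x‖ ^ 4 + ‖y‖ ^ 4 := by
  rw [norm4, norm4, norm4, ← (summable4 x).tsum_add (summable4 y)]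
  refine tsum_congr fun n => ?_
  rw [lp.coeFn_add, Pi.add_apply]
  rcases h n with h | h
  · rw [h]; simp
  · rw [h]; simp

/-- The projection to the first `N` coordinates. -/
noncomputable def proj (N : ℕ) (x : lp G 4) : lp G 4 := ∑ n ∈ Finset.range N, lp.single 4 n (x n)

lemma proj_apply (N : ℕ) (x : lp G 4) (n : ℕ) : proj N x n = if n < N then x n else 0 := by
  unfold proj
  rw [lp.coeFn_sum, Finset.sum_apply]
  by_cases h : n < N
  · rw [if_pos h, Finset.sum_eq_single n]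
    · exact lp.single_apply_self _ _ _
    · intro b _ hb
      exact lp.single_apply_ne _ _ _ hb.symm
    · intro hn
      exact absurd (Finset.mem_range.2 h) hn
  · rw [if_neg h]
    refine Finset.sum_eq_zero fun b hb => ?_
    refine lp.single_apply_ne _ _ _ ?_
    rintro rfl
    exact h (Finset.mem_range.1 hb)

lemma norm_le_of_pow {a b : ℝ} (hb : 0 ≤ b) (h : a ^ 4 ≤ b ^ 4) : a ≤ b := by
  exact le_of_pow_le_pow_left₀ (by norm_num) hb h

variable [∀ n, NormedSpace 𝕜 (G n)] {H : Type*} [NormedAddCommGroup H] [InnerProductSpace 𝕜 H]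

lemma exists_sign (u w : H) : ∃ ε : 𝕜, ‖ε‖ = 1 ∧ ‖u‖ ^ 2 + ‖w‖ ^ 2 ≤ ‖u + ε • w‖ ^ 2 := by
  have h := parallelogram_law_with_norm 𝕜 u w
  by_cases h1 : ‖u‖ ^ 2 + ‖w‖ ^ 2 ≤ ‖u + w‖ ^ 2
  · exact ⟨1, norm_one, by rwa [one_smul]⟩
  · refine ⟨-1, by rw [norm_neg, norm_one], ?_⟩
    rw [neg_smul, one_smul, ← sub_eq_add_neg]
    nlinarith

/-- The Pitt-type lemma. -/
theorem pitt {ι : Type*} {l : Filter ι} (T : lp G 4 →L[𝕜] H) (x : ι → lp G 4) {R : ℝ}
    (hR : ∀ k, ‖x k‖ ≤ R)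
    (h : ∀ n, Tendsto (fun k => T (lp.single 4 n (x k n))) l (𝓝 0)) :
    Tendsto (fun k => T (x k)) l (𝓝 0) := by
  by_contra hcon
  rw [Metric.tendsto_nhds] at hcon
  push Not at hcon
  obtain ⟨δ, hδ, hfreq⟩ := hcon
  have hproj : ∀ N, Tendsto (fun k => T (proj N (x k))) l (𝓝 0) := by
    intro N
    have h1 : Tendsto (fun k => ∑ n ∈ Finset.range N, T (lp.single 4 n (x k n))) l
        (𝓝 (∑ _n ∈ Finset.range N, 0)) := tendsto_finsetSum _ fun n _ => h n
    simp only [Finset.sum_const_zero] at h1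
    refine h1.congr fun k => ?_
    rw [proj, map_sum]
  have key : ∀ m : ℕ, ∃ (N : ℕ) (v : lp G 4), (∀ n, N ≤ n → v n = 0) ∧ ‖v‖ ^ 4 ≤ m * R ^ 4 ∧
      m * (δ / 2) ^ 2 ≤ ‖T v‖ ^ 2 := by
    intro m
    induction m with
    | zero => exact ⟨0, 0, by simp, by simp, by simp⟩
    | succ m ih =>
      obtain ⟨N, v, hv, hv4, hvT⟩ := ih
      obtain ⟨k, hk1, hk2⟩ : ∃ k, δ ≤ dist (T (x k)) 0 ∧ dist (T (proj N (x k))) 0 < δ / 4 :=
        (hfreq.and_eventually (Metric.tendsto_nhds.1 (hproj N) (δ / 4) (by positivity))).exists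
      rw [dist_zero_right] at hk1 hk2
      have hlim : Tendsto (fun N' => T (proj N' (x k))) atTop (𝓝 (T (x k))) :=
        (T.continuous.tendsto _).comp (lp.hasSum_single (by norm_num) (x k)).tendsto_sum_nat
      obtain ⟨N', hN', hN'2⟩ : ∃ N', N ≤ N' ∧ dist (T (proj N' (x k))) (T (x k)) < δ / 4 :=
        ((eventually_ge_atTop N).and
          (Metric.tendsto_nhds.1 hlim (δ / 4) (by positivity))).exists
      rw [dist_eq_norm] at hN'2
      set z : lp G 4 := proj N' (x k) - proj N (x k) with hz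
      have hzn : ∀ n, z n = if N ≤ n ∧ n < N' then x k n else 0 := by
        intro n
        rw [hz, lp.coeFn_sub, Pi.sub_apply, proj_apply, proj_apply]
        by_cases h1 : n < N
        · rw [if_pos h1, if_pos (h1.trans_le hN'), if_neg (by omega), sub_self]
        · rw [if_neg h1, sub_zero]
          by_cases h2 : n < N'
          · rw [if_pos h2, if_pos (by omega)]
          · rw [if_neg h2, if_neg (by omega)]
      have hTz : δ / 2 ≤ ‖T z‖ := by
        have e : T (x k) = T z + T (proj N (x k)) - (T (proj N' (x k)) - T (x k)) := by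
          rw [hz, map_sub]; abel
        have h1 : ‖T (x k)‖ ≤ ‖T z‖ + ‖T (proj N (x k))‖ + ‖T (proj N' (x k)) - T (x k)‖ := by
          nth_rewrite 1 [e]
          exact (norm_sub_le _ _).trans (add_le_add (norm_add_le _ _) le_rfl)
        linarith
      obtain ⟨ε, hε, hε2⟩ := exists_sign (𝕜 := 𝕜) (T v) (T z)
      refine ⟨N', v + ε • z, ?_, ?_, ?_⟩
      · intro n hn
        rw [lp.coeFn_add, Pi.add_apply, lp.coeFn_smul, Pi.smul_apply, hv n (hN'.trans hn), hzn,
          if_neg (by omega), smul_zero, add_zero]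
      · rw [norm4_add_disjoint]
        · rw [norm_smul, hε, one_mul]
          have h1 : ‖z‖ ^ 4 ≤ R ^ 4 := by
            have h2 : ‖z‖ ^ 4 ≤ ‖x k‖ ^ 4 := by
              rw [norm4, norm4]
              refine (summable4 z).tsum_le_tsum (fun n => ?_) (summable4 _)
              rw [hzn]
              split_ifs
              · exact le_rfl
              · rw [norm_zero, zero_pow (by norm_num)]; positivity
            exact h2.trans (pow_le_pow_left₀ (norm_nonneg _) (hR k) 4)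
          push_cast
          linarith
        · intro n
          by_cases h1 : N ≤ n
          · exact Or.inl (hv n h1)
          · right
            rw [lp.coeFn_smul, Pi.smul_apply, hzn, if_neg (by omega), smul_zero]
      · rw [map_add, map_smul]
        push_cast
        have h1 : (δ / 2) ^ 2 ≤ ‖T z‖ ^ 2 := pow_le_pow_left₀ (by positivity) hTz 2
        linarith
  -- contradiction
  obtain ⟨m, hm⟩ := exists_nat_gt (‖T‖ ^ 4 * R ^ 4 / (δ / 2) ^ 4)
  have hm0 : 0 ≤ ‖T‖ ^ 4 * R ^ 4 / (δ / 2) ^ 4 := by positivity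
  have hm1 : (0 : ℝ) < m := hm0.trans_lt hm
  obtain ⟨N, v, _, h1, h2⟩ := key m
  have h3 : ‖T v‖ ≤ ‖T‖ * ‖v‖ := T.le_opNorm v
  have h4 : m * (δ / 2) ^ 2 ≤ ‖T‖ ^ 2 * ‖v‖ ^ 2 := by
    refine h2.trans ?_
    rw [← mul_pow]
    exact pow_le_pow_left₀ (norm_nonneg _) h3 2
  have h5 : (m * (δ / 2) ^ 2) ^ 2 ≤ (‖T‖ ^ 2 * ‖v‖ ^ 2) ^ 2 := pow_le_pow_left₀ (by positivity) h4 2
  have h6 : (‖T‖ ^ 2 * ‖v‖ ^ 2) ^ 2 = ‖T‖ ^ 4 * ‖v‖ ^ 4 := by ring
  have h7 : ‖T‖ ^ 4 * ‖v‖ ^ 4 ≤ ‖T‖ ^ 4 * (m * R ^ 4) :=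
    mul_le_mul_of_nonneg_left h1 (by positivity)
  have h8 : m * (m * (δ / 2) ^ 4) ≤ m * (‖T‖ ^ 4 * R ^ 4) := by nlinarith
  have h9 : m * (δ / 2) ^ 4 ≤ ‖T‖ ^ 4 * R ^ 4 := le_of_mul_le_mul_left h8 hm1
  rw [div_lt_iff₀ (by positivity)] at hm
  linarith

end pitt

end Pool.Agent.R283.Wmp
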