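import Pool.Agent.R283.WmpPitt

/-!
# The renormed copies of `ℓ⁴`
-/

set_option autoImplicit false
open Filter Topology Set
open scoped ENNReal

namespace Pool.Agent.R283.Wmp

/-- `ℓ⁴` -/
abbrev L4 (𝕜 : Type*) [NormedAddCommGroup 𝕜] := lp (fun _ : ℕ => 𝕜) 4

section

variable {𝕜 : Type*} [RCLike 𝕜]

/-- the bound for the cardinality of the sets -/
def Mc (n : ℕ) : ℕ := 16 ^ (n + 1)

lemma Mc_pos (n : ℕ) : 0 < Mc n := by unfold Mc; positivity

/-- the factors -/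
noncomputable def cc (n : ℕ) : ℝ := (1 / 2) ^ n

lemma cc_pos (n : ℕ) : 0 < cc n := by unfold cc; positivity

/-- The sum of the `16 ^ (n+1)` largest entries. -/
noncomputable def gg (n : ℕ) (a : ℕ → 𝕜) : ℝ :=
  ⨆ A : {A : Finset ℕ // A.card ≤ Mc n}, ∑ j ∈ A.1, ‖a j‖

instance nonempty_index (n : ℕ) : Nonempty {A : Finset ℕ // A.card ≤ Mc n} :=
  ⟨⟨∅, by simp⟩⟩

lemma sum_le (n : ℕ) (a : L4 𝕜) (A : {A : Finset ℕ // A.card ≤ Mc n}) :
    ∑ j ∈ A.1, ‖a j‖ ≤ Mc n * ‖a‖ := by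
  calc ∑ j ∈ A.1, ‖a j‖ ≤ ∑ j ∈ A.1, ‖a‖ :=
        Finset.sum_le_sum fun j _ => lp.norm_apply_le_norm (by norm_num) a j
    _ = A.1.card * ‖a‖ := by rw [Finset.sum_const, nsmul_eq_mul]
    _ ≤ Mc n * ‖a‖ := mul_le_mul_of_nonneg_right (by exact_mod_cast A.2) (norm_nonneg _)

lemma gg_bdd (n : ℕ) (a : L4 𝕜) :
    BddAbove (range fun A : {A : Finset ℕ // A.card ≤ Mc n} => ∑ j ∈ A.1, ‖a j‖) :=
  ⟨Mc n * ‖a‖, by rintro _ ⟨A, rfl⟩; exact sum_le n a A⟩

lemma gg_le (n : ℕ) (a : L4 𝕜) : gg n a ≤ Mc n * ‖a‖ := ciSup_le fun A => sum_le n a A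

lemma gg_nonneg (n : ℕ) (a : ℕ → 𝕜) : 0 ≤ gg n a :=
  Real.iSup_nonneg fun _ => Finset.sum_nonneg fun _ _ => norm_nonneg _

lemma le_gg {n : ℕ} (a : L4 𝕜) {A : Finset ℕ} (hA : A.card ≤ Mc n) :
    ∑ j ∈ A, ‖a j‖ ≤ gg n a :=
  le_ciSup (gg_bdd n a) ⟨A, hA⟩

/-- The new norm. -/
noncomputable def NN (n : ℕ) (a : L4 𝕜) : ℝ := cc n * max ‖a‖ (gg n a)

lemma NN_ge (n : ℕ) (a : L4 𝕜) : cc n * ‖a‖ ≤ NN n a :=
  mul_le_mul_of_nonneg_left (le_max_left _ _) (cc_pos n).le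

lemma NN_ge' (n : ℕ) (a : L4 𝕜) {A : Finset ℕ} (hA : A.card ≤ Mc n) :
    cc n * ∑ j ∈ A, ‖a j‖ ≤ NN n a :=
  mul_le_mul_of_nonneg_left ((le_gg a hA).trans (le_max_right _ _)) (cc_pos n).le

lemma NN_le (n : ℕ) (a : L4 𝕜) : NN n a ≤ cc n * (Mc n * ‖a‖) := by
  refine mul_le_mul_of_nonneg_left (max_le ?_ (gg_le n a)) (cc_pos n).le
  have : (1 : ℝ) ≤ Mc n := by exact_mod_cast Mc_pos n
  nlinarith [norm_nonneg a]

lemma NN_le_of {n : ℕ} {a : L4 𝕜} {C : ℝ} (h1 : cc n * ‖a‖ ≤ C)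
    (h2 : ∀ A : Finset ℕ, A.card ≤ Mc n → cc n * ∑ j ∈ A, ‖a j‖ ≤ C) : NN n a ≤ C := by
  unfold NN
  rw [mul_max_of_nonneg _ _ (cc_pos n).le]
  refine max_le h1 ?_
  rw [← le_div_iff₀' (cc_pos n)]
  refine ciSup_le fun A => ?_
  rw [le_div_iff₀' (cc_pos n)]
  exact h2 A.1 A.2

variable (𝕜) in
/-- The renorming as a group norm. -/
noncomputable def groupNorm (n : ℕ) : AddGroupNorm (L4 𝕜) where
  toFun := NN n
  map_zero' := by
    refine le_antisymm ((NN_le n 0).trans (by rw [norm_zero]; simp)) ?_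
    have := NN_ge n (0 : L4 𝕜)
    rwa [norm_zero, mul_zero] at this
  add_le' a b := by
    refine NN_le_of ?_ ?_
    · calc cc n * ‖a + b‖ ≤ cc n * (‖a‖ + ‖b‖) :=
            mul_le_mul_of_nonneg_left (norm_add_le _ _) (cc_pos n).le
        _ = cc n * ‖a‖ + cc n * ‖b‖ := by ring
        _ ≤ _ := add_le_add (NN_ge n a) (NN_ge n b)
    · intro A hA
      calc cc n * ∑ j ∈ A, ‖(a + b) j‖ ≤ cc n * ∑ j ∈ A, (‖a j‖ + ‖b j‖) := by
            refine mul_le_mul_of_nonneg_left (Finset.sum_le_sum fun j _ => ?_) (cc_pos n).le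
            rw [lp.coeFn_add, Pi.add_apply]
            exact norm_add_le _ _
        _ = cc n * ∑ j ∈ A, ‖a j‖ + cc n * ∑ j ∈ A, ‖b j‖ := by
            rw [Finset.sum_add_distrib]; ring
        _ ≤ _ := add_le_add (NN_ge' n a hA) (NN_ge' n b hA)
  neg' a := by
    have : gg n (-a : L4 𝕜) = gg n a := by
      unfold gg
      refine iSup_congr fun A => Finset.sum_congr rfl fun j _ => ?_
      rw [lp.coeFn_neg, Pi.neg_apply, norm_neg]
    unfold NN
    rw [norm_neg, this]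
  eq_zero_of_map_eq_zero' a h := by
    have h1 := NN_ge n a
    rw [show NN n a = 0 from h] at h1
    have h2 := cc_pos n
    have h3 : ‖a‖ ≤ 0 := by
      by_contra hlt
      push Not at hlt
      have := mul_pos h2 hlt
      linarith
    exact norm_le_zero_iff.1 h3

variable (𝕜) in
/-- The space `ℓ⁴` with the new norm. -/
def XX (_n : ℕ) : Type _ := L4 𝕜

noncomputable instance addX (n : ℕ) : AddCommGroup (XX 𝕜 n) := inferInstanceAs (AddCommGroup (L4 𝕜))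

noncomputable instance modX (n : ℕ) : Module 𝕜 (XX 𝕜 n) := inferInstanceAs (Module 𝕜 (L4 𝕜))

noncomputable instance normX (n : ℕ) : NormedAddCommGroup (XX 𝕜 n) :=
  @AddGroupNorm.toNormedAddCommGroup (XX 𝕜 n) (addX n) (groupNorm 𝕜 n)

/-- the identity -/
def toX (n : ℕ) (a : L4 𝕜) : XX 𝕜 n := a

/-- the identity -/
def ofX {n : ℕ} (a : XX 𝕜 n) : L4 𝕜 := a

lemma norm_X {n : ℕ} (a : XX 𝕜 n) : ‖a‖ = NN n (ofX a) := rfl

lemma gg_smul (n : ℕ) (r : 𝕜) (a : L4 𝕜) : gg n (r • a : L4 𝕜) = ‖r‖ * gg n a := by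
  unfold gg
  rw [Real.mul_iSup_of_nonneg (norm_nonneg _)]
  refine iSup_congr fun A => ?_
  rw [Finset.mul_sum]
  refine Finset.sum_congr rfl fun j _ => ?_
  rw [lp.coeFn_smul, Pi.smul_apply, norm_smul]

noncomputable instance (n : ℕ) : NormedSpace 𝕜 (XX 𝕜 n) where
  norm_smul_le r a := by
    show NN n (r • ofX a) ≤ ‖r‖ * NN n (ofX a)
    unfold NN
    rw [gg_smul, norm_smul, ← mul_max_of_nonneg _ _ (norm_nonneg r)]
    exact le_of_eq (by ring)

/-- The identity from `XX 𝕜 n` to `ℓ⁴` as a linear homeomorphism. -/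
noncomputable def equivX (n : ℕ) : XX 𝕜 n ≃L[𝕜] L4 𝕜 :=
  LinearEquiv.toContinuousLinearEquivOfBounds
    ({ toFun := ofX
       invFun := toX n
       left_inv := fun _ => rfl
       right_inv := fun _ => rfl
       map_add' := fun _ _ => rfl
       map_smul' := fun _ _ => rfl } : XX 𝕜 n ≃ₗ[𝕜] L4 𝕜) (cc n)⁻¹ (cc n * Mc n)
    (fun a => by
      show ‖ofX a‖ ≤ (cc n)⁻¹ * NN n (ofX a)
      rw [le_inv_mul_iff₀ (cc_pos n)]
      exact NN_ge n _)
    (fun a => by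
      show NN n a ≤ cc n * Mc n * ‖a‖
      rw [mul_assoc]
      exact NN_le n a)

@[simp] lemma equivX_apply {n : ℕ} (a : XX 𝕜 n) : equivX n a = ofX a := rfl

@[simp] lemma equivX_symm_apply {n : ℕ} (a : L4 𝕜) : (equivX n).symm a = toX n a := rfl

instance (n : ℕ) : CompleteSpace (XX 𝕜 n) :=
  (completeSpace_congr (e := (equivX (𝕜 := 𝕜) n).toEquiv)
    (equivX (𝕜 := 𝕜) n).isUniformEmbedding).2 inferInstance

variable (𝕜) in
/-- The `ℓ⁴`-sum of the renormed spaces. -/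
noncomputable abbrev EE := lp (fun n : ℕ => XX 𝕜 n) 4

/-- the coordinates of an element of `EE` -/
noncomputable def crd (x : EE 𝕜) (n j : ℕ) : 𝕜 := ofX (x n) j

lemma crd_add (x y : EE 𝕜) (n j : ℕ) : crd (x + y) n j = crd x n j + crd y n j := rfl

lemma crd_sub (x y : EE 𝕜) (n j : ℕ) : crd (x - y) n j = crd x n j - crd y n j := rfl

lemma crd_smul (r : 𝕜) (x : EE 𝕜) (n j : ℕ) : crd (r • x) n j = r * crd x n j := rfl

lemma norm_ofX_le {n : ℕ} (a : XX 𝕜 n) : ‖ofX a‖ ≤ (cc n)⁻¹ * ‖a‖ := by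
  rw [le_inv_mul_iff₀ (cc_pos n)]
  exact NN_ge n _

lemma norm_crd_le (x : EE 𝕜) (n j : ℕ) : ‖crd x n j‖ ≤ (cc n)⁻¹ * ‖x‖ := by
  refine (lp.norm_apply_le_norm (by norm_num) (ofX (x n)) j).trans ?_
  refine (norm_ofX_le _).trans ?_
  exact mul_le_mul_of_nonneg_left (lp.norm_apply_le_norm (by norm_num) x n)
    (inv_nonneg.2 (cc_pos n).le)

/-- The coordinates are continuous. -/
lemma continuous_crd (n j : ℕ) : Continuous fun x : EE 𝕜 => crd x n j := by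
  have h1 : Continuous fun x : EE 𝕜 => x n := (lp.evalCLM 𝕜 (fun n : ℕ => XX 𝕜 n) 4 n).continuous
  have h2 : Continuous fun a : XX 𝕜 n => ofX a := (equivX (𝕜 := 𝕜) n).continuous
  have h3 : Continuous fun a : L4 𝕜 => a j := (lp.evalCLM 𝕜 (fun _ : ℕ => 𝕜) 4 j).continuous
  exact h3.comp (h2.comp h1)

/-- Operators from `EE` to a Hilbert space map bounded coordinatewise null families to null
families. -/
theorem tendsto_of_crd {H : Type*} [NormedAddCommGroup H] [InnerProductSpace 𝕜 H] {ι : Type*}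
    {l : Filter ι} (T : EE 𝕜 →L[𝕜] H) (x : ι → EE 𝕜) {R : ℝ} (hR : ∀ k, ‖x k‖ ≤ R)
    (h : ∀ n j, Tendsto (fun k => crd (x k) n j) l (𝓝 0)) :
    Tendsto (fun k => T (x k)) l (𝓝 0) := by
  refine pitt T x hR fun n => ?_
  let S : L4 𝕜 →L[𝕜] H := (T.comp (lp.singleContinuousLinearMap 𝕜 (fun n : ℕ => XX 𝕜 n) 4 n)).comp
    ((equivX (𝕜 := 𝕜) n).symm : L4 𝕜 →L[𝕜] XX 𝕜 n)
  have hS : ∀ k, T (lp.single 4 n (x k n)) = S (ofX (x k n)) := fun k => rfl
  simp only [hS]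
  refine pitt S (fun k => ofX (x k n)) (R := (cc n)⁻¹ * R) (fun k => ?_) fun j => ?_
  · refine (norm_ofX_le _).trans (mul_le_mul_of_nonneg_left ?_ (inv_nonneg.2 (cc_pos n).le))
    exact (lp.norm_apply_le_norm (by norm_num) (x k) n).trans (hR k)
  · have h1 : ∀ k, S (lp.single 4 j (ofX (x k n) j)) = crd (x k) n j • S (lp.single 4 j 1) := by
      intro k
      rw [← map_smul, ← lp.single_smul, smul_eq_mul, mul_one]
      rfl
    simp only [h1]
    have h2 := (h n j).smul_const (S (lp.single 4 j 1))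
    rwa [zero_smul] at h2

/-- Coordinatewise compactness of the unit ball. -/
theorem exists_limit (x : ℕ → EE 𝕜) (hx : ∀ k, ‖x k‖ ≤ 1) (U : Ultrafilter ℕ) :
    ∃ y : EE 𝕜, ‖y‖ ≤ 1 ∧ ∀ n j, Tendsto (fun k => crd (x k) n j) U (𝓝 (crd y n j)) := by
  have hz : ∀ n j, ∃ z : 𝕜, Tendsto (fun k => crd (x k) n j) U (𝓝 z) := by
    intro n j
    have h1 : ∀ k, crd (x k) n j ∈ Metric.closedBall (0 : 𝕜) ((cc n)⁻¹) := by
      intro k
      rw [Metric.mem_closedBall, dist_zero_right]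
      refine (norm_crd_le _ _ _).trans ?_
      calc (cc n)⁻¹ * ‖x k‖ ≤ (cc n)⁻¹ * 1 :=
            mul_le_mul_of_nonneg_left (hx k) (inv_nonneg.2 (cc_pos n).le)
        _ = (cc n)⁻¹ := mul_one _
    obtain ⟨z, _, hz⟩ := (isCompact_closedBall (0 : 𝕜) ((cc n)⁻¹)).ultrafilter_le_nhds
      (U.map fun k => crd (x k) n j) (by
        rw [le_principal_iff]
        exact Filter.mem_map.2 (univ_mem' h1))
    exact ⟨z, hz⟩
  have hL : ∀ n, ∃ L : ℝ, Tendsto (fun k => ‖x k n‖) U (𝓝 L) := by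
    intro n
    have h1 : ∀ k, ‖x k n‖ ∈ Icc (0 : ℝ) 1 := fun k =>
      ⟨norm_nonneg _, (lp.norm_apply_le_norm (by norm_num) (x k) n).trans (hx k)⟩
    obtain ⟨z, _, hz⟩ := (isCompact_Icc (a := (0 : ℝ)) (b := 1)).ultrafilter_le_nhds
      (U.map fun k => ‖x k n‖) (by
        rw [le_principal_iff]
        exact Filter.mem_map.2 (univ_mem' h1))
    exact ⟨z, hz⟩
  choose z hz using hz
  choose L hL using hL
  have hpi : ∀ n, Tendsto (id fun (k : ℕ) => (fun j => ofX (x k n) j) : ℕ → ∀ _ : ℕ, 𝕜) U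
      (𝓝 (z n)) := by
    intro n
    rw [tendsto_pi_nhds]
    exact fun j => hz n j
  have hmem : ∀ n, Memℓp (z n) 4 := by
    intro n
    refine lp.memℓp_of_tendsto (F := fun k => ofX (x k n)) ?_ (hpi n)
    rw [isBounded_iff_forall_norm_le]
    refine ⟨(cc n)⁻¹ * 1, ?_⟩
    rintro _ ⟨k, rfl⟩
    refine (norm_ofX_le _).trans (mul_le_mul_of_nonneg_left ?_ (inv_nonneg.2 (cc_pos n).le))
    exact (lp.norm_apply_le_norm (by norm_num) (x k) n).trans (hx k)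
  let a : ∀ n, L4 𝕜 := fun n => ⟨z n, hmem n⟩
  have hNN : ∀ n, ‖toX n (a n)‖ ≤ L n := by
    intro n
    refine NN_le_of ?_ ?_
    · refine le_of_forall_pos_le_add fun ε hε => ?_
      have h1 : ∀ᶠ k in (U : Filter ℕ), ‖ofX (x k n)‖ ≤ (cc n)⁻¹ * (L n + ε) := by
        filter_upwards [(hL n).eventually (gt_mem_nhds (by linarith : L n < L n + ε))] with k hk
        exact (norm_ofX_le _).trans (mul_le_mul_of_nonneg_left hk.le (inv_nonneg.2 (cc_pos n).le))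
      have h2 := lp.norm_le_of_tendsto (p := 4) h1 (f := a n) (hpi n)
      rwa [le_inv_mul_iff₀ (cc_pos n)] at h2
    · intro A hA
      have h1 : Tendsto (fun k => cc n * ∑ j ∈ A, ‖ofX (x k n) j‖) U
          (𝓝 (cc n * ∑ j ∈ A, ‖z n j‖)) :=
        (tendsto_finsetSum _ fun j _ => (hz n j).norm).const_mul _
      exact le_of_tendsto_of_tendsto' h1 (hL n) fun k => NN_ge' n _ hA
  have hsum : ∀ s : Finset ℕ, ∑ n ∈ s, ‖toX n (a n)‖ ^ 4 ≤ 1 := by
    intro s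
    have h1 : Tendsto (fun k => ∑ n ∈ s, ‖x k n‖ ^ 4) U (𝓝 (∑ n ∈ s, L n ^ 4)) :=
      tendsto_finsetSum _ fun n _ => (hL n).pow 4
    have h2 : ∑ n ∈ s, L n ^ 4 ≤ 1 := by
      refine le_of_tendsto' h1 fun k => ?_
      calc ∑ n ∈ s, ‖x k n‖ ^ 4 ≤ ∑' n, ‖x k n‖ ^ 4 :=
            (summable4 (x k)).sum_le_tsum s fun n _ => by positivity
        _ = ‖x k‖ ^ 4 := (norm4 _).symm
        _ ≤ 1 := pow_le_one₀ (norm_nonneg _) (hx k)
    exact (Finset.sum_le_sum fun n _ => pow_le_pow_left₀ (norm_nonneg _) (hNN n) 4).trans h2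
  have hmemy : Memℓp (fun n => toX n (a n)) 4 := by
    refine memℓp_gen' (C := 1) fun s => ?_
    simp only [toReal4, Real.rpow_natCast]
    exact hsum s
  refine ⟨⟨fun n => toX n (a n), hmemy⟩, ?_, fun n j => hz n j⟩
  refine lp.norm_le_of_forall_sum_le (by norm_num) zero_le_one fun s => ?_
  simp only [toReal4, Real.rpow_natCast, one_pow]
  exact hsum s

/-- Every operator from `EE × 𝕜` to a Hilbert space attains its norm. -/
theorem attains {H : Type*} [NormedAddCommGroup H] [InnerProductSpace 𝕜 H]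
    (T : (EE 𝕜 × 𝕜) →L[𝕜] H) : ∃ z : EE 𝕜 × 𝕜, ‖z‖ ≤ 1 ∧ ‖T z‖ = ‖T‖ := by
  have hex : ∀ k : ℕ, ∃ z : EE 𝕜 × 𝕜, ‖z‖ < 1 ∧ ‖T‖ - 1 / ((k : ℝ) + 1) < ‖T z‖ := by
    intro k
    refine ContinuousLinearMap.exists_lt_apply_of_lt_opNorm T ?_
    have : 0 < 1 / ((k : ℝ) + 1) := by positivity
    linarith
  choose z hz1 hz2 using hex
  have hlim : Tendsto (fun k => ‖T (z k)‖) atTop (𝓝 ‖T‖) := by
    have h1 : Tendsto (fun k : ℕ => ‖T‖ - 1 / ((k : ℝ) + 1)) atTop (𝓝 (‖T‖ - 0)) :=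
      tendsto_one_div_add_atTop_nhds_zero_nat.const_sub _
    rw [sub_zero] at h1
    refine tendsto_of_tendsto_of_tendsto_of_le_of_le h1 tendsto_const_nhds (fun k => (hz2 k).le) ?_
    intro k
    refine (T.le_opNorm _).trans ?_
    exact mul_le_of_le_one_right (norm_nonneg _) (hz1 k).le
  set U : Ultrafilter ℕ := hyperfilter ℕ with hU
  have hUlim : Tendsto (fun k => ‖T (z k)‖) U (𝓝 ‖T‖) := hlim.mono_left Nat.hyperfilter_le_atTop
  have hx1 : ∀ k, ‖(z k).1‖ ≤ 1 := fun k => (norm_fst_le _).trans (hz1 k).le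
  have ht1 : ∀ k, ‖(z k).2‖ ≤ 1 := fun k => (norm_snd_le _).trans (hz1 k).le
  obtain ⟨y, hy1, hy2⟩ := exists_limit (fun k => (z k).1) hx1 U
  obtain ⟨t, htm, ht⟩ := (isCompact_closedBall (0 : 𝕜) 1).ultrafilter_le_nhds
      (U.map fun k => (z k).2) (by
        rw [le_principal_iff]
        refine Filter.mem_map.2 (univ_mem' fun k => ?_)
        show (z k).2 ∈ Metric.closedBall (0 : 𝕜) 1
        rw [Metric.mem_closedBall, dist_zero_right]
        exact ht1 k)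
  have ht' : Tendsto (fun k => (z k).2) U (𝓝 t) := ht
  rw [Metric.mem_closedBall, dist_zero_right] at htm
  refine ⟨(y, t), ?_, ?_⟩
  · rw [Prod.norm_def]
    exact max_le hy1 htm
  · have h1 : Tendsto (fun k => (T.comp (ContinuousLinearMap.inl 𝕜 (EE 𝕜) 𝕜)) ((z k).1 - y)) U
        (𝓝 0) := by
      refine tendsto_of_crd _ _ (R := 1 + 1) (fun k => ?_) fun n j => ?_
      · exact (norm_sub_le _ _).trans (add_le_add (hx1 k) hy1)
      · simp only [crd_sub]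
        have := (hy2 n j).sub_const (crd y n j)
        rwa [sub_self] at this
    have h2 : Tendsto (fun k => (T.comp (ContinuousLinearMap.inr 𝕜 (EE 𝕜) 𝕜)) ((z k).2 - t)) U
        (𝓝 0) := by
      have h3 : Tendsto (fun k => (z k).2 - t) U (𝓝 0) := by
        have := ht'.sub_const t
        rwa [sub_self] at this
      have h4 := ((T.comp (ContinuousLinearMap.inr 𝕜 (EE 𝕜) 𝕜)).continuous.tendsto 0).comp h3
      rwa [map_zero] at h4
    have h3 : Tendsto (fun k => T (z k)) U (𝓝 (T (y, t))) := by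
      have h4 := (h1.add h2).add_const (T (y, t))
      rw [add_zero, zero_add] at h4
      refine h4.congr fun k => ?_
      show T ((z k).1 - y, 0) + T (0, (z k).2 - t) + T (y, t) = T (z k)
      rw [← map_add, ← map_add]
      congr 1
      ext1 <;> simp
    exact tendsto_nhds_unique h3.norm hUlim

end

end Pool.Agent.R283.Wmp
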